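import Pool.Agent.Lib.MP_305fdd_al.CZ.W.Stm
import Pool.Agent.Lib.MP_305fdd_al.F2.ChMain
import Pool.Agent.Lib.MP_305fdd_al.F2.W.Main

/-!
# MP_305fdd_al, `C_m * Z`, section W: piece FD0 (the residue field of a normalised `w`)
-/

set_option autoImplicit false

namespace Pool.Agent.CZW

open Pool.Agent.F2Ch Pool.Agent.F2RF Pool.Agent.F2W Pool.Agent.F2PF Pool.Agent.CZ
open Pool.Agent.F2L (FPl)

/-- the rank of a discrete valuation is one -/
private theorem fd0_rank {K : Type} [Field K] {w : K → ℤ} {r : ℕ} {x : Fin r → K}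
    {ex : K → Fin r → ℤ} (h : IsVB w x ex) (hn : F2N.Nrm w) : r = 1 := by
  obtain ⟨f, hf, h1⟩ := hn
  rcases r with _ | _ | r
  · exfalso
    have h2 := h.gen f hf
    unfold wt at h2
    rw [Finset.univ_eq_empty, Finset.sum_empty, h1] at h2
    exact one_ne_zero h2
  · rfl
  · exfalso
    let m : Fin (r + 2) → ℤ := Fin.cons (w (x 1)) (Fin.cons (-(w (x 0))) fun _ => 0)
    have h3 : wt (fun i => w (x i)) m = 0 := by
      unfold wt
      rw [Fin.sum_univ_succ, Fin.sum_univ_succ]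
      have h4 : ∑ i : Fin r, m i.succ.succ • w (x i.succ.succ) = 0 :=
        Finset.sum_eq_zero fun i _ => zero_smul ℤ _
      rw [h4]
      show w (x 1) * w (x 0) + (-(w (x 0)) * w (x 1) + 0) = 0
      ring
    have h5 := congrFun (h.indep m h3) 0
    have h6 : w (x 1) = 0 := h5
    have h7 := h.pos 1
    rw [h6] at h7
    exact lt_irrefl _ h7

theorem p_FD0 {p m : ℕ} [Fact p.Prime] {k K G : Type} [Field k] [CharP k p] [IsAlgClosed k]
    [Field K] [Algebra k K] [Group G] (C : Core p m k K G) : S_FD0 C := by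
  intro w hw hn
  obtain ⟨r, s, κ, i1, i2, x, ex, ac, φb, N, L, hch, hrs, htr, hfg, -⟩ :=
    t_X2 p k K ℤ C.n C.t C.fracgen 2 C.b0 C.ρ0 C.pb C.φ C.pinv C.one w hw
  obtain rfl : r = 1 := fd0_rank hch.vb hn
  obtain rfl : s = 1 := by omega
  have hx0 : w (x 0) = 1 := by
    obtain ⟨f, hf, h1⟩ := hn
    have h2 := hch.vb.gen f hf
    unfold wt at h2
    rw [Fin.sum_univ_one, h1, smul_eq_mul] at h2
    have h3 := hch.vb.pos 0
    exact Int.eq_one_of_dvd_one h3.le ⟨ex f 0, by rw [mul_comm]; exact h2⟩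
  have htrd : Algebra.trdeg k K = ((1 + 1 : ℕ) : Cardinal) := by
    rw [C.trdeg]
    norm_num
  obtain ⟨hlog, hmb⟩ := t_R11 p k K ℤ κ C.n C.t C.fracgen 1 1 htrd C.φ C.pinv C.one C.log w hw
    x ex ac φb hch.vb hch.isac htr hfg hch.pinv hch.one hch.res
  refine ⟨κ, i1, i2, x, ac, φb, ?_⟩
  exact
    { inz := hw
      ne := hch.vb.ne 0
      val := hx0
      isac := hch.isac
      pinv := hch.pinv
      one := hch.one
      res := hch.res
      trd := by rw [htr]; norm_num
      fg := hfg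
      log := hlog
      mb := hmb }

end Pool.Agent.CZW
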