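import Pool.Agent.Lib.MP_305fdd_al.CZ.W.Stm

/-!
# MP_305fdd_al, F_2 project, section L: piece FD2

Decomposition of a flag over a normalised discrete valuation (compare the piece K2 of section C).
-/

set_option autoImplicit false
set_option linter.unusedSectionVars false

namespace Pool.Agent.CZW

open Polynomial Pool.Agent.F2Ch Pool.Agent.F2 Pool.Agent.F2RF Pool.Agent.F2W Pool.Agent.F2D
open Pool.Agent.F2PF

section V

variable {K Γ : Type} [Field K] [AddCommGroup Γ] [LinearOrder Γ] [IsOrderedAddMonoid Γ]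
  {v : K → Γ}

private theorem fd2_one (hv : IsV v) : v 1 = 0 := by
  have h := hv.mul 1 1 one_ne_zero one_ne_zero
  rw [mul_one] at h
  exact left_eq_add.1 h

private theorem fd2_neg_one (hv : IsV v) : v (-1) = 0 := by
  have h := hv.mul (-1) (-1) (neg_ne_zero.2 one_ne_zero) (neg_ne_zero.2 one_ne_zero)
  rw [neg_mul_neg, mul_one, fd2_one hv] at h
  rcases lt_trichotomy (v (-1)) 0 with h1 | h1 | h1
  · exact absurd h.symm (add_neg h1 h1).ne
  · exact h1
  · exact absurd h (add_pos h1 h1).ne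

private theorem fd2_neg (hv : IsV v) (x : K) : v (-x) = v x := by
  by_cases hx : x = 0
  · rw [hx, neg_zero]
  · have h := hv.mul (-1) x (neg_ne_zero.2 one_ne_zero) hx
    rw [neg_one_mul, fd2_neg_one hv, zero_add] at h
    exact h

private theorem fd2_inv (hv : IsV v) {x : K} (hx : x ≠ 0) : v x⁻¹ = -v x := by
  have h := hv.mul x x⁻¹ hx (inv_ne_zero hx)
  rw [mul_inv_cancel₀ hx, fd2_one hv] at h
  exact (neg_eq_of_add_eq_zero_right h.symm).symm

private theorem fd2_pow (hv : IsV v) {x : K} (hx : x ≠ 0) (n : ℕ) : v (x ^ n) = n • v x := by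
  induction n with
  | zero => rw [pow_zero, zero_smul, fd2_one hv]
  | succ n ih => rw [pow_succ, hv.mul _ _ (pow_ne_zero n hx) hx, ih, succ_nsmul]

private theorem fd2_zpow (hv : IsV v) {x : K} (hx : x ≠ 0) (n : ℤ) : v (x ^ n) = n • v x := by
  cases n with
  | ofNat n =>
    rw [Int.ofNat_eq_natCast, zpow_natCast, fd2_pow hv hx, natCast_zsmul]
  | negSucc n =>
    rw [zpow_negSucc, fd2_inv hv (pow_ne_zero _ hx), fd2_pow hv hx, negSucc_zsmul]

end V

section L

private def fd2_snd : (ℝ ×ₗ ℝ) →+ ℝ where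
  toFun a := (ofLex a).2
  map_zero' := rfl
  map_add' _ _ := rfl

private theorem fd2_snd_le {a b : ℝ ×ₗ ℝ} (h : a ≤ b)
    (he : (ofLex a).1 = (ofLex b).1) : (ofLex a).2 ≤ (ofLex b).2 := by
  rcases Prod.Lex.le_iff.1 h with h | h
  · exact absurd he h.ne
  · exact h.2

private theorem fd2_pos {a : ℝ ×ₗ ℝ} (h : 0 < (ofLex a).1) : 0 < a := by
  refine Prod.Lex.lt_iff.2 (Or.inl ?_)
  exact h

end L

section A

variable {k K κ : Type} [Field k] [Field K] [Algebra k K] [Field κ] [Algebra k κ]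
  {v : K → ℤ} {x : Fin 1 → K} {ac : K → κ}

private theorem fd2_lc {γ : ℤ} {f : K} (hf : f ≠ 0) (h : v f = γ) : lc v ac γ f = ac f := by
  unfold lc
  rw [if_pos ⟨hf, h⟩]

private theorem fd2_of_lc {γ : ℤ} {f : K} (h : lc v ac γ f ≠ 0) :
    f ≠ 0 ∧ v f = γ ∧ lc v ac γ f = ac f := by
  by_cases h1 : f ≠ 0 ∧ v f = γ
  · exact ⟨h1.1, h1.2, fd2_lc h1.1 h1.2⟩
  · refine absurd ?_ h
    unfold lc
    rw [if_neg h1]

private theorem fd2_ac_one (ha : IsAC k v x ac) : ac 1 = 1 := by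
  have h := ha.alg 1
  rwa [map_one, map_one] at h

private theorem fd2_ac_neg_one (ha : IsAC k v x ac) : ac (-1) = -1 := by
  have h := ha.alg (-1)
  rwa [map_neg, map_one, map_neg, map_one] at h

private theorem fd2_ac_inv (ha : IsAC k v x ac) {f : K} (hf : f ≠ 0) : ac f⁻¹ = (ac f)⁻¹ := by
  have h := ha.mul f f⁻¹
  rw [mul_inv_cancel₀ hf, fd2_ac_one ha] at h
  exact (inv_eq_of_mul_eq_one_right h.symm).symm

private theorem fd2_ac_pow (ha : IsAC k v x ac) (f : K) (n : ℕ) : ac (f ^ n) = ac f ^ n := by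
  induction n with
  | zero => rw [pow_zero, pow_zero, fd2_ac_one ha]
  | succ n ih => rw [pow_succ, pow_succ, ha.mul, ih]

private theorem fd2_ac_x (ha : IsAC k v x ac) (hx : x 0 ≠ 0) (n : ℤ) : ac (x 0 ^ n) = 1 := by
  cases n with
  | ofNat n =>
    rw [Int.ofNat_eq_natCast, zpow_natCast, fd2_ac_pow ha, ha.x_one, one_pow]
  | negSucc n =>
    rw [zpow_negSucc, fd2_ac_inv ha (pow_ne_zero _ hx), fd2_ac_pow ha, ha.x_one, one_pow,
      inv_one]

/-- a finer valuation has the same value on elements of `v`-value zero with the same residue -/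
private theorem fd2_same (hv : IsV v) (ha : IsAC k v x ac) {c : ℝ} (hc : 0 < c)
    {V : K → ℝ ×ₗ ℝ} (hV : IsV V)
    (hfst : ∀ f, (ofLex (V f)).1 = c * (v f : ℝ)) {f g : K} (hf : f ≠ 0) (hg : g ≠ 0)
    (hvf : v f = 0) (hvg : v g = 0) (h : ac f = ac g) : V f = V g := by
  have hu0 : f * g⁻¹ ≠ 0 := mul_ne_zero hf (inv_ne_zero hg)
  have hvu : v (f * g⁻¹) = 0 := by
    rw [hv.mul _ _ hf (inv_ne_zero hg), fd2_inv hv hg, hvf, hvg, neg_zero, add_zero]
  have hau : ac (f * g⁻¹) = 1 := by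
    rw [ha.mul, fd2_ac_inv ha hg, h, mul_inv_cancel₀ (ha.ne g hg)]
  have hV1 : V (f * g⁻¹) = 0 := by
    by_cases h1 : f * g⁻¹ + -1 = 0
    · rw [eq_neg_of_add_eq_zero_left h1, neg_neg, fd2_one hV]
    · have hn1 : (-1 : K) ≠ 0 := neg_ne_zero.2 one_ne_zero
      have h2 := ha.add 0 (f * g⁻¹) (-1) (Or.inr hvu.ge) (Or.inr (fd2_neg_one hv).ge)
      rw [fd2_lc hu0 hvu, fd2_lc hn1 (fd2_neg_one hv), hau, fd2_ac_neg_one ha,
        add_neg_cancel] at h2
      have h3 : 0 ≤ v (f * g⁻¹ + -1) := by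
        refine le_trans ?_ (hv.add _ _ hu0 hn1 h1)
        rw [hvu, fd2_neg_one hv, min_self]
      have h4 : v (f * g⁻¹ + -1) ≠ 0 := by
        intro h4
        rw [fd2_lc h1 h4] at h2
        exact ha.ne _ h1 h2
      have h5 : 0 < V (f * g⁻¹ + -1) := by
        refine fd2_pos ?_
        rw [hfst]
        have h3' : 0 < v (f * g⁻¹ + -1) := lt_of_le_of_ne h3 h4.symm
        exact mul_pos hc (by exact_mod_cast h3')
      have h6 : 0 ≤ V (f * g⁻¹) := by
        have h7 := hV.add (f * g⁻¹ + -1) 1 h1 one_ne_zero (by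
          rw [neg_add_cancel_right]
          exact hu0)
        rw [neg_add_cancel_right, fd2_one hV, min_eq_right h5.le] at h7
        exact h7
      have h8 : V (f * g⁻¹) ≤ 0 := by
        have e1 : f * g⁻¹ + -(f * g⁻¹ + -1) = 1 := by ring
        have h7 := hV.add (f * g⁻¹) (-(f * g⁻¹ + -1)) hu0 (neg_ne_zero.2 h1) (by
          rw [e1]
          exact one_ne_zero)
        rw [e1, fd2_one hV, fd2_neg hV] at h7
        rcases min_le_iff.1 h7 with h7 | h7
        · exact h7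
        · exact absurd h7 (not_le.2 h5)
      exact le_antisymm h8 h6
  have h9 := hV.mul (f * g⁻¹) g hu0 hg
  rw [inv_mul_cancel_right₀ hg, hV1, zero_add] at h9
  exact h9

end A

open Classical in
/-- DECOMPOSITION OF A FLAG -/
theorem p_FD2 : S_FD2 := by
  intro p _ k K κ _ _ _ _ _ _ φ v x ac φb hφ hR c hc V hV hfst
  have hv := hR.inz.isv
  have ha := hR.isac
  have hx := hR.ne
  choose! L hL using ha.surj
  set Q : κ → ℝ := fun y => if y = 0 then 0 else (ofLex (V (L y))).2 with hQ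
  have hQ0 : Q 0 = 0 := if_pos rfl
  have hQf : ∀ f, f ≠ 0 → v f = 0 → Q (ac f) = (ofLex (V f)).2 := by
    intro f hf hvf
    have hc' : ac f ≠ 0 := ha.ne f hf
    have h1 : Q (ac f) = (ofLex (V (L (ac f)))).2 := if_neg hc'
    obtain ⟨h2, h3, h4⟩ := hL (ac f) hc'
    rw [h1, fd2_same hv ha hc hV.isv hfst h2 hf h3 hvf h4]
  refine ⟨Q, (ofLex (V (x 0))).2, ⟨⟨hQ0, ?_, ?_⟩, ?_, ?_⟩, ?_⟩
  · intro y y' hy hy'
    obtain ⟨h1, h2, h3⟩ := hL y hy
    obtain ⟨h1', h2', h3'⟩ := hL y' hy'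
    have h4 := hQf (L y * L y') (mul_ne_zero h1 h1') (by rw [hv.mul _ _ h1 h1', h2, h2', add_zero])
    rw [ha.mul, h3, h3', hV.isv.mul _ _ h1 h1'] at h4
    have h5 := hQf (L y) h1 h2
    have h5' := hQf (L y') h1' h2'
    rw [h3] at h5
    rw [h3'] at h5'
    rw [h4, h5, h5']
    rfl
  · intro y y' hy hy' hyy
    obtain ⟨h1, h2, h3⟩ := hL y hy
    obtain ⟨h1', h2', h3'⟩ := hL y' hy'
    have h4 := ha.add 0 (L y) (L y') (Or.inr h2.ge) (Or.inr h2'.ge)
    rw [fd2_lc h1 h2, fd2_lc h1' h2', h3, h3'] at h4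
    obtain ⟨h5, h6, h7⟩ := fd2_of_lc (v := v) (ac := ac) (γ := 0) (f := L y + L y') (by
      rw [h4]
      exact hyy)
    have h8 := hQf (L y + L y') h5 h6
    rw [← h7, h4] at h8
    have h9 := hQf (L y) h1 h2
    have h9' := hQf (L y') h1' h2'
    rw [h3] at h9
    rw [h3'] at h9'
    rw [h8, h9, h9']
    rcases min_le_iff.1 (hV.isv.add _ _ h1 h1' h5) with h | h
    · exact (min_le_left _ _).trans (fd2_snd_le h (by rw [hfst, hfst, h2, h6]))
    · exact (min_le_right _ _).trans (fd2_snd_le h (by rw [hfst, hfst, h2', h6]))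
  · intro a
    by_cases ha0 : a = 0
    · rw [ha0, map_zero, hQ0]
    · have h1 : algebraMap k K a ≠ 0 := by
        rw [Ne, map_eq_zero]
        exact ha0
      have h2 := hQf (algebraMap k K a) h1 (hR.inz.triv a)
      rw [ha.alg, hV.triv a] at h2
      rw [h2]
      rfl
  · intro y hy
    have hφ0 : φ 0 = 0 := by
      have h := hφ.add 0 0
      rw [add_zero] at h
      exact left_eq_add.1 h
    have hlc0 : lc v ac 0 (0 : K) = 0 := by
      unfold lc
      rw [if_neg fun h => h.1 rfl]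
    have hy0 : y ≠ 0 := by
      rintro rfl
      have h := (hR.res 0 (Or.inl rfl)).2
      rw [hφ0, hlc0] at h
      exact hy h.symm
    obtain ⟨h1, h2, h3⟩ := hL y hy0
    have h4 := (hR.res (L y) (Or.inr h2.ge)).2
    rw [fd2_lc h1 h2, h3] at h4
    obtain ⟨h5, h6, h7⟩ := fd2_of_lc (v := v) (ac := ac) (γ := 0) (f := φ (L y)) (by
      rw [h4]
      exact hy)
    have h8 := hQf (L y) h1 h2
    have h9 := hQf (φ (L y)) h5 h6
    rw [h3] at h8
    rw [← h7, h4] at h9
    rw [h8, h9]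
    have h10 := fd2_snd_le (hV.compat (L y) h5) (by
      rw [hfst, h2]
      have : (ofLex (p • V (φ (L y)))).1 = p • (ofLex (V (φ (L y)))).1 := rfl
      rw [this, hfst, h6, Int.cast_zero, mul_zero, smul_zero])
    exact h10
  · intro f hf
    set z : K := x 0 ^ v f with hz
    have hz0 : z ≠ 0 := zpow_ne_zero _ hx
    have hvz : v z = v f := by
      rw [hz, fd2_zpow hv hx, hR.val, smul_eq_mul, mul_one]
    have hg0 : f * z⁻¹ ≠ 0 := mul_ne_zero hf (inv_ne_zero hz0)
    have hvg : v (f * z⁻¹) = 0 := by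
      rw [hv.mul _ _ hf (inv_ne_zero hz0), fd2_inv hv hz0, hvz, add_neg_cancel]
    have hag : ac (f * z⁻¹) = ac f := by
      rw [ha.mul, fd2_ac_inv ha hz0, hz, fd2_ac_x ha hx, inv_one, mul_one]
    have h1 := hQf _ hg0 hvg
    rw [hag] at h1
    have h2 := hV.isv.mul (f * z⁻¹) z hg0 hz0
    rw [inv_mul_cancel_right₀ hz0] at h2
    have h3 : (ofLex (V z)).2 = (ofLex (V (x 0))).2 * (v f : ℝ) := by
      have h4 : fd2_snd (V z) = (v f) • fd2_snd (V (x 0)) := by
        rw [hz, fd2_zpow hV.isv hx, map_zsmul]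
      rw [zsmul_eq_mul, mul_comm] at h4
      exact h4
    refine ofLex.injective (Prod.ext ?_ ?_)
    · exact hfst f
    · show (ofLex (V f)).2 = Q (ac f) + (ofLex (V (x 0))).2 * (v f : ℝ)
      rw [h1, ← h3, h2]
      rfl

end Pool.Agent.CZW
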