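import Pool.Agent.Lib.MP_305fdd_al.CZ.W.Stm
import Pool.Agent.Lib.MP_305fdd_al.F2.RF.Main

/-!
# MP_305fdd_al, `C_m * Z`, section W, piece FD3: the place of a flag
-/

set_option autoImplicit false

namespace Pool.Agent.CZW

open Pool.Agent.F2Ch Pool.Agent.F2RF Pool.Agent.F2W Pool.Agent.F2PF Pool.Agent.CZ
open Pool.Agent.F2L (FPl)

theorem p_FD3 {p m : ℕ} [Fact p.Prime] {k K G : Type} [Field k] [CharP k p] [IsAlgClosed k]
    [Field K] [Algebra k K] [Group G] (C : Core p m k K G) (hFD2 : S_FD2) : S_FD3 C := by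
  intro κ _ _ w x ac φb hR c hc V hV
  obtain ⟨Q, b, hQ, hform⟩ := hFD2 p k K κ C.φ w x ac φb C.pinv hR c hc V hV.inz hV.fst
  have hQ0 : ∃ y, Q y ≠ 0 := by
    obtain ⟨f, hf, hwf, hc2⟩ := hV.nt
    have hwf' : w f = 0 := by
      rcases mul_eq_zero.mp hwf with h | h
      · exact absurd h hc.ne'
      · exact_mod_cast h
    refine ⟨ac f, fun h => hc2 ?_⟩
    unfold c2
    rw [hform f hf, hwf', h]
    simp
  obtain ⟨n', t', hfg⟩ := hR.fg
  have hFF : FF1 k κ := u0 k κ n' t' hfg hR.trd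
  obtain ⟨D, δ, hδ, hD, hQD⟩ := u11 k κ hFF ℝ Q hQ.isv hQ.triv hQ0
  refine ⟨D, δ, b, ⟨hD, ?_, hδ, fun f hf => ?_⟩⟩
  · intro f hf
    have h := hQ.compat f hf
    rw [hQD, hQD] at h
    simp only [zsmul_eq_mul, nsmul_eq_mul] at h
    have h2 : (D f : ℝ) * δ ≤ ((p : ℝ) * (D (φb f) : ℝ)) * δ := by linarith
    have h3 := le_of_mul_le_mul_right h2 hδ
    rw [nsmul_eq_mul]
    exact_mod_cast h3
  · rw [hform f hf, hQD, zsmul_eq_mul, mul_comm (D (ac f) : ℝ) δ]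

end Pool.Agent.CZW
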