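import Pool.Agent.Lib.MP_305fdd_al.CZ.W.Stm

/-!
# MP_305fdd_al, [CZW FD4]: the flag of a place
-/

set_option autoImplicit false

namespace Pool.Agent.CZW

open Pool.Agent.F2Ch Pool.Agent.F2RF Pool.Agent.F2W Pool.Agent.F2PF Pool.Agent.CZ
open Pool.Agent.F2L (FPl)

/-- an integral valuation as a real valuation -/
private theorem fd4_cast {L : Type} [Field L] {D : L → ℤ} (h : IsV D) :
    IsV (fun y => (D y : ℝ)) := by
  refine ⟨?_, ?_, ?_⟩
  · rw [h.zero, Int.cast_zero]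
  · intro x y hx hy
    rw [h.mul x y hx hy, Int.cast_add]
  · intro x y hx hy hxy
    have h1 := h.add x y hx hy hxy
    rw [min_le_iff] at h1 ⊢
    rcases h1 with h1 | h1
    · exact Or.inl (by exact_mod_cast h1)
    · exact Or.inr (by exact_mod_cast h1)

/-- [CZW FD4] -/
theorem p_FD4 {p m : ℕ} [Fact p.Prime] {k K G : Type} [Field k] [CharP k p] [IsAlgClosed k]
    [Field K] [Algebra k K] [Group G] (C : Core p m k K G) (hFC : S_FC) : S_FD4 C := by
  intro κ _ _ w x ac φb hR c hcpos D hD1 hD2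
  have hQc : Compat p φb (fun y => (D y : ℝ)) := by
    intro f hf
    have h1 := hD2 f hf
    simp only [nsmul_eq_mul] at h1 ⊢
    exact_mod_cast h1
  have hinz := hFC p k K κ C.φ w x ac φb C.pinv hR (fun y => (D y : ℝ)) (fd4_cast hD1.isv)
    (fun a => by
      show ((D (algebraMap k κ a) : ℤ) : ℝ) = 0
      rw [hD1.triv a, Int.cast_zero]) hQc c hcpos
  refine ⟨fun f => (toLex (c * (w f : ℝ), (D (ac f) : ℝ)) : ℝ ×ₗ ℝ),
    ⟨hinz, fun f => rfl, ?_⟩, ⟨hD1, hD2, one_pos, fun f _ => ?_⟩⟩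
  · obtain ⟨π, hπ0, hπ⟩ := hD1.unif
    obtain ⟨f, hf0, hfw, hfa⟩ := hR.isac.surj π hπ0
    refine ⟨f, hf0, ?_, ?_⟩
    · show c * (w f : ℝ) = 0
      rw [hfw, Int.cast_zero, mul_zero]
    · show (D (ac f) : ℝ) ≠ 0
      rw [hfa, hπ, Int.cast_one]
      exact one_ne_zero
  · rw [one_mul, zero_mul, add_zero]

end Pool.Agent.CZW
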