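import Pool.Agent.Lib.MP_305fdd_al.CZ.W.Stm

/-!
# MP_305fdd_al, `C_m * Z`, section W: piece bas (basic facts)
-/

set_option autoImplicit false

namespace Pool.Agent.CZW

open Pool.Agent.F2Ch Pool.Agent.F2RF Pool.Agent.F2W Pool.Agent.F2PF Pool.Agent.CZ
open Pool.Agent.F2L (FPl)

private lemma bas_cs_rr {k : Type} [Field k] (z : kˣ) (n : ℤ) (hn : n ≠ 0) : cs (rr z n) = 0 := by
  unfold cs rr
  rw [AddMonoidAlgebra.coeff_add, AddMonoidAlgebra.coeff_single, AddMonoidAlgebra.coeff_single,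
    Finsupp.add_apply, Finsupp.single_eq_of_ne (by omega), Finsupp.single_eq_of_ne (by omega),
    add_zero]

private lemma bas_cs_sq {k : Type} [Field k] (z : kˣ) (n : ℤ) (hn : n ≠ 0) :
    cs (rr z n * rr z n) = 2 := by
  unfold cs rr
  rw [add_mul, mul_add, mul_add, AddMonoidAlgebra.single_mul_single,
    AddMonoidAlgebra.single_mul_single, AddMonoidAlgebra.single_mul_single,
    AddMonoidAlgebra.single_mul_single]
  simp only [AddMonoidAlgebra.coeff_add, AddMonoidAlgebra.coeff_single, Finsupp.add_apply]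
  rw [Finsupp.single_eq_of_ne (by omega), Finsupp.single_eq_of_ne (a := -n + -n) (by omega)]
  have e1 : n + -n = 0 := by omega
  have e2 : -n + n = 0 := by omega
  rw [e1, e2, Finsupp.single_eq_same, Finsupp.single_eq_same]
  have e3 : ((z⁻¹ : kˣ) : k) * (z : k) = 1 := by rw [← Units.val_mul, inv_mul_cancel, Units.val_one]
  have e4 : (z : k) * ((z⁻¹ : kˣ) : k) = 1 := by rw [← Units.val_mul, mul_inv_cancel, Units.val_one]
  rw [e3, e4]
  norm_num

private lemma bas_rr_zero {k : Type} [Field k] (z : kˣ) :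
    rr z 0 = algebraMap k (Ls k) ((z : k) + ((z⁻¹ : kˣ) : k)) := by
  unfold rr
  ext a
  by_cases ha : a = 0
  · subst ha
    simp [add_comm]
  · simp [ha]

theorem p_bas {p m : ℕ} [Fact p.Prime] {k K G : Type} [Field k] [CharP k p] [IsAlgClosed k]
    [Field K] [Algebra k K] [Group G] (C : Core p m k K G) : S_bas C := by
  have hI : ∀ f : C.B, (f : K) ∈ C.I ↔ (f : K) ≠ 0 ∧ C.res f = 0 := by
    intro f
    constructor
    · rintro ⟨h1, h, h2⟩
      exact ⟨h1, h2⟩
    · rintro ⟨h1, h2⟩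
      exact ⟨h1, f.2, h2⟩
  have h20 : (2 : k) ≠ 0 := by
    intro h
    have h1 : ((2 : ℕ) : k) = 0 := by exact_mod_cast h
    rw [CharP.cast_eq_zero_iff k p] at h1
    have h2 := (Nat.prime_dvd_prime_iff_eq (Fact.out : p.Prime) Nat.prime_two).1 h1
    exact C.odd h2
  have hT : ∀ l, C.ν l ≠ 1 → cs (C.res (C.TB l)) = 0 ∧ cs (C.res (C.TB l * C.TB l)) = 2 := by
    intro l hl
    have hn : Multiplicative.toAdd (C.ν l) ≠ 0 := by
      intro h
      exact hl (toAdd_eq_zero.1 h)
    have e : C.res (C.TB l) = rr (C.χ l) (Multiplicative.toAdd (C.ν l)) := C.res_T l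
    refine ⟨?_, ?_⟩
    · rw [e]
      exact bas_cs_rr _ _ hn
    · rw [map_mul, e]
      exact bas_cs_sq _ _ hn
  have hφ0 : C.φ 0 = 0 := by
    have h := C.pinv.add 0 0
    rw [add_zero] at h
    exact (add_eq_left.1 h.symm)
  have htau : ∀ (Γ : Type) [AddCommGroup Γ] [LinearOrder Γ] [IsOrderedAddMonoid Γ] (V : K → Γ),
      InZ k p C.φ V → ∀ f : C.B, Gt V 0 (f : K) → cs (C.res f) = 0 := by
    intro Γ _ _ _ V hV f hf
    have hstep : ∀ x : K, Gt V 0 x → Gt V 0 (C.φ x) := by
      intro x hx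
      by_cases h0 : C.φ x = 0
      · exact Or.inl h0
      · right
        rcases hx with hx | hx
        · exact absurd (by rw [hx, hφ0]) h0
        · have h1 := hV.compat x h0
          by_contra hcon
          have h2 : p • V (C.φ x) ≤ 0 := nsmul_nonpos (not_lt.1 hcon) p
          exact absurd (h1.trans h2) (not_le.2 hx)
    have hit : ∀ N : ℕ, Gt V 0 (C.φ^[N] (f : K)) := by
      intro N
      induction N with
      | zero => exact hf
      | succ N ih =>
        rw [Function.iterate_succ_apply']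
        exact hstep _ ih
    obtain ⟨N0, hN0⟩ := C.tau f
    have h1 := hit N0
    rw [hN0 N0 le_rfl] at h1
    have h2 : (F2.rt p k)^[N0] (cs (C.res f)) = 0 := by
      rcases h1 with h1 | h1
      · exact (map_eq_zero_iff _ (algebraMap k K).injective).1 h1
      · rw [hV.triv] at h1
        exact absurd h1 (lt_irrefl 0)
    have hinj : Function.Injective (F2.rt p k) := (frobeniusEquiv k p).symm.injective
    have h3 : (F2.rt p k)^[N0] 0 = 0 := by
      apply Function.iterate_fixed
      exact map_zero _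
    exact (hinj.iterate N0) (h2.trans h3.symm)
  refine ⟨⟨⟨1, map_one _⟩, ?_, ?_⟩, ?_, htau, ?_, ?_, hT, hI⟩
  · rintro _ ⟨a, rfl⟩ _ ⟨b, rfl⟩
    exact ⟨a * b, map_mul _ _ _⟩
  · intro x
    obtain ⟨a, b, hb, e⟩ := C.fracgen x
    exact ⟨_, ⟨a, rfl⟩, _, ⟨b, rfl⟩, hb, e⟩
  · intro f
    exact (C.mem_B f).symm
  · intro Γ _ _ _ V hV l hl
    obtain ⟨-, h2⟩ := hT l hl
    have hne : C.T l ≠ 0 := by
      intro h
      have h3 : C.TB l = 0 := Subtype.ext h
      rw [h3, mul_zero, map_zero] at h2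
      exact h20 h2.symm
    refine ⟨hne, ?_⟩
    by_contra hcon
    have h3 : 0 < V (C.T l) := not_le.1 hcon
    have h4 : Gt V 0 (((C.TB l * C.TB l : C.B)) : K) := by
      right
      show 0 < V (C.T l * C.T l)
      rw [hV.isv.mul _ _ hne hne]
      exact add_pos h3 h3
    rw [htau Γ V hV _ h4] at h2
    exact h20 h2.symm
  · intro l hl
    have e1 : C.res (C.TB l) = algebraMap k (Ls k) ((C.χ l : k) + (((C.χ l)⁻¹ : kˣ) : k)) := by
      have h : C.res (C.TB l) = rr (C.χ l) (Multiplicative.toAdd (C.ν l)) := C.res_T l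
      rw [h, hl, toAdd_one, bas_rr_zero]
    by_cases h0 : C.T l - ez C l = 0
    · left
      exact sub_eq_zero.1 h0
    · right
      have e2 : ((C.TB l - algebraMap k C.B ((C.χ l : k) + (((C.χ l)⁻¹ : kˣ) : k)) : C.B) : K) =
          C.T l - ez C l := by
        unfold ez
        rw [← map_add]
        rfl
      rw [← e2, hI]
      refine ⟨by rw [e2]; exact h0, ?_⟩
      rw [map_sub, e1, AlgHom.commutes, sub_self]

end Pool.Agent.CZW
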