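import Pool.Agent.Lib.MP_305fdd_al.CZ.W.Stm

/-!
# MP_305fdd_al, `C_m * Z`, piece [CZW dv]: pole type or `b_0` type
-/

set_option autoImplicit false

namespace Pool.Agent.CZW

open Pool.Agent.F2Ch Pool.Agent.F2RF Pool.Agent.F2W Pool.Agent.F2PF Pool.Agent.CZ
open Pool.Agent.F2L (FPl)

private theorem dv_smul_fst (m : ℤ) (a : ℝ ×ₗ ℝ) : (ofLex (m • a)).1 = m * (ofLex a).1 := by
  have : ofLex (m • a) = m • ofLex a := rfl
  rw [this, Prod.smul_fst, zsmul_eq_mul]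

private theorem dv_smul_snd (m : ℤ) (a : ℝ ×ₗ ℝ) : (ofLex (m • a)).2 = m * (ofLex a).2 := by
  have : ofLex (m • a) = m • ofLex a := rfl
  rw [this, Prod.smul_snd, zsmul_eq_mul]

theorem p_dv {p m : ℕ} [Fact p.Prime] {k K G : Type} [Field k] [CharP k p] [IsAlgClosed k]
    [Field K] [Algebra k K] [Group G] (C : Core p m k K G) (hld : S_ld C) (hrr : S_rr C)
    (hrk : S_rk C) : S_dv C := by
  intro w _ hInf V hV
  obtain ⟨f0, hf0B, hf0, hf0w⟩ := hInf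
  have hne : ∃ f, w f ≠ 0 := ⟨f0, hf0w.ne⟩
  have hTwo : Two V := hrr.2.2.2.2.1 w V hne hV
  obtain ⟨-, x, ex, hvb⟩ := hrk (ℝ ×ₗ ℝ) V hV.inz hTwo
  obtain ⟨u, hu0, hu⟩ := hld (ℝ ×ₗ ℝ) V x ex hV.inz hvb
  obtain ⟨a0, ha0⟩ : ∃ a, a = w (x 0) := ⟨_, rfl⟩
  obtain ⟨a1, ha1⟩ : ∃ a, a = w (x 1) := ⟨_, rfl⟩
  obtain ⟨c0, hc0⟩ : ∃ a, a = c2 V (x 0) := ⟨_, rfl⟩
  obtain ⟨c1, hc1⟩ : ∃ a, a = c2 V (x 1) := ⟨_, rfl⟩
  have hgen : ∀ f, f ≠ 0 → w f = (ex f 0 : ℝ) * a0 + (ex f 1 : ℝ) * a1 ∧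
      c2 V f = (ex f 0 : ℝ) * c0 + (ex f 1 : ℝ) * c1 := by
    intro f hf
    have h := hvb.gen f hf
    unfold wt at h
    rw [Fin.sum_univ_two] at h
    constructor
    · have h1 := congrArg (fun a : ℝ ×ₗ ℝ => (ofLex a).1) h
      simp only [ofLex_add, Prod.fst_add, dv_smul_fst, hV.fst] at h1
      rw [h1, ha0, ha1]
    · have h1 := congrArg (fun a : ℝ ×ₗ ℝ => (ofLex a).2) h
      simp only [ofLex_add, Prod.snd_add, dv_smul_snd] at h1
      rw [hc0, hc1]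
      exact h1
  have hD : a0 * c1 - a1 * c0 ≠ 0 := by
    intro hD
    obtain ⟨f, hf, hwf, hcf⟩ := hV.nt
    rw [(hgen f hf).1] at hwf
    rw [(hgen f hf).2] at hcf
    have h0 : a0 * ((ex f 0 : ℝ) * c0 + (ex f 1 : ℝ) * c1) = 0 := by
      linear_combination c0 * hwf + (ex f 1 : ℝ) * hD
    have h1 : a1 * ((ex f 0 : ℝ) * c0 + (ex f 1 : ℝ) * c1) = 0 := by
      linear_combination c1 * hwf - (ex f 0 : ℝ) * hD
    have h2 := (mul_eq_zero.mp h0).resolve_right hcf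
    have h3 := (mul_eq_zero.mp h1).resolve_right hcf
    have h4 := (hgen f0 hf0).1
    rw [h2, h3] at h4
    rw [h4] at hf0w
    simp at hf0w
  obtain ⟨D, hDD⟩ : ∃ D, D = a0 * c1 - a1 * c0 := ⟨_, rfl⟩
  rw [← hDD] at hD
  obtain ⟨α, hα⟩ : ∃ α, α = (u.1 * c1 - u.2 * c0) / D := ⟨_, rfl⟩
  obtain ⟨β, hβ⟩ : ∃ β, β = (a0 * u.2 - a1 * u.1) / D := ⟨_, rfl⟩
  have hα' : α * D = u.1 * c1 - u.2 * c0 := by rw [hα]; exact div_mul_cancel₀ _ hD
  have hβ' : β * D = a0 * u.2 - a1 * u.1 := by rw [hβ]; exact div_mul_cancel₀ _ hD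
  have e0 : α * a0 + β * c0 = u.1 := by
    apply mul_right_cancel₀ hD
    linear_combination a0 * hα' + c0 * hβ' - u.1 * hDD
  have e1 : α * a1 + β * c1 = u.2 := by
    apply mul_right_cancel₀ hD
    linear_combination a1 * hα' + c1 * hβ' - u.2 * hDD
  have key : ∀ f ∈ Br k C.t, f ≠ 0 → α * w f + β * c2 V f ≤ 0 := by
    intro f hf hf0
    have h := hu f hf hf0
    rw [(hgen f hf0).1, (hgen f hf0).2]
    have h1 : α * ((ex f 0 : ℝ) * a0 + (ex f 1 : ℝ) * a1) +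
        β * ((ex f 0 : ℝ) * c0 + (ex f 1 : ℝ) * c1) =
        u.1 * (ex f 0 : ℝ) + u.2 * (ex f 1 : ℝ) := by
      rw [← e0, ← e1]; ring
    rw [h1]
    exact h
  rcases lt_trichotomy β 0 with hb | hb | hb
  · -- `b_0` type
    right; right
    refine ⟨α / (-β), fun f hf hf0 => ?_⟩
    have h1 := key f hf hf0
    change α / (-β) * w f + -1 * c2 V f ≤ 0
    have h2 : α / (-β) * w f + -1 * c2 V f = (α * w f + β * c2 V f) / (-β) := by
      have h3 : β ≠ 0 := hb.ne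
      field_simp
      ring
    rw [h2]
    exact div_nonpos_of_nonpos_of_nonneg h1 (by linarith)
  · -- semi-good
    left
    have hα0 : α ≠ 0 := by
      intro h
      rw [h, hb] at e0 e1
      apply hu0
      exact Prod.ext (by rw [← e0]; simp) (by rw [← e1]; simp)
    rcases lt_or_gt_of_ne hα0 with h1 | h1
    · exfalso
      have h2 := key f0 hf0B hf0
      rw [hb, zero_mul, add_zero] at h2
      nlinarith
    · intro f hf hf0
      have h2 := key f hf hf0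
      rw [hb, zero_mul, add_zero] at h2
      by_contra h4
      push Not at h4
      nlinarith
  · -- pole type
    right; left
    refine ⟨α / β, fun f hf hf0 => ?_⟩
    have h1 := key f hf hf0
    change α / β * w f + 1 * c2 V f ≤ 0
    have h2 : α / β * w f + 1 * c2 V f = (α * w f + β * c2 V f) / β := by
      have h3 : β ≠ 0 := hb.ne'
      field_simp
    rw [h2]
    exact div_nonpos_of_nonpos_of_nonneg h1 hb.le

end Pool.Agent.CZW
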