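import Pool.Agent.Lib.MP_305fdd_al.CZ.W.Stm

set_option autoImplicit false

namespace Pool.Agent.CZW

open Pool.Agent.F2Ch Pool.Agent.F2RF Pool.Agent.F2W Pool.Agent.F2PF Pool.Agent.CZ
open Pool.Agent.F2L (FPl)

/-- `m` is the least exponent of `a` -/
def fr0_Lo {k : Type} [Field k] (a : Ls k) (m : ℤ) : Prop :=
  a.coeff m ≠ 0 ∧ ∀ n, n < m → a.coeff n = 0

theorem fr0_Lo_ex {k : Type} [Field k] (a : Ls k) (ha : a ≠ 0) : ∃ m, fr0_Lo a m := by
  have hs : a.coeff.support.Nonempty := by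
    rw [Finsupp.support_nonempty_iff]
    exact fun h => ha (AddMonoidAlgebra.coeff_eq_zero.mp h)
  refine ⟨a.coeff.support.min' hs, Finsupp.mem_support_iff.mp (Finset.min'_mem _ hs), ?_⟩
  intro n hn
  by_contra h
  exact absurd (Finset.min'_le _ n (Finsupp.mem_support_iff.mpr h)) (not_le.mpr hn)

theorem fr0_Lo_uniq {k : Type} [Field k] {a : Ls k} {m n : ℤ} (h : fr0_Lo a m)
    (h' : fr0_Lo a n) : m = n := by
  rcases lt_trichotomy m n with h1 | h1 | h1
  · exact absurd (h'.2 m h1) h.1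
  · exact h1
  · exact absurd (h.2 n h1) h'.1

theorem fr0_Lo_ne {k : Type} [Field k] {a : Ls k} {m : ℤ} (h : fr0_Lo a m) : a ≠ 0 := by
  rintro rfl
  exact h.1 rfl

theorem fr0_Lo_mul {k : Type} [Field k] {a b : Ls k} {m n : ℤ} (h : fr0_Lo a m)
    (h' : fr0_Lo b n) : fr0_Lo (a * b) (m + n) := by
  classical
  constructor
  · rw [AddMonoidAlgebra.coeff_mul_apply_left, Finsupp.sum, Finset.sum_eq_single m]
    · have : -m + (m + n) = n := by ring
      rw [this]
      exact mul_ne_zero h.1 h'.1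
    · intro i hi hne
      have h1 : m ≤ i := by
        by_contra h2
        exact Finsupp.mem_support_iff.mp hi (h.2 i (not_le.mp h2))
      have h2 : b.coeff (-i + (m + n)) = 0 := h'.2 _ (by
        have : m < i := lt_of_le_of_ne h1 (Ne.symm hne)
        omega)
      rw [h2, mul_zero]
    · intro hm
      rw [Finsupp.notMem_support_iff.mp hm, zero_mul]
  · intro N hN
    rw [AddMonoidAlgebra.coeff_mul_apply_left, Finsupp.sum]
    apply Finset.sum_eq_zero
    intro i hi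
    have h1 : m ≤ i := by
      by_contra h2
      exact Finsupp.mem_support_iff.mp hi (h.2 i (not_le.mp h2))
    rw [h'.2 _ (by omega), mul_zero]

open Classical in
/-- the least exponent -/
noncomputable def fr0_o {k : Type} [Field k] (a : Ls k) : ℤ :=
  if h : ∃ m, fr0_Lo a m then Classical.choose h else 0

theorem fr0_o_eq {k : Type} [Field k] {a : Ls k} {m : ℤ} (h : fr0_Lo a m) : fr0_o a = m := by
  unfold fr0_o
  have h' : ∃ m, fr0_Lo a m := ⟨m, h⟩
  rw [dif_pos h']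
  exact fr0_Lo_uniq (Classical.choose_spec h') h

theorem fr0_o_spec {k : Type} [Field k] {a : Ls k} (ha : a ≠ 0) : fr0_Lo a (fr0_o a) := by
  obtain ⟨m, hm⟩ := fr0_Lo_ex a ha
  rw [fr0_o_eq hm]; exact hm

theorem fr0_mul_ne {k : Type} [Field k] {a b : Ls k} (ha : a ≠ 0) (hb : b ≠ 0) : a * b ≠ 0 :=
  fr0_Lo_ne (fr0_Lo_mul (fr0_o_spec ha) (fr0_o_spec hb))

theorem fr0_o_mul {k : Type} [Field k] {a b : Ls k} (ha : a ≠ 0) (hb : b ≠ 0) :
    fr0_o (a * b) = fr0_o a + fr0_o b :=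
  fr0_o_eq (fr0_Lo_mul (fr0_o_spec ha) (fr0_o_spec hb))

theorem fr0_o_add {k : Type} [Field k] {a b : Ls k} (ha : a ≠ 0) (hb : b ≠ 0)
    (hab : a + b ≠ 0) : min (fr0_o a) (fr0_o b) ≤ fr0_o (a + b) := by
  by_contra hcon
  push Not at hcon
  rw [lt_min_iff] at hcon
  have h := (fr0_o_spec hab).1
  rw [AddMonoidAlgebra.coeff_add, Finsupp.add_apply, (fr0_o_spec ha).2 _ hcon.1,
    (fr0_o_spec hb).2 _ hcon.2, add_zero] at h
  exact h rfl

theorem fr0_o_single {k : Type} [Field k] (m : ℤ) {c : k} (hc : c ≠ 0) :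
    fr0_o (AddMonoidAlgebra.single m c : Ls k) = m := by
  apply fr0_o_eq
  constructor
  · rw [AddMonoidAlgebra.coeff_single]; simpa using hc
  · intro n hn
    rw [AddMonoidAlgebra.coeff_single, Finsupp.single_apply, if_neg (by omega)]

theorem fr0_single_ne {k : Type} [Field k] (m : ℤ) {c : k} (hc : c ≠ 0) :
    (AddMonoidAlgebra.single m c : Ls k) ≠ 0 := by
  apply fr0_Lo_ne (m := m)
  constructor
  · rw [AddMonoidAlgebra.coeff_single]; simpa using hc
  · intro n hn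
    rw [AddMonoidAlgebra.coeff_single, Finsupp.single_apply, if_neg (by omega)]


section

variable {p m : ℕ} [Fact p.Prime] {k K G : Type} [Field k] [CharP k p] [IsAlgClosed k]
  [Field K] [Algebra k K] [Group G] (C : Core p m k K G)

theorem fr0_nsmul (n : ℕ) (a b : ℝ) :
    n • (toLex (a, b) : ℝ ×ₗ ℝ) = toLex ((n : ℝ) * a, (n : ℝ) * b) := by
  induction n with
  | zero =>
    rw [zero_nsmul, Nat.cast_zero, zero_mul, zero_mul]
    rfl
  | succ n ih =>
    rw [succ_nsmul, ih, ← toLex_add]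
    push_cast
    congr 1
    ext
    · show (n : ℝ) * a + a = ((n : ℝ) + 1) * a
      ring
    · show (n : ℝ) * b + b = ((n : ℝ) + 1) * b
      ring

/-- `f = κ0 ^ n a / b`, `z` the difference of the least exponents -/
def fr0_Rep (f : K) (n z : ℤ) : Prop := ∃ a b : C.B, C.res a ≠ 0 ∧ C.res b ≠ 0 ∧
  f * (b : K) = (C.κ0 : K) ^ n * (a : K) ∧ z = fr0_o (C.res a) - fr0_o (C.res b)

theorem fr0_ne_of_res {a : C.B} (ha : C.res a ≠ 0) : (a : K) ≠ 0 := by
  intro h
  apply ha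
  have : a = 0 := Subtype.ext h
  rw [this, map_zero]

theorem fr0_Rep_ne {f : K} {n z : ℤ} (h : fr0_Rep C f n z) : f ≠ 0 := by
  obtain ⟨a, b, ha, hb, he, -⟩ := h
  rintro rfl
  rw [zero_mul] at he
  exact mul_ne_zero (zpow_ne_zero n C.κ0_ne) (fr0_ne_of_res C ha) he.symm

theorem fr0_Rep_R {f : K} {n z : ℤ} (h : fr0_Rep C f n z) : C.R f = n := by
  obtain ⟨a, b, ha, hb, he, -⟩ := h
  exact C.R_eq f n a b ha hb he

theorem fr0_Rep_uniq {f : K} {n z n' z' : ℤ} (h : fr0_Rep C f n z) (h' : fr0_Rep C f n' z') :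
    z = z' := by
  have hn : n = n' := (fr0_Rep_R C h).symm.trans (fr0_Rep_R C h')
  subst hn
  have hf := fr0_Rep_ne C h
  obtain ⟨a, b, ha, hb, he, hz⟩ := h
  obtain ⟨a', b', ha', hb', he', hz'⟩ := h'
  have hk : (C.κ0 : K) ^ n ≠ 0 := zpow_ne_zero n C.κ0_ne
  have h1 : a * b' = a' * b := by
    apply Subtype.ext
    show (a : K) * b' = a' * b
    apply mul_left_cancel₀ hk
    calc (C.κ0 : K) ^ n * ((a : K) * b') = (f * b) * b' := by rw [he]; ring
      _ = (f * b') * b := by ring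
      _ = _ := by rw [he']; ring
  have h2 : C.res a * C.res b' = C.res a' * C.res b := by rw [← map_mul, h1, map_mul]
  have h3 := congrArg fr0_o h2
  rw [fr0_o_mul ha hb', fr0_o_mul ha' hb] at h3
  omega

theorem fr0_Rep_ex {f : K} (hf : f ≠ 0) : ∃ z, fr0_Rep C f (C.R f) z := by
  obtain ⟨n, a, b, ha, hb, he⟩ := C.hord f hf
  have h : fr0_Rep C f n (fr0_o (C.res a) - fr0_o (C.res b)) := ⟨a, b, ha, hb, he, rfl⟩
  exact ⟨_, by rw [fr0_Rep_R C h]; exact h⟩

open Classical in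
/-- the second component -/
noncomputable def fr0_z (f : K) : ℤ :=
  if h : f = 0 then 0 else Classical.choose (fr0_Rep_ex C h)

theorem fr0_z_spec {f : K} (hf : f ≠ 0) : fr0_Rep C f (C.R f) (fr0_z C f) := by
  unfold fr0_z
  rw [dif_neg hf]
  exact Classical.choose_spec (fr0_Rep_ex C hf)

theorem fr0_z_eq {f : K} {n z : ℤ} (h : fr0_Rep C f n z) : fr0_z C f = z :=
  fr0_Rep_uniq C (fr0_z_spec C (fr0_Rep_ne C h)) h

theorem fr0_z_mem {f : C.B} (hf : C.res f ≠ 0) : fr0_z C (f : K) = fr0_o (C.res f) := by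
  have h : fr0_Rep C (f : K) 0 (fr0_o (C.res f) - fr0_o (C.res 1)) :=
    ⟨f, 1, hf, by rw [map_one]; exact one_ne_zero, by simp, rfl⟩
  have h1 : fr0_o (C.res 1) = 0 := by
    rw [map_one]
    exact fr0_o_single 0 one_ne_zero
  rw [fr0_z_eq C h, h1, sub_zero]

theorem fr0_R_mem {f : C.B} (hf : C.res f ≠ 0) : C.R (f : K) = 0 := by
  have h1 := C.R_nn f
  have h2 := C.R_pos f (fr0_ne_of_res C hf)
  rcases lt_or_eq_of_le h1 with h3 | h3
  · exact absurd (h2.mp h3) hf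
  · exact h3.symm

/-- the valuation -/
noncomputable def fr0_V (f : K) : ℝ ×ₗ ℝ := toLex (C.RR f, (fr0_z C f : ℝ))

theorem fr0_V_zero : fr0_V C 0 = 0 := by
  unfold fr0_V fr0_z Core.RR
  rw [dif_pos rfl, C.R_inz.isv.zero]
  simp

theorem fr0_z_mul {f g : K} (hf : f ≠ 0) (hg : g ≠ 0) : fr0_z C (f * g) = fr0_z C f + fr0_z C g := by
  obtain ⟨a, b, ha, hb, he, hz⟩ := fr0_z_spec C hf
  obtain ⟨a', b', ha', hb', he', hz'⟩ := fr0_z_spec C hg
  apply fr0_z_eq C (n := C.R f + C.R g)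
  refine ⟨a * a', b * b', ?_, ?_, ?_, ?_⟩
  · rw [map_mul]; exact fr0_mul_ne ha ha'
  · rw [map_mul]; exact fr0_mul_ne hb hb'
  · show f * g * ((b : K) * b') = (C.κ0 : K) ^ (C.R f + C.R g) * ((a : K) * a')
    rw [zpow_add₀ C.κ0_ne]
    calc f * g * ((b : K) * b') = (f * b) * (g * b') := by ring
      _ = _ := by rw [he, he']; ring
  · rw [map_mul, map_mul, fr0_o_mul ha ha', fr0_o_mul hb hb', hz, hz']; ring

theorem fr0_V_mul {f g : K} (hf : f ≠ 0) (hg : g ≠ 0) : fr0_V C (f * g) = fr0_V C f + fr0_V C g := by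
  unfold fr0_V Core.RR
  rw [fr0_z_mul C hf hg, C.R_inz.isv.mul f g hf hg, ← toLex_add]
  push_cast
  rfl

theorem fr0_lt1 {f g : K} (h : C.R f < C.R g) : fr0_V C f < fr0_V C g := by
  unfold fr0_V Core.RR
  rw [Prod.Lex.toLex_lt_toLex]
  left
  show ((C.R f : ℤ) : ℝ) < ((C.R g : ℤ) : ℝ)
  exact_mod_cast h

theorem fr0_le2 {f g : K} (h : C.R f = C.R g) (h' : fr0_z C f ≤ fr0_z C g) :
    fr0_V C f ≤ fr0_V C g := by
  unfold fr0_V Core.RR
  rw [Prod.Lex.toLex_le_toLex]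
  right
  refine ⟨by rw [h], ?_⟩
  show ((fr0_z C f : ℤ) : ℝ) ≤ ((fr0_z C g : ℤ) : ℝ)
  exact_mod_cast h'

theorem fr0_add1 {f g : K} (hf : f ≠ 0) (hg : g ≠ 0) (hfg : f + g ≠ 0) (h : C.R f ≤ C.R g) :
    min (fr0_V C f) (fr0_V C g) ≤ fr0_V C (f + g) := by
  obtain ⟨a, b, ha, hb, he, hz⟩ := fr0_z_spec C hf
  obtain ⟨a', b', ha', hb', he', hz'⟩ := fr0_z_spec C hg
  obtain ⟨j, hj⟩ := Int.eq_ofNat_of_zero_le (sub_nonneg.mpr h)
  have hj' : C.R g = C.R f + j := by omega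
  set d : C.B := a * b' + C.κ0 ^ j * (a' * b) with hd
  have hdK : (d : K) = (a : K) * b' + (C.κ0 : K) ^ j * ((a' : K) * b) := by
    rw [hd]; simp
  have key : (f + g) * ((b : K) * b') = (C.κ0 : K) ^ (C.R f) * (d : K) := by
    rw [hdK]
    rw [hj', zpow_add₀ C.κ0_ne, zpow_natCast] at he'
    calc (f + g) * ((b : K) * b') = (f * b) * b' + (g * b') * b := by ring
      _ = _ := by rw [he, he']; ring
  have hbb : C.res (b * b') ≠ 0 := by rw [map_mul]; exact fr0_mul_ne hb hb'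
  have hobb : fr0_o (C.res (b * b')) = fr0_o (C.res b) + fr0_o (C.res b') := by
    rw [map_mul, fr0_o_mul hb hb']
  by_cases hd0 : C.res d = 0
  · have hdne : (d : K) ≠ 0 := by
      intro h0
      rw [h0, mul_zero] at key
      exact mul_ne_zero hfg (mul_ne_zero (fr0_ne_of_res C hb) (fr0_ne_of_res C hb')) key
    have h1 : 0 < C.R (d : K) := (C.R_pos d hdne).mpr hd0
    have h2 := congrArg C.R key
    rw [C.R_inz.isv.mul _ _ hfg (mul_ne_zero (fr0_ne_of_res C hb) (fr0_ne_of_res C hb')),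
      C.R_inz.isv.mul _ _ (fr0_ne_of_res C hb) (fr0_ne_of_res C hb'), fr0_R_mem C hb,
      fr0_R_mem C hb', C.R_inz.isv.mul _ _ (zpow_ne_zero _ C.κ0_ne) hdne] at h2
    have h3 : C.R ((C.κ0 : K) ^ (C.R f)) = C.R f :=
      C.R_eq _ _ 1 1 (by rw [map_one]; exact one_ne_zero) (by rw [map_one]; exact one_ne_zero)
        rfl
    rw [h3] at h2
    exact (min_le_left _ _).trans (fr0_lt1 C (by omega)).le
  · have hrep : fr0_Rep C (f + g) (C.R f) (fr0_o (C.res d) - fr0_o (C.res (b * b'))) :=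
      ⟨d, b * b', hd0, hbb, key, rfl⟩
    have hR := fr0_Rep_R C hrep
    have hZ := fr0_z_eq C hrep
    have hresd : C.res d = C.res a * C.res b' + C.res C.κ0 ^ j * (C.res a' * C.res b) := by
      rw [hd]; simp
    rcases Nat.eq_zero_or_pos j with h0 | h0
    · subst h0
      rw [pow_zero, one_mul] at hresd
      have h4 := fr0_o_add (fr0_mul_ne ha hb') (fr0_mul_ne ha' hb) (by rw [← hresd]; exact hd0)
      rw [fr0_o_mul ha hb', fr0_o_mul ha' hb, ← hresd] at h4
      have hRg : C.R f = C.R g := by rw [hj']; simp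
      rcases le_total (fr0_z C f) (fr0_z C g) with h5 | h5
      · refine (min_le_left _ _).trans (fr0_le2 C hR.symm ?_)
        rw [hZ, hobb]
        have : fr0_o (C.res a) + fr0_o (C.res b') ≤ fr0_o (C.res d) := by
          refine le_trans (le_min le_rfl ?_) h4
          omega
        omega
      · refine (min_le_right _ _).trans (fr0_le2 C (hRg.symm.trans hR.symm) ?_)
        rw [hZ, hobb]
        have : fr0_o (C.res a') + fr0_o (C.res b) ≤ fr0_o (C.res d) := by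
          refine le_trans (le_min ?_ le_rfl) h4
          omega
        omega
    · rw [C.κ0_res, zero_pow (by omega), zero_mul, add_zero] at hresd
      refine (min_le_left _ _).trans (fr0_le2 C hR.symm ?_)
      rw [hZ, hobb, hresd, fr0_o_mul ha hb']
      omega

theorem fr0_isV : IsV (fr0_V C) where
  zero := fr0_V_zero C
  mul := fun _ _ hf hg => fr0_V_mul C hf hg
  add := by
    intro f g hf hg hfg
    rcases le_total (C.R f) (C.R g) with h | h
    · exact fr0_add1 C hf hg hfg h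
    · rw [min_comm, add_comm]
      exact fr0_add1 C hg hf (by rw [add_comm]; exact hfg) h

theorem fr0_triv : Triv k (fr0_V C) := by
  intro c
  by_cases hc : c = 0
  · rw [hc, map_zero]; exact fr0_V_zero C
  · have h1 : C.res (algebraMap k C.B c) = AddMonoidAlgebra.single 0 c := by
      rw [AlgHom.commutes]; rfl
    have h2 : C.res (algebraMap k C.B c) ≠ 0 := by rw [h1]; exact fr0_single_ne 0 hc
    have h3 := fr0_z_mem C h2
    rw [h1, fr0_o_single 0 hc] at h3
    have h4 := fr0_R_mem C h2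
    have h5 : ((algebraMap k C.B c : C.B) : K) = algebraMap k K c := rfl
    rw [h5] at h3 h4
    unfold fr0_V Core.RR
    rw [h3, h4]
    simp

theorem fr0_pow {f : K} (hf : f ≠ 0) (n : ℕ) : fr0_V C (f ^ n) = n • fr0_V C f := by
  induction n with
  | zero =>
    have h := fr0_triv C 1
    rw [map_one] at h
    rw [pow_zero, zero_smul, h]
  | succ n ih => rw [pow_succ, fr0_V_mul C (pow_ne_zero n hf) hf, ih, succ_nsmul]

/-- the case `R f = 0 = R (φ f)` -/
theorem fr0_comp0 {f : K} (hf : C.φ f ≠ 0) (h0 : C.R f = 0) (h1 : C.R (C.φ f) = 0) :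
    fr0_V C f ≤ p • fr0_V C (C.φ f) := by
  have hp : 0 < p := (Fact.out : p.Prime).pos
  have hφ0 : C.φ 0 = 0 := by
    have := C.pinv.add 0 0
    rw [add_zero] at this
    exact left_eq_add.mp this
  have hfne : f ≠ 0 := by
    rintro rfl
    exact hf hφ0
  obtain ⟨a, b, ha, hb, he, -⟩ := fr0_z_spec C hfne
  rw [h0, zpow_zero, one_mul] at he
  have hbK := fr0_ne_of_res C hb
  set h : C.B := a * b ^ (p - 1) with hh
  have hhK : (h : K) = (b : K) ^ p * f := by
    rw [hh]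
    show (a : K) * (b : K) ^ (p - 1) = _
    rw [← he]
    have : p = (p - 1) + 1 := by omega
    calc f * (b : K) * (b : K) ^ (p - 1) = ((b : K) ^ (p - 1) * b) * f := by ring
      _ = _ := by rw [← pow_succ, ← this]
  have hresh : C.res h ≠ 0 := by
    rw [hh, map_mul, map_pow]
    refine fr0_mul_ne ha ?_
    exact pow_ne_zero _ hb
  have hφh : C.φ (h : K) = (b : K) * C.φ f := by rw [hhK, C.pinv.pow_mul]
  have hφhne : C.φ (h : K) ≠ 0 := by rw [hφh]; exact mul_ne_zero hbK hf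
  have hRφh : C.R (C.φ (h : K)) = 0 := by
    rw [hφh, C.R_inz.isv.mul _ _ hbK hf, h1, fr0_R_mem C hb, add_zero]
  obtain ⟨f', hf', hgt⟩ := C.tor h
  -- `res f' ≠ 0`
  have hf'ne : (f' : K) ≠ 0 := by
    intro h2
    rw [h2, sub_zero] at hgt
    rcases hgt with h3 | h3
    · exact hφhne h3
    · omega
  have hresf' : C.res f' ≠ 0 := by
    intro h2
    have h3 : 0 < C.R (f' : K) := (C.R_pos f' hf'ne).mpr h2
    rcases hgt with h4 | h4
    · rw [sub_eq_zero] at h4
      rw [← h4] at h3; omega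
    · by_cases h5 : C.φ (h : K) - f' = 0
      · rw [sub_eq_zero] at h5
        rw [← h5] at h3; omega
      · have h6 := C.R_inz.isv.add _ _ h5 hf'ne (by rw [sub_add_cancel]; exact hφhne)
        rw [sub_add_cancel, hRφh] at h6
        have := lt_min h4 h3
        omega
  -- the inequality for `h`
  have hV1 : fr0_V C (f' : K) ≤ fr0_V C (C.φ (h : K)) := by
    by_cases h5 : C.φ (h : K) - f' = 0
    · rw [sub_eq_zero] at h5
      rw [h5]
    · have h4 : 0 < C.R (C.φ (h : K) - f') := hgt.resolve_left h5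
      have h6 := (fr0_isV C).add _ _ h5 hf'ne (by rw [sub_add_cancel]; exact hφhne)
      rw [sub_add_cancel] at h6
      have h7 : fr0_V C (f' : K) < fr0_V C (C.φ (h : K) - f') :=
        fr0_lt1 C (by rw [fr0_R_mem C hresf']; exact h4)
      rwa [min_eq_right h7.le] at h6
  have ho : fr0_o (C.res h) ≤ p * fr0_o (C.res f') := by
    have h3 := (fr0_o_spec hresf').1
    have h4 : (C.res h).coeff ((p : ℤ) * fr0_o (C.res f')) ≠ 0 := by
      intro h5
      apply h3
      have h6 : (C.res f').coeff (fr0_o (C.res f')) =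
          (ths p k (C.res h)).coeff (fr0_o (C.res f')) := by rw [← hf']
      rw [h6, coeff_ths, h5, map_zero]
    by_contra h5
    push Not at h5
    exact h4 ((fr0_o_spec hresh).2 _ h5)
  have hV2 : fr0_V C (h : K) ≤ p • fr0_V C (f' : K) := by
    unfold fr0_V Core.RR
    rw [fr0_z_mem C hresh, fr0_z_mem C hresf', fr0_R_mem C hresh, fr0_R_mem C hresf',
      fr0_nsmul, Prod.Lex.toLex_le_toLex]
    right
    refine ⟨by simp, ?_⟩
    show ((fr0_o (C.res h) : ℤ) : ℝ) ≤ (p : ℝ) * ((fr0_o (C.res f') : ℤ) : ℝ)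
    exact_mod_cast ho
  have hV3 : fr0_V C (h : K) ≤ p • fr0_V C (C.φ (h : K)) :=
    hV2.trans (nsmul_le_nsmul_right hV1 p)
  rw [hφh, fr0_V_mul C hbK hf, hhK, fr0_V_mul C (pow_ne_zero p hbK) hfne, fr0_pow C hbK,
    nsmul_add] at hV3
  exact le_of_add_le_add_left hV3

theorem fr0_compat : Compat p C.φ (fr0_V C) := by
  intro f hf
  have hφ0 : C.φ 0 = 0 := by
    have := C.pinv.add 0 0
    rw [add_zero] at this
    exact left_eq_add.mp this
  have hfne : f ≠ 0 := by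
    rintro rfl
    exact hf hφ0
  have h1 := C.R_inz.compat f hf
  rcases lt_or_eq_of_le h1 with h2 | h2
  · unfold fr0_V Core.RR
    rw [fr0_nsmul, Prod.Lex.toLex_le_toLex]
    left
    show ((C.R f : ℤ) : ℝ) < (p : ℝ) * ((C.R (C.φ f) : ℤ) : ℝ)
    rw [nsmul_eq_mul] at h2
    exact_mod_cast h2
  · set n : ℤ := C.R (C.φ f) with hn
    have hc : (C.κ0 : K) ^ (-n) ≠ 0 := zpow_ne_zero _ C.κ0_ne
    have hR : ∀ j : ℤ, C.R ((C.κ0 : K) ^ j) = j := fun j =>
      C.R_eq _ _ 1 1 (by rw [map_one]; exact one_ne_zero) (by rw [map_one]; exact one_ne_zero)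
        rfl
    have hφ : C.φ (((C.κ0 : K) ^ (-n)) ^ p * f) = (C.κ0 : K) ^ (-n) * C.φ f := C.pinv.pow_mul _ _
    have h3 := fr0_comp0 C (f := ((C.κ0 : K) ^ (-n)) ^ p * f)
      (by rw [hφ]; exact mul_ne_zero hc hf)
      (by
        rw [C.R_inz.isv.mul _ _ (pow_ne_zero p hc) hfne, ← zpow_natCast, ← zpow_mul, hR, h2,
          nsmul_eq_mul]
        ring)
      (by
        rw [hφ, C.R_inz.isv.mul _ _ hc hf, hR, ← hn]; ring)
    rw [hφ, fr0_V_mul C (pow_ne_zero p hc) hfne, fr0_V_mul C hc hf, fr0_pow C hc, nsmul_add] at h3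
    exact le_of_add_le_add_left h3

theorem p_fR0 (_hbas : S_bas C) : S_fR0 C := by
  have h1 : ∀ f : C.B, ∀ j : ℤ, C.res f = AddMonoidAlgebra.single j 1 →
      (f : K) ≠ 0 ∧ C.RR (f : K) = 0 ∧ fr0_V C f = toLex ((0 : ℝ), (j : ℝ)) := by
    intro f j hf
    have hne : C.res f ≠ 0 := by rw [hf]; exact fr0_single_ne j one_ne_zero
    have h2 : C.RR (f : K) = 0 := by
      unfold Core.RR
      rw [fr0_R_mem C hne, Int.cast_zero]
    refine ⟨fr0_ne_of_res C hne, h2, ?_⟩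
    unfold fr0_V
    rw [h2, fr0_z_mem C hne, hf, fr0_o_single j one_ne_zero]
  refine ⟨fr0_V C, ⟨⟨fr0_isV C, fr0_triv C, fr0_compat C⟩, fun f => rfl, ?_⟩, ?_, ?_⟩
  · obtain ⟨f, hf⟩ := C.res_surj (AddMonoidAlgebra.single 1 1)
    obtain ⟨h2, h3, h4⟩ := h1 f 1 hf
    refine ⟨f, h2, h3, ?_⟩
    unfold c2
    rw [h4]
    show ((1 : ℤ) : ℝ) ≠ 0
    norm_num
  · intro f hf
    rw [(h1 f 1 hf).2.2]
    show toLex ((0 : ℝ), (0 : ℝ)) < _
    rw [Prod.Lex.toLex_lt_toLex]
    right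
    refine ⟨rfl, ?_⟩
    show (0 : ℝ) < ((1 : ℤ) : ℝ)
    norm_num
  · intro f hf
    rw [(h1 f (-1) hf).2.2]
    show _ < toLex ((0 : ℝ), (0 : ℝ))
    rw [Prod.Lex.toLex_lt_toLex]
    right
    refine ⟨rfl, ?_⟩
    show ((-1 : ℤ) : ℝ) < (0 : ℝ)
    norm_num

end

end Pool.Agent.CZW
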