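import Pool.Agent.Lib.MP_305fdd_al.CZ.W.Stm

/-!
# MP_305fdd_al, `C_m * Z`, piece [CZW fR1]: flags at `ord_R`
-/

set_option autoImplicit false

namespace Pool.Agent.CZW

open Pool.Agent.F2Ch Pool.Agent.F2RF Pool.Agent.F2W Pool.Agent.F2PF Pool.Agent.CZ
open Pool.Agent.F2L (FPl)

section val
variable {K Γ : Type} [Field K] [AddCommGroup Γ] [LinearOrder Γ] [IsOrderedAddMonoid Γ]
  {v : K → Γ}

private theorem fr1_one (hv : IsV v) : v 1 = 0 := by
  have h := hv.mul 1 1 one_ne_zero one_ne_zero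
  rw [mul_one] at h
  exact left_eq_add.1 h

private theorem fr1_pow (hv : IsV v) {x : K} (hx : x ≠ 0) (n : ℕ) : v (x ^ n) = n • v x := by
  induction n with
  | zero => rw [pow_zero, zero_smul, fr1_one hv]
  | succ n ih => rw [pow_succ, hv.mul _ _ (pow_ne_zero n hx) hx, ih, succ_nsmul]

private theorem fr1_inv (hv : IsV v) {x : K} (hx : x ≠ 0) : v x⁻¹ = - v x := by
  have h := hv.mul x x⁻¹ hx (inv_ne_zero hx)
  rw [mul_inv_cancel₀ hx, fr1_one hv] at h
  exact (neg_eq_of_add_eq_zero_right h.symm).symm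

private theorem fr1_zpow (hv : IsV v) {x : K} (hx : x ≠ 0) (n : ℤ) : v (x ^ n) = n • v x := by
  rcases n with n | n
  · simp only [Int.ofNat_eq_natCast, zpow_natCast, natCast_zsmul]
    exact fr1_pow hv hx n
  · rw [zpow_negSucc, negSucc_zsmul, fr1_inv hv (pow_ne_zero _ hx), fr1_pow hv hx]

private theorem fr1_neg (hv : IsV v) (x : K) : v (-x) = v x := by
  by_cases hx : x = 0
  · rw [hx, neg_zero]
  have h1 : v (-1) = 0 := by
    have h := hv.mul (-1) (-1) (neg_ne_zero.2 one_ne_zero) (neg_ne_zero.2 one_ne_zero)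
    rw [neg_mul_neg, mul_one, fr1_one hv] at h
    rcases lt_trichotomy (v (-1)) 0 with h1 | h1 | h1
    · exact absurd h.symm (add_neg h1 h1).ne
    · exact h1
    · exact absurd h (add_pos h1 h1).ne
  have h2 := hv.mul (-1) x (neg_ne_zero.2 one_ne_zero) hx
  rw [neg_one_mul, h1, zero_add] at h2
  exact h2

omit [IsOrderedAddMonoid Γ] in
private theorem fr1_ge_add (hv : IsV v) {c : Γ} {x y : K} (hx : Ge v c x) (hy : Ge v c y) :
    Ge v c (x + y) := by
  by_cases h0 : x = 0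
  · rw [h0, zero_add]
    exact hy
  by_cases h1 : y = 0
  · rw [h1, add_zero]
    exact hx
  by_cases h2 : x + y = 0
  · exact Or.inl h2
  have hx' : c ≤ v x := hx.resolve_left h0
  have hy' : c ≤ v y := hy.resolve_left h1
  exact Or.inr (le_trans (le_min hx' hy') (hv.add x y h0 h1 h2))

private theorem fr1_ge_mul (hv : IsV v) {x y : K} (hx : Ge v 0 x) (hy : Ge v 0 y) :
    Ge v 0 (x * y) := by
  by_cases h0 : x = 0
  · exact Or.inl (by rw [h0, zero_mul])
  by_cases h1 : y = 0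
  · exact Or.inl (by rw [h1, mul_zero])
  refine Or.inr ?_
  rw [hv.mul x y h0 h1]
  exact add_nonneg (hx.resolve_left h0) (hy.resolve_left h1)

/-- the strict triangle equality -/
private theorem fr1_add_eq (hv : IsV v) {x y : K} (hx : x ≠ 0) (hy : Gt v (v x) y) :
    x + y ≠ 0 ∧ v (x + y) = v x := by
  by_cases h0 : y = 0
  · rw [h0, add_zero]
    exact ⟨hx, rfl⟩
  have hy' : v x < v y := hy.resolve_left h0
  have h1 : x + y ≠ 0 := by
    intro h
    have h2 : y = -x := (neg_eq_of_add_eq_zero_right h).symm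
    rw [h2, fr1_neg hv] at hy'
    exact lt_irrefl _ hy'
  refine ⟨h1, le_antisymm ?_ ?_⟩
  · by_contra hlt
    push Not at hlt
    have h3 : x + y + -y ≠ 0 := by
      rw [add_neg_cancel_right]
      exact hx
    have h4 := hv.add (x + y) (-y) h1 (neg_ne_zero.2 h0) h3
    rw [add_neg_cancel_right, fr1_neg hv] at h4
    exact absurd h4 (not_le.2 (lt_min hlt hy'))
  · have h2 := hv.add x y hx h0 h1
    rw [min_eq_left (le_of_lt hy')] at h2
    exact h2

variable {k : Type} [Field k] [Algebra k K]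

private theorem fr1_aeval_ge (hv : IsV v) (ht : Triv k v) {x : K} (hx : Ge v 0 x)
    (P : Polynomial k) : Ge v 0 (Polynomial.aeval x P) := by
  induction P using Polynomial.induction_on with
  | C a =>
    rw [Polynomial.aeval_C]
    exact Or.inr (le_of_eq (ht a).symm)
  | add f g hf hg =>
    rw [map_add]
    exact fr1_ge_add hv hf hg
  | monomial n a ih =>
    rw [pow_succ, ← mul_assoc, map_mul, Polynomial.aeval_X]
    exact fr1_ge_mul hv ih hx

/-- if `x` has positive value and `P(0) ≠ 0` then `P(x)` has value zero -/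
private theorem fr1_aeval_unit (hv : IsV v) (ht : Triv k v) {x : K} (hx : 0 < v x)
    {P : Polynomial k} (hP : P.coeff 0 ≠ 0) :
    Polynomial.aeval x P ≠ 0 ∧ v (Polynomial.aeval x P) = 0 := by
  have hx0 : x ≠ 0 := by
    intro h
    rw [h, hv.zero] at hx
    exact lt_irrefl _ hx
  have h1 : Polynomial.aeval x P =
      algebraMap k K (P.coeff 0) + x * Polynomial.aeval x P.divX := by
    conv_lhs => rw [← Polynomial.divX_mul_X_add P]
    rw [map_add, map_mul, Polynomial.aeval_X, Polynomial.aeval_C]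
    ring
  have h2 : algebraMap k K (P.coeff 0) ≠ 0 := by
    rw [Ne, map_eq_zero]
    exact hP
  have h3 : Gt v (v (algebraMap k K (P.coeff 0))) (x * Polynomial.aeval x P.divX) := by
    rw [ht]
    by_cases h0 : Polynomial.aeval x P.divX = 0
    · exact Or.inl (by rw [h0, mul_zero])
    · refine Or.inr ?_
      rw [hv.mul _ _ hx0 h0]
      have h4 := (fr1_aeval_ge hv ht (Or.inr (le_of_lt hx)) P.divX).resolve_left h0
      exact lt_of_lt_of_le hx (le_add_of_nonneg_right h4)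
  rw [h1]
  have h5 := fr1_add_eq hv h2 h3
  rw [ht] at h5
  exact h5

end val

/-! ### Laurent polynomials -/

section laurent
variable {k : Type} [Field k]

private theorem fr1_toL (P : Polynomial k) :
    Polynomial.aeval (AddMonoidAlgebra.single 1 1 : Ls k) P = Polynomial.toLaurent P := by
  have h : (Polynomial.aeval (AddMonoidAlgebra.single 1 1 : Ls k) : Polynomial k →ₐ[k] Ls k) =
      Polynomial.toLaurentAlg := by
    apply Polynomial.algHom_ext
    rw [Polynomial.aeval_X, Polynomial.toLaurentAlg_apply, Polynomial.toLaurent_X]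
    rfl
  rw [h, Polynomial.toLaurentAlg_apply]

private theorem fr1_lau1 (a : Ls k) (ha : a ≠ 0) : ∃ (j1 j2 : ℕ) (Q : Polynomial k),
    Q.coeff 0 ≠ 0 ∧ a * (AddMonoidAlgebra.single 1 1 : Ls k) ^ j2 =
      (AddMonoidAlgebra.single 1 1 : Ls k) ^ j1 *
        Polynomial.aeval (AddMonoidAlgebra.single 1 1 : Ls k) Q := by
  obtain ⟨n, P, hP⟩ := LaurentPolynomial.exists_T_pow a
  have hT : (LaurentPolynomial.T (n : ℤ) : Ls k) = (AddMonoidAlgebra.single 1 1 : Ls k) ^ n := by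
    have h := LaurentPolynomial.T_pow (R := k) 1 n
    rw [mul_one] at h
    exact h.symm
  have hP0 : P ≠ 0 := by
    intro h
    rw [h, map_zero] at hP
    have h1 : IsUnit (LaurentPolynomial.T (n : ℤ) : Ls k) := LaurentPolynomial.isUnit_T _
    have h2 := h1.mul_left_eq_zero.1 hP.symm
    exact ha h2
  obtain ⟨Q, hQ, hQ'⟩ : ∃ Q : Polynomial k, P = Polynomial.X ^ P.natTrailingDegree * Q ∧
      Q.coeff 0 ≠ 0 := by
    obtain ⟨Q, hQ⟩ : Polynomial.X ^ P.natTrailingDegree ∣ P := by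
      rw [Polynomial.X_pow_dvd_iff]
      intro d hd
      exact Polynomial.coeff_eq_zero_of_lt_natTrailingDegree hd
    refine ⟨Q, hQ, ?_⟩
    have h := Polynomial.trailingCoeff_nonzero_iff_nonzero.2 hP0
    unfold Polynomial.trailingCoeff at h
    intro h0
    apply h
    have h2 := Polynomial.coeff_X_pow_mul Q P.natTrailingDegree 0
    rw [← hQ, zero_add] at h2
    rw [h2, h0]
  refine ⟨P.natTrailingDegree, n, Q, hQ', ?_⟩
  rw [← hT, ← hP, fr1_toL, ← fr1_toL P]
  conv_lhs => rw [hQ]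
  rw [map_mul, map_pow, Polynomial.aeval_X, fr1_toL]

private theorem fr1_lau (t : Ls k)
    (ht : t = AddMonoidAlgebra.single 1 1 ∨ t = AddMonoidAlgebra.single (-1) 1) (a : Ls k)
    (ha : a ≠ 0) : ∃ (j1 j2 : ℕ) (Q : Polynomial k), Q.coeff 0 ≠ 0 ∧
      a * t ^ j2 = t ^ j1 * Polynomial.aeval t Q := by
  rcases ht with ht | ht
  · rw [ht]
    exact fr1_lau1 a ha
  · have ha' : (LaurentPolynomial.invert (R := k)) a ≠ 0 := by
      rw [Ne, map_eq_zero_iff _ (AlgEquiv.injective _)]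
      exact ha
    obtain ⟨j1, j2, Q, hQ, h⟩ := fr1_lau1 _ ha'
    refine ⟨j1, j2, Q, hQ, ?_⟩
    have hs : (LaurentPolynomial.invert (R := k)) (AddMonoidAlgebra.single 1 1 : Ls k) = t := by
      rw [ht]
      exact LaurentPolynomial.invert_T 1
    have h2 := congrArg (LaurentPolynomial.invert (R := k)) h
    rw [map_mul, map_mul, map_pow, map_pow, hs, LaurentPolynomial.involutive_invert a] at h2
    rw [h2]
    congr 1
    rw [← hs]
    exact (Polynomial.aeval_algHom_apply (LaurentPolynomial.invert (R := k)).toAlgHom _ Q).symm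

private theorem fr1_single_ne (n : ℤ) : (AddMonoidAlgebra.single n 1 : Ls k) ≠ 0 := by
  intro h
  have h1 := congrArg (fun a : Ls k => a.coeff n) h
  simp at h1

end laurent

/-! ### The piece -/

section
variable {p m : ℕ} [Fact p.Prime] {k K G : Type} [Field k] [CharP k p] [IsAlgClosed k]
  [Field K] [Algebra k K] [Group G] (C : Core p m k K G)

include C

private theorem fr1_ne {h : C.B} (hr : C.res h ≠ 0) : (h : K) ≠ 0 := by
  intro h0
  apply hr
  have h1 : h = 0 := Subtype.ext h0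
  rw [h1, map_zero]

private theorem fr1_fst0 {V : K → ℝ ×ₗ ℝ} (hV : Flag k p C.φ C.RR V) {h : C.B}
    (hr : C.res h ≠ 0) : (ofLex (V (h : K))).1 = 0 := by
  rw [hV.fst]
  unfold Core.RR
  have h0 := fr1_ne C hr
  have h1 : ¬ 0 < C.R (h : K) := fun h2 => hr ((C.R_pos h h0).1 h2)
  have h2 := C.R_nn h
  have h3 : C.R (h : K) = 0 := by omega
  rw [h3, Int.cast_zero]

private theorem fr1_big {V : K → ℝ ×ₗ ℝ} (hV : Flag k p C.φ C.RR V) {e : C.B}
    (hr : C.res e = 0) {c : ℝ ×ₗ ℝ} (hc : (ofLex c).1 = 0) : Gt V c (e : K) := by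
  by_cases h0 : (e : K) = 0
  · exact Or.inl h0
  refine Or.inr ?_
  have h1 := (C.R_pos e h0).2 hr
  rw [Prod.Lex.lt_iff]
  left
  rw [hc, hV.fst]
  unfold Core.RR
  exact_mod_cast h1

private theorem fr1_val {V : K → ℝ ×ₗ ℝ} (hV : Flag k p C.φ C.RR V) {t : Ls k} (ht0 : t ≠ 0)
    {τ : C.B} (hτ : C.res τ = t) (hτV : 0 < V (τ : K)) {h : C.B} (hr : C.res h ≠ 0) {j1 j2 : ℕ}
    {Q : Polynomial k} (hQ : Q.coeff 0 ≠ 0)
    (hh : C.res h * t ^ j2 = t ^ j1 * Polynomial.aeval t Q) :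
    V (h : K) = ((j1 : ℤ) - (j2 : ℤ)) • V (τ : K) := by
  have hv := hV.inz.isv
  have ht := hV.inz.triv
  have hh0 := fr1_ne C hr
  have hτ0 : (τ : K) ≠ 0 := by
    intro h0
    rw [h0, hv.zero] at hτV
    exact lt_irrefl _ hτV
  obtain ⟨hQ0, hQV⟩ := fr1_aeval_unit hv ht hτV hQ
  have hrA : C.res (τ ^ j1 * Polynomial.aeval τ Q) = C.res h * t ^ j2 := by
    rw [map_mul, map_pow, hτ, hh]
    congr 1
    rw [← hτ]
    exact (Polynomial.aeval_algHom_apply C.res τ Q).symm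
  have hrA0 : C.res (τ ^ j1 * Polynomial.aeval τ Q) ≠ 0 := by
    rw [hrA]
    exact mul_ne_zero hr (pow_ne_zero _ ht0)
  have hres : C.res (h * τ ^ j2 - τ ^ j1 * Polynomial.aeval τ Q) = 0 := by
    rw [map_sub, hrA, map_mul, map_pow, hτ, sub_self]
  have hbig := fr1_big C hV hres (fr1_fst0 C hV hrA0)
  have hA0 := fr1_ne C hrA0
  obtain ⟨_, h2⟩ := fr1_add_eq hv hA0 hbig
  have h3 : ((τ ^ j1 * Polynomial.aeval τ Q : C.B) : K) +
      ((h * τ ^ j2 - τ ^ j1 * Polynomial.aeval τ Q : C.B) : K) = (h : K) * (τ : K) ^ j2 := by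
    push_cast
    ring
  rw [h3] at h2
  have h4 : ((τ ^ j1 * Polynomial.aeval τ Q : C.B) : K) =
      (τ : K) ^ j1 * Polynomial.aeval (τ : K) Q := by
    push_cast
    rfl
  rw [h4, hv.mul _ _ hh0 (pow_ne_zero _ hτ0), hv.mul _ _ (pow_ne_zero _ hτ0) hQ0, hQV, add_zero,
    fr1_pow hv hτ0, fr1_pow hv hτ0] at h2
  rw [sub_smul, natCast_zsmul, natCast_zsmul]
  exact eq_sub_of_add_eq h2

private theorem fr1_part1 (hbas : S_bas C) (hr9 : S_r9 C) {V : K → ℝ ×ₗ ℝ}
    (hV : Flag k p C.φ C.RR V) {f : C.B} (hf : C.res f = AddMonoidAlgebra.single 1 1) :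
    V (f : K) ≠ 0 := by
  intro h0
  have hv := hV.inz.isv
  have ht := hV.inz.triv
  have hf1 : C.res f ≠ 0 := by
    rw [hf]
    exact fr1_single_ne 1
  have hf0 := fr1_ne C hf1
  have hB : ∀ h : C.B, (h : K) ≠ 0 → 0 ≤ V (h : K) := by
    intro h hh0
    by_cases hr : C.res h = 0
    · exact le_of_lt ((fr1_big C hV hr (c := 0) rfl).resolve_left hh0)
    obtain ⟨j1, j2, Q, hQ, hh⟩ := fr1_lau (AddMonoidAlgebra.single 1 1 : Ls k) (Or.inl rfl) _ hr
    rw [← hf] at hh
    have hres : C.res (h * f ^ j2 - f ^ j1 * Polynomial.aeval f Q) = 0 := by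
      rw [map_sub, map_mul, map_pow, hh, map_mul, map_pow, sub_eq_zero]
      congr 1
      exact Polynomial.aeval_algHom_apply C.res f Q
    have h1 : Ge V 0 ((h * f ^ j2 - f ^ j1 * Polynomial.aeval f Q : C.B) : K) := by
      rcases fr1_big C hV hres (c := 0) rfl with h | h
      · exact Or.inl h
      · exact Or.inr (le_of_lt h)
    have h2 : Ge V 0 ((f : K) ^ j1 * Polynomial.aeval (f : K) Q) := by
      refine fr1_ge_mul hv (Or.inr ?_) (fr1_aeval_ge hv ht (Or.inr (le_of_eq h0.symm)) Q)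
      rw [fr1_pow hv hf0, h0, nsmul_zero]
    have h3 := fr1_ge_add hv h1 h2
    have h4 : ((h * f ^ j2 - f ^ j1 * Polynomial.aeval f Q : C.B) : K) +
        (f : K) ^ j1 * Polynomial.aeval (f : K) Q = (h : K) * (f : K) ^ j2 := by
      push_cast
      ring
    rw [h4] at h3
    have h5 := h3.resolve_left (mul_ne_zero hh0 (pow_ne_zero _ hf0))
    rw [hv.mul _ _ hh0 (pow_ne_zero _ hf0), fr1_pow hv hf0, h0, nsmul_zero, add_zero] at h5
    exact h5
  obtain ⟨g, hg0, hg1, hg2⟩ := hV.nt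
  have hgV : V g ≠ 0 := by
    intro h
    apply hg2
    unfold c2
    rw [h]
    rfl
  obtain ⟨_, h2⟩ := hr9.1 (ℝ ×ₗ ℝ) V hV.inz ⟨g, hgV⟩ (by
    intro h hh hh0
    exact hB ⟨h, (hbas.2.1 h).1 hh⟩ hh0)
  apply hgV
  rw [h2 g]
  have h3 : C.R g = 0 := by
    have h4 : ((C.R g : ℤ) : ℝ) = 0 := hg1
    exact_mod_cast h4
  rw [h3, zero_smul]

/-- the sign of `V f` -/
private theorem fr1_sign {V : K → ℝ ×ₗ ℝ} (hV : Flag k p C.φ C.RR V) {τ : C.B}
    (hτV : 0 < V (τ : K)) {f : K} (hf0 : f ≠ 0) {n : ℤ} {a b : C.B} (ha : C.res a ≠ 0)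
    (hb : C.res b ≠ 0) (hf : f * b = (C.κ0 : K) ^ n * a) {ja jb : ℤ}
    (hja : V (a : K) = ja • V (τ : K)) (hjb : V (b : K) = jb • V (τ : K)) :
    0 < V f ↔ (0 < n ∨ (n = 0 ∧ jb < ja)) := by
  have hv := hV.inz.isv
  have hR : C.R f = n := C.R_eq f n a b ha hb hf
  have hfst : (ofLex (V f)).1 = (n : ℝ) := by
    rw [hV.fst]
    unfold Core.RR
    rw [hR]
  rcases lt_trichotomy n 0 with hn | hn | hn
  · constructor
    · intro h
      exfalso
      rw [Prod.Lex.lt_iff] at h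
      have h1 : ((n : ℤ) : ℝ) < 0 := by exact_mod_cast hn
      rcases h with h | ⟨h, _⟩
      · rw [hfst] at h
        exact lt_asymm h h1
      · rw [hfst] at h
        exact absurd h.symm h1.ne
    · rintro (h | ⟨h, _⟩) <;> omega
  · rw [hn, zpow_zero, one_mul] at hf
    have h1 : V f = (ja - jb) • V (τ : K) := by
      have h2 := hv.mul f b hf0 (fr1_ne C hb)
      rw [hf, hja, hjb] at h2
      rw [sub_smul]
      exact (sub_eq_of_eq_add h2).symm
    rw [h1]
    constructor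
    · intro h
      refine Or.inr ⟨hn, ?_⟩
      by_contra hlt
      push Not at hlt
      have h3 : 0 ≤ (-(ja - jb)) • V (τ : K) := zsmul_nonneg (le_of_lt hτV) (by omega)
      rw [neg_smul] at h3
      exact absurd h (not_lt.2 (neg_nonneg.1 h3))
    · rintro (h | ⟨_, h⟩)
      · omega
      · exact zsmul_pos hτV (by omega)
  · constructor
    · intro _
      exact Or.inl hn
    · intro _
      rw [Prod.Lex.lt_iff]
      left
      rw [hfst]
      show (0 : ℝ) < n
      exact_mod_cast hn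

private theorem fr1_eqv {V V' : K → ℝ ×ₗ ℝ} (hV : Flag k p C.φ C.RR V)
    (hV' : Flag k p C.φ C.RR V') {t : Ls k}
    (ht : t = AddMonoidAlgebra.single 1 1 ∨ t = AddMonoidAlgebra.single (-1) 1) {τ : C.B}
    (hτ : C.res τ = t) (hτV : 0 < V (τ : K)) (hτV' : 0 < V' (τ : K)) : Eqv V V' := by
  intro f
  by_cases hf0 : f = 0
  · rw [hf0, hV.inz.isv.zero, hV'.inz.isv.zero]
  have ht0 : t ≠ 0 := by
    rcases ht with h | h
    · rw [h]
      exact fr1_single_ne 1
    · rw [h]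
      exact fr1_single_ne (-1)
  obtain ⟨n, a, b, ha, hb, hf⟩ := C.hord f hf0
  obtain ⟨a1, a2, Qa, hQa, hha⟩ := fr1_lau t ht _ ha
  obtain ⟨b1, b2, Qb, hQb, hhb⟩ := fr1_lau t ht _ hb
  rw [fr1_sign C hV hτV hf0 ha hb hf (fr1_val C hV ht0 hτ hτV ha hQa hha)
      (fr1_val C hV ht0 hτ hτV hb hQb hhb),
    fr1_sign C hV' hτV' hf0 ha hb hf (fr1_val C hV' ht0 hτ hτV' ha hQa hha)
      (fr1_val C hV' ht0 hτ hτV' hb hQb hhb)]

/-- an inverse of `s` modulo the ideal -/
private theorem fr1_inv_val {V : K → ℝ ×ₗ ℝ} (hV : Flag k p C.φ C.RR V) {σ τ : C.B}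
    (hσ : C.res σ = AddMonoidAlgebra.single 1 1) (hτ : C.res τ = AddMonoidAlgebra.single (-1) 1) :
    V (τ : K) = - V (σ : K) := by
  have hv := hV.inz.isv
  have hσ0 : (σ : K) ≠ 0 := fr1_ne C (by rw [hσ]; exact fr1_single_ne 1)
  have hτ0 : (τ : K) ≠ 0 := fr1_ne C (by rw [hτ]; exact fr1_single_ne (-1))
  have hres : C.res (σ * τ - 1) = 0 := by
    rw [map_sub, map_mul, hσ, hτ, map_one, AddMonoidAlgebra.single_mul_single]
    norm_num
  have h1 := fr1_big C hV hres (c := 0) rfl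
  have h2 := fr1_add_eq hv (x := 1) one_ne_zero (y := ((σ * τ - 1 : C.B) : K)) (by
    rw [fr1_one hv]
    exact h1)
  have h3 : (1 : K) + ((σ * τ - 1 : C.B) : K) = (σ : K) * (τ : K) := by
    push_cast
    ring
  rw [h3, fr1_one hv, hv.mul _ _ hσ0 hτ0] at h2
  exact (neg_eq_of_add_eq_zero_right h2.2).symm

theorem p_fR1 (hbas : S_bas C) (hrr : S_rr C) (hr9 : S_r9 C) : S_fR1 C := by
  have _ := hrr
  have h1 : ∀ V, Flag k p C.φ C.RR V → ∀ f : C.B,
      C.res f = AddMonoidAlgebra.single 1 1 → V f ≠ 0 :=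
    fun V hV f hf => fr1_part1 C hbas hr9 hV hf
  refine ⟨h1, ?_⟩
  intro V V' hV hV' σ hσ hs
  rcases lt_or_gt_of_ne (h1 V hV σ hσ) with hneg | hpos
  · obtain ⟨τ, hτ⟩ := C.res_surj (AddMonoidAlgebra.single (-1) 1)
    have hneg' : V' (σ : K) < 0 := by
      rcases lt_or_gt_of_ne (h1 V' hV' σ hσ) with h | h
      · exact h
      · exact absurd (hs.2 h) (not_lt.2 (le_of_lt hneg))
    refine fr1_eqv C hV hV' (Or.inr rfl) hτ ?_ ?_
    · rw [fr1_inv_val C hV hσ hτ]
      exact neg_pos.2 hneg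
    · rw [fr1_inv_val C hV' hσ hτ]
      exact neg_pos.2 hneg'
  · exact fr1_eqv C hV hV' (Or.inl rfl) hσ hpos (hs.1 hpos)

end

end Pool.Agent.CZW
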