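import Pool.Agent.Lib.MP_305fdd_al.CZ.W.Stm

/-!
# MP_305fdd_al, `C_m * Z`, section W: [CZW i2] transport by the symmetry
-/

set_option autoImplicit false

namespace Pool.Agent.CZW

open Pool.Agent.F2Ch Pool.Agent.F2RF Pool.Agent.F2W Pool.Agent.F2PF Pool.Agent.CZ

section

variable {p m : ℕ} [Fact p.Prime] {k K G : Type} [Field k] [CharP k p] [IsAlgClosed k]
  [Field K] [Algebra k K] [Group G] (C : Core p m k K G)

private theorem i2_all (hB : ∀ f, C.ι f ∈ Br k C.t ↔ f ∈ Br k C.t) (P : K → Prop) :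
    (∀ f ∈ Br k C.t, f ≠ 0 → P (C.ι f)) ↔ ∀ f ∈ Br k C.t, f ≠ 0 → P f := by
  constructor
  · intro h f hf h0
    have h1 := h (C.ι.symm f) ((hB _).1 (by rw [C.ι.apply_symm_apply]; exact hf))
      ((map_ne_zero_iff C.ι.symm C.ι.symm.injective).2 h0)
    rwa [C.ι.apply_symm_apply] at h1
  · intro h f hf h0
    exact h _ ((hB f).2 hf) ((map_ne_zero_iff C.ι C.ι.injective).2 h0)

private theorem i2_ex (hB : ∀ f, C.ι f ∈ Br k C.t ↔ f ∈ Br k C.t) (P : K → Prop) :
    (∃ f ∈ Br k C.t, f ≠ 0 ∧ P (C.ι f)) ↔ ∃ f ∈ Br k C.t, f ≠ 0 ∧ P f := by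
  constructor
  · rintro ⟨f, hf, h0, h⟩
    exact ⟨_, (hB f).2 hf, (map_ne_zero_iff C.ι C.ι.injective).2 h0, h⟩
  · rintro ⟨f, hf, h0, h⟩
    refine ⟨C.ι.symm f, (hB _).1 (by rw [C.ι.apply_symm_apply]; exact hf),
      (map_ne_zero_iff C.ι.symm C.ι.symm.injective).2 h0, ?_⟩
    rwa [C.ι.apply_symm_apply]

private theorem i2_allK (P : K → Prop) : (∀ f, P (C.ι f)) ↔ ∀ f, P f :=
  C.ι.surjective.forall.symm

private theorem i2_inz {Γ : Type} [AddCommGroup Γ] [LinearOrder Γ] [IsOrderedAddMonoid Γ]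
    (V : K → Γ) (h : InZ k p C.φ V) : InZ k p C.φ (C.tw V) where
  isv :=
    { zero := by
        show V (C.ι 0) = 0
        rw [map_zero, h.isv.zero]
      mul := by
        intro x y hx hy
        show V (C.ι (x * y)) = V (C.ι x) + V (C.ι y)
        rw [map_mul]
        exact h.isv.mul _ _ ((map_ne_zero_iff C.ι C.ι.injective).2 hx)
          ((map_ne_zero_iff C.ι C.ι.injective).2 hy)
      add := by
        intro x y hx hy hxy
        show min (V (C.ι x)) (V (C.ι y)) ≤ V (C.ι (x + y))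
        have h3 := (map_ne_zero_iff C.ι C.ι.injective).2 hxy
        rw [map_add] at h3 ⊢
        exact h.isv.add _ _ ((map_ne_zero_iff C.ι C.ι.injective).2 hx)
          ((map_ne_zero_iff C.ι C.ι.injective).2 hy) h3 }
  triv := by
    intro c
    show V (C.ι (algebraMap k K c)) = 0
    rw [C.ι_k]
    exact h.triv _
  compat := by
    intro f hf
    show V (C.ι f) ≤ p • V (C.ι (C.φ f))
    have h3 := (map_ne_zero_iff C.ι C.ι.injective).2 hf
    rw [C.ι_φ] at h3 ⊢
    exact h.compat _ h3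

private theorem i2_one (hN : ∀ f : K, ∃ N : ℕ, 0 < N ∧ C.ι^[N] f = f) (v : K → ℝ)
    (hv : ∃ f, v f ≠ 0) (c : ℝ) (hc : 0 < c) (h : ∀ f, v (C.ι f) = c * v f) : c = 1 := by
  obtain ⟨f, hf⟩ := hv
  obtain ⟨N, hN0, hNf⟩ := hN f
  have h1 : ∀ n : ℕ, v (C.ι^[n] f) = c ^ n * v f := by
    intro n
    induction n with
    | zero => simp
    | succ n ih =>
      rw [Function.iterate_succ_apply', h, ih, pow_succ]
      ring
  have h2 := h1 N
  rw [hNf] at h2
  have h3 : c ^ N = 1 := by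
    have h4 : (c ^ N - 1) * v f = 0 := by linear_combination -h2
    rcases mul_eq_zero.1 h4 with h5 | h5
    · linarith
    · exact absurd h5 hf
  exact (pow_eq_one_iff_of_nonneg hc.le hN0.ne').1 h3

end

theorem p_i2 {p m : ℕ} [Fact p.Prime] {k K G : Type} [Field k] [CharP k p] [IsAlgClosed k]
    [Field K] [Algebra k K] [Group G] (C : Core p m k K G) (hi1 : S_i1 C) (_hbas : S_bas C)
    (hrr : S_rr C) (hr9 : S_r9 C) : S_i2 C := by
  obtain ⟨hB, -, -, hN⟩ := hi1
  obtain ⟨rr1, -, rr3, -, -, -⟩ := hrr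
  have hdv : ∀ (w : K → ℝ) (V : K → ℝ ×ₗ ℝ) (u : ℝ × ℝ),
      u ∈ DV (Br k C.t) (C.tw w) (c2 (C.tw V)) ↔ u ∈ DV (Br k C.t) w (c2 V) := fun w V u =>
    i2_all C hB (fun f => dot u (w f, c2 V f) ≤ 0)
  refine ⟨fun Γ _ _ _ V h => i2_inz C V h, ?_, ?_, ?_, ?_, ?_, ?_, ?_, ?_, ?_, ?_, ?_,
    i2_one C hN⟩
  · -- the divisor `R`
    have hne : ∃ f, C.RR f ≠ 0 := by
      refine ⟨(C.κ0 : K), ?_⟩
      show (C.R (C.κ0 : K) : ℝ) ≠ 0
      rw [C.R_κ0]
      norm_num
    have hne' : ∃ f, C.tw C.RR f ≠ 0 := by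
      obtain ⟨f, hf⟩ := hne
      refine ⟨C.ι.symm f, ?_⟩
      show C.RR (C.ι (C.ι.symm f)) ≠ 0
      rwa [C.ι.apply_symm_apply]
    obtain ⟨c, hc, h⟩ := hr9.2 (C.tw C.RR) (i2_inz C _ rr1) hne'
      (fun f hf h0 => rr3 _ ((hB f).2 hf) ((map_ne_zero_iff C.ι C.ι.injective).2 h0))
    have hc1 := i2_one C hN C.RR hne c hc h
    funext f
    rw [h f, hc1, one_mul]
  · intro w V h
    refine ⟨i2_inz C V h.inz, fun f => h.fst (C.ι f), ?_⟩
    obtain ⟨f, h0, hw, hV⟩ := h.nt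
    refine ⟨C.ι.symm f, (map_ne_zero_iff C.ι.symm C.ι.symm.injective).2 h0, ?_, ?_⟩
    · show w (C.ι (C.ι.symm f)) = 0
      rwa [C.ι.apply_symm_apply]
    · show c2 V (C.ι (C.ι.symm f)) ≠ 0
      rwa [C.ι.apply_symm_apply]
  · intro w
    unfold Dv
    apply exists_congr
    intro γ
    apply and_congr_right
    intro _
    rw [← i2_allK C (fun f => f ≠ 0 → ∃ n : ℤ, w f = n • γ)]
    apply forall_congr'
    intro f
    rw [map_ne_zero_iff C.ι C.ι.injective]
    rfl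
  · intro w
    exact i2_all C hB (fun f => w f ≤ 0)
  · intro w
    exact i2_ex C hB (fun f => w f < 0)
  · intro w w'
    unfold Le
    apply exists_congr
    intro c
    apply and_congr_right
    intro _
    exact i2_all C hB (fun f => w f ≤ c * w' f)
  · intro w w'
    unfold Pr
    apply exists_congr
    intro c
    apply and_congr_right
    intro _
    exact i2_allK C (fun f => w' f = c * w f)
  · intro w V
    unfold PT
    exact exists_congr fun μ => hdv w V _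
  · intro w V
    unfold BT
    exact exists_congr fun μ => hdv w V _
  · intro V V'
    unfold Eqv
    exact i2_allK C (fun f => 0 < V f ↔ 0 < V' f)
  · intro M t
    constructor
    · ext u
      exact i2_all C hB (fun f => ∀ m, IsR (M f) t m → dot u m ≤ 0)
    · ext u
      exact i2_all C hB (fun f => ∀ m, IsL (M f) t m → dot u m ≤ 0)

end Pool.Agent.CZW
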