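import Pool.Agent.Lib.MP_305fdd_al.CZ.W.Stm

/-!
# [CZW iCL] lines are transported by `ι`
-/

set_option autoImplicit false

namespace Pool.Agent.CZW

open MvPolynomial Pool.Agent.F2Ch Pool.Agent.F2RF Pool.Agent.F2W Pool.Agent.F2PF Pool.Agent.CZ
open Pool.Agent.F2L (FPl)

section icl

/-- an automorphism which is compatible with the constants, with `φ` and with the ring `k[t]` -/
private structure IclS (k : Type) {K : Type} [Field k] [Field K] [Algebra k K] {n : ℕ}
    (t : Fin n → K) (φ : K → K) (σ : K ≃+* K) : Prop where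
  hk : ∀ c : k, ∃ c' : k, σ (algebraMap k K c) = algebraMap k K c'
  hφ : ∀ f, σ (φ f) = φ (σ f)
  hB : ∀ q : MvPolynomial (Fin n) k, ∃ q' : MvPolynomial (Fin n) k, σ (aeval t q) = aeval t q'

variable {k K : Type} [Field k] [Field K] [Algebra k K] {n : ℕ} {t : Fin n → K} {φ : K → K}
  {σ : K ≃+* K}

private lemma icl_ne {σ : K ≃+* K} {x : K} (h : x ≠ 0) : σ x ≠ 0 := (map_ne_zero σ).mpr h

private lemma icl_isV {Γ : Type} [AddCommGroup Γ] [LinearOrder Γ] [IsOrderedAddMonoid Γ]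
    {w : K → Γ} (σ : K ≃+* K) (h : IsV w) : IsV (fun f => w (σ f)) where
  zero := by
    rw [map_zero, h.zero]
  mul x y hx hy := by
    rw [map_mul]
    exact h.mul _ _ (icl_ne hx) (icl_ne hy)
  add x y hx hy hxy := by
    have hxy' : σ x + σ y ≠ 0 := by
      rw [← map_add]
      exact icl_ne hxy
    rw [map_add]
    exact h.add _ _ (icl_ne hx) (icl_ne hy) hxy'

private lemma icl_inz {Γ : Type} [AddCommGroup Γ] [LinearOrder Γ] [IsOrderedAddMonoid Γ]
    {p : ℕ} {w : K → Γ} (hs : IclS k t φ σ) (h : InZ k p φ w) :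
    InZ k p φ (fun f => w (σ f)) where
  isv := icl_isV σ h.isv
  triv c := by
    change w (σ (algebraMap k K c)) = 0
    obtain ⟨c', hc'⟩ := hs.hk c
    rw [hc']
    exact h.triv c'
  compat f hf := by
    change w (σ f) ≤ p • w (σ (φ f))
    have h1 : φ (σ f) ≠ 0 := by
      rw [← hs.hφ]
      exact icl_ne hf
    rw [hs.hφ]
    exact h.compat _ h1

private lemma icl_ge {Γ : Type} [AddCommGroup Γ] [LinearOrder Γ] [IsOrderedAddMonoid Γ]
    {w : K → Γ} (σ : K ≃+* K) (c : Γ) (f : K) : Ge (fun f => w (σ f)) c f ↔ Ge w c (σ f) := by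
  unfold Ge
  rw [map_eq_zero_iff σ σ.injective]

private lemma icl_lc {Γ κ : Type} [AddCommGroup Γ] [LinearOrder Γ] [IsOrderedAddMonoid Γ]
    [Field κ] {w : K → Γ} {ac : K → κ} (σ : K ≃+* K) (γ : Γ) (f : K) :
    lc (fun f => w (σ f)) (fun f => ac (σ f)) γ f = lc w ac γ (σ f) := by
  classical
  unfold lc
  have : f ≠ 0 ∧ w (σ f) = γ ↔ σ f ≠ 0 ∧ w (σ f) = γ := by
    rw [ne_eq, ne_eq, map_eq_zero_iff σ σ.injective]
  by_cases hc : f ≠ 0 ∧ w (σ f) = γ
  · rw [if_pos hc, if_pos (this.mp hc)]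
  · rw [if_neg hc, if_neg (fun h => hc (this.mpr h))]

private lemma icl_onch {Γ κ : Type} [AddCommGroup Γ] [LinearOrder Γ] [IsOrderedAddMonoid Γ]
    [Field κ] {p r : ℕ} {L : K → AddMonoidAlgebra κ (Fin r → ℤ)} {u : Fin r → Γ} {w : K → Γ}
    (hs : IclS k t φ σ) (h : OnCh k p φ t L u w) :
    OnCh k p φ t (fun f => L (σ f)) u (fun f => w (σ f)) where
  inz := icl_inz hs h.inz
  min q hq := by
    obtain ⟨q', hq'⟩ := hs.hB q
    have h1 : aeval t q' ≠ 0 := by
      rw [← hq']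
      exact icl_ne hq
    rw [hq']
    exact h.min q' h1

/-- transport back -/
private lemma icl_onch' {Γ κ : Type} [AddCommGroup Γ] [LinearOrder Γ] [IsOrderedAddMonoid Γ]
    [Field κ] {p r : ℕ} {L : K → AddMonoidAlgebra κ (Fin r → ℤ)} {u : Fin r → Γ} {w : K → Γ}
    (hs' : IclS k t φ σ.symm) (h : OnCh k p φ t (fun f => L (σ f)) u w) :
    OnCh k p φ t L u (fun f => w (σ.symm f)) := by
  have := icl_onch hs' h
  simpa only [RingEquiv.apply_symm_apply] using this

variable {κ Γ : Type} [Field κ] [Algebra k κ] [AddCommGroup Γ] [LinearOrder Γ] [IsOrderedAddMonoid Γ]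
  {p r : ℕ} {V : K → Γ} {x : Fin r → K} {ex : K → Fin r → ℤ} {ac : K → κ} {φb : κ → κ}
  {N : Set (Fin r → ℤ)} {L : K → AddMonoidAlgebra κ (Fin r → ℤ)}

private lemma icl_lform (α : k →+* κ)
    (ha : ∀ c c' : k, σ (algebraMap k K c) = algebraMap k K c' → α c = algebraMap k κ c')
    (hs : IclS k t φ σ) {Φ : LF κ r → LF κ r} {u : Fin r → Γ} {w : K → Γ} {AC : K → LF κ r}
    (h : LForm k p φ t x L Φ u w AC) :
    @LForm k p K κ Γ _ _ _ _ α.toAlgebra _ _ _ n r φ t (fun i => σ.symm (x i))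
      (fun f => L (σ f)) Φ u (fun f => w (σ f)) (fun f => AC (σ f)) := by
  refine @LForm.mk k p K κ Γ _ _ _ _ α.toAlgebra _ _ _ n r φ t _ _ Φ u _ _
    ?_ ?_ ?_ ?_ ?_ ?_ ?_ ?_ ?_ ?_
  · change AC (σ 0) = 0
    rw [map_zero]
    exact h.zero
  · intro f hf
    exact h.ne _ (icl_ne hf)
  · intro f g
    change AC (σ (f * g)) = _
    rw [map_mul]
    exact h.mul _ _
  · intro γ f g hf hg
    rw [icl_lc, icl_lc, icl_lc, map_add]
    exact h.add γ _ _ ((icl_ge σ γ f).mp hf) ((icl_ge σ γ g).mp hg)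
  · intro q hq
    change AC (σ (aeval t q)) = toLF (part u (w (σ (aeval t q))) (L (σ (aeval t q))))
    obtain ⟨q', hq'⟩ := hs.hB q
    have h1 : aeval t q' ≠ 0 := by
      rw [← hq']
      exact icl_ne hq
    rw [hq']
    exact h.eq q' h1
  · intro i
    change AC (σ (σ.symm (x i))) = _
    rw [RingEquiv.apply_symm_apply]
    exact h.x_eq i
  · intro c
    change AC (σ (algebraMap k K c)) = _
    obtain ⟨c', hc'⟩ := hs.hk c
    rw [hc']
    have h1 := h.alg c'
    rw [← ha c c' hc'] at h1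
    exact h1
  · intro γ f hf
    have h1 := h.phi γ (σ f) ((icl_ge σ _ f).mp hf)
    rw [← hs.hφ] at h1
    refine ⟨(icl_ge σ _ _).mpr h1.1, ?_⟩
    rw [icl_lc, icl_lc]
    exact h1.2
  · intro z hz
    obtain ⟨f, hf, hwf, hac⟩ := h.surj z hz
    refine ⟨σ.symm f, icl_ne hf, ?_, ?_⟩
    · change w (σ (σ.symm f)) = 0
      rw [RingEquiv.apply_symm_apply, hwf]
    · change AC (σ (σ.symm f)) = _
      rw [RingEquiv.apply_symm_apply, hac]
  · intro z
    rw [← h.range z]
    constructor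
    · rintro ⟨f, hf, hwf, hac⟩
      exact ⟨σ f, icl_ne hf, hwf, hac⟩
    · rintro ⟨f, hf, hwf, hac⟩
      refine ⟨σ.symm f, icl_ne hf, ?_, ?_⟩
      · change w (σ (σ.symm f)) = 0
        rw [RingEquiv.apply_symm_apply, hwf]
      · change AC (σ (σ.symm f)) = _
        rw [RingEquiv.apply_symm_apply, hac]

private lemma icl_isac (α : k →+* κ)
    (ha : ∀ c c' : k, σ (algebraMap k K c) = algebraMap k K c' → α c = algebraMap k κ c')
    (hs : IclS k t φ σ) (h : IsAC k V x ac) :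
    @IsAC K Γ _ _ _ k κ r _ _ _ α.toAlgebra (fun f => V (σ f))
      (fun i => σ.symm (x i)) (fun f => ac (σ f)) := by
  refine @IsAC.mk K Γ _ _ _ k κ r _ _ _ α.toAlgebra _ _ _ ?_ ?_ ?_ ?_ ?_ ?_ ?_
  · change ac (σ 0) = 0
    rw [map_zero]
    exact h.zero
  · intro f hf
    exact h.ne _ (icl_ne hf)
  · intro f g
    change ac (σ (f * g)) = _
    rw [map_mul]
    exact h.mul _ _
  · intro c
    change ac (σ (algebraMap k K c)) = _
    obtain ⟨c', hc'⟩ := hs.hk c
    rw [hc']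
    have h1 := h.alg c'
    rw [← ha c c' hc'] at h1
    exact h1
  · intro i
    change ac (σ (σ.symm (x i))) = 1
    rw [RingEquiv.apply_symm_apply]
    exact h.x_one i
  · intro c hc
    obtain ⟨f, hf, hwf, hac⟩ := h.surj c hc
    refine ⟨σ.symm f, icl_ne hf, ?_, ?_⟩
    · change V (σ (σ.symm f)) = 0
      rw [RingEquiv.apply_symm_apply, hwf]
    · change ac (σ (σ.symm f)) = _
      rw [RingEquiv.apply_symm_apply, hac]
  · intro γ f g hf hg
    rw [icl_lc, icl_lc, icl_lc, map_add]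
    exact h.add γ _ _ ((icl_ge σ γ f).mp hf) ((icl_ge σ γ g).mp hg)

private lemma icl_chart (α : k →+* κ)
    (ha : ∀ c c' : k, σ (algebraMap k K c) = algebraMap k K c' → α c = algebraMap k κ c')
    (hs : IclS k t φ σ) (hs' : IclS k t φ σ.symm)
    (h : Chart k p φ t V x ex ac φb N L) :
    @Chart k p K κ Γ _ _ _ _ α.toAlgebra _ _ _ n r φ t (fun f => V (σ f))
      (fun i => σ.symm (x i)) (fun f => ex (σ f)) (fun f => ac (σ f)) φb N
      (fun f => L (σ f)) := by
  refine @Chart.mk k p K κ Γ _ _ _ _ α.toAlgebra _ _ _ n r φ t _ _ _ _ φb N _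
    ?_ (icl_isac α ha hs h.isac) h.pinv h.one ?_ h.fin ?_ ?_ ?_ ?_ ?_ ?_ ?_
  · exact
    { ne := fun i => icl_ne (h.vb.ne i)
      pos := fun i => by
        change 0 < V (σ (σ.symm (x i)))
        rw [RingEquiv.apply_symm_apply]
        exact h.vb.pos i
      indep := fun m hm => by
        apply h.vb.indep m
        simpa only [RingEquiv.apply_symm_apply] using hm
      gen := fun f hf => by
        simp only [RingEquiv.apply_symm_apply]
        exact h.vb.gen _ (icl_ne hf)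
      zero := by
        change ex (σ 0) = 0
        rw [map_zero]
        exact h.vb.zero }
  · intro f hf
    have h1 := h.res (σ f) ((icl_ge σ _ f).mp hf)
    rw [← hs.hφ] at h1
    refine ⟨(icl_ge σ _ _).mpr h1.1, ?_⟩
    rw [icl_lc, icl_lc]
    exact h1.2
  · simp only [RingEquiv.apply_symm_apply]
    exact h.good
  · simp only [RingEquiv.apply_symm_apply]
    exact icl_onch hs h.onch
  · intro q hq
    simp only [RingEquiv.apply_symm_apply]
    obtain ⟨q', hq'⟩ := hs.hB q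
    have h1 : aeval t q' ≠ 0 := by
      rw [← hq']
      exact icl_ne hq
    rw [hq']
    exact h.lead q' h1
  · intro Γ' _ _ _ _ u hu
    obtain ⟨w, hw, hwx⟩ := h.cell Γ' u hu
    refine ⟨fun f => w (σ f), icl_onch hs hw, fun i => ?_⟩
    change w (σ (σ.symm (x i))) = u i
    rw [RingEquiv.apply_symm_apply]
    exact hwx i
  · intro Γ' _ _ _ u w w' hw hw'
    have h1 := h.uniq Γ' u _ _ (icl_onch' hs' hw) (icl_onch' hs' hw')
    funext f
    have := congrFun h1 (σ f)
    simpa only [RingEquiv.symm_apply_apply] using this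
  · intro Γ' _ _ _ _ u w Φ hΦ hu hw
    obtain ⟨AC, hAC⟩ := h.lform Γ' u _ Φ hΦ hu (icl_onch' hs' hw)
    refine ⟨fun f => AC (σ f), ?_⟩
    have := icl_lform α ha hs hAC
    simpa only [RingEquiv.symm_apply_apply] using this
  · obtain ⟨G0, G1, hf0, hf1, h0, h1, hall⟩ := h.unif
    refine ⟨σ.symm '' G0, σ.symm '' G1, hf0.image _, hf1.image _, ?_, ?_, ?_⟩
    · rintro _ ⟨g, hg, rfl⟩
      refine ⟨icl_ne (h0 g hg).1, ?_⟩
      rw [RingEquiv.apply_symm_apply]
      exact (h0 g hg).2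
    · rintro _ ⟨g, hg, rfl⟩
      refine ⟨icl_ne (h1 g hg).1, ?_⟩
      rw [RingEquiv.apply_symm_apply]
      exact (h1 g hg).2
    · intro Γ' _ _ _ w hw hw0 hw1
      obtain ⟨h2, h3⟩ := hall Γ' (fun f => w (σ.symm f)) (icl_inz hs' hw)
        (fun g hg => hw0 _ ⟨g, hg, rfl⟩) (fun g hg => hw1 _ ⟨g, hg, rfl⟩)
      refine ⟨h2, ?_⟩
      have := icl_onch hs h3
      simpa only [RingEquiv.symm_apply_apply] using this

end icl

theorem p_iCL {p m : ℕ} [Fact p.Prime] {k K G : Type} [Field k] [CharP k p] [IsAlgClosed k]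
    [Field K] [Algebra k K] [Group G] (C : Core p m k K G) (hi1 : S_i1 C) : S_iCL C := by
  intro s1 s2 y M hCL
  obtain ⟨hs12, κ, Γ, iF, a1, iA, iO, iOA, V, x, ex, ac, φb, N, L, d, e, hch, hde, hgood, hon, hM⟩
    := hCL
  let α : k →+* κ := (algebraMap k κ).comp (frobenius k p)
  have ha2 : ∀ c : k, α c = algebraMap k κ (c ^ p) := fun c => rfl
  have ha : ∀ c c' : k, C.ι (algebraMap k K c) = algebraMap k K c' →
      α c = algebraMap k κ c' := by
    intro c c' hc
    rw [C.ι_k] at hc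
    rw [ha2, (algebraMap k K).injective hc]
  have hs : IclS k C.t C.φ C.ι :=
    { hk := fun c => ⟨c ^ p, C.ι_k c⟩
      hφ := C.ι_φ
      hB := fun q => by
        obtain ⟨q', hq'⟩ := (hi1.1 (aeval C.t q)).mpr ⟨q, rfl⟩
        exact ⟨q', hq'.symm⟩ }
  have hs' : IclS k C.t C.φ C.ι.symm :=
    { hk := fun c => by
        obtain ⟨c', hc'⟩ := IsAlgClosed.exists_pow_nat_eq c (Nat.Prime.pos (Fact.out : p.Prime))
        refine ⟨c', ?_⟩
        rw [RingEquiv.symm_apply_eq, C.ι_k, hc']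
      hφ := fun f => by
        rw [RingEquiv.symm_apply_eq, C.ι_φ, RingEquiv.apply_symm_apply]
      hB := fun q => by
        obtain ⟨q', hq'⟩ := (hi1.1 (C.ι.symm (aeval C.t q))).mp
          ⟨q, by rw [RingEquiv.apply_symm_apply]⟩
        exact ⟨q', hq'.symm⟩ }
  refine ⟨hs12, κ, Γ, iF, α.toAlgebra, iA, iO, iOA, fun f => V (C.ι f), fun i => C.ι.symm (x i),
    fun f => ex (C.ι f), fun f => ac (C.ι f), φb, N, fun f => L (C.ι f), d, e,
    icl_chart α ha hs hs' hch, hde, hgood, ?_, ?_⟩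
  · intro t ht1 ht2
    obtain ⟨h1, h2⟩ := hon t ht1 ht2
    refine ⟨icl_onch hs h1, fun i => ?_⟩
    change y t (C.ι (C.ι.symm (x i))) = _
    rw [RingEquiv.apply_symm_apply]
    exact h2 i
  · intro f m'
    exact hM (C.ι f) m'

end Pool.Agent.CZW
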