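import Pool.Agent.Lib.MP_305fdd_al.CZ.W.Stm
import Pool.Agent.Lib.MP_305fdd_al.F2.N.Dict

/-!
# MP_305fdd_al, [CZW ib]: the symmetry on the residue field
-/

set_option autoImplicit false

namespace Pool.Agent.CZW

open Pool.Agent.F2Ch Pool.Agent.F2RF Pool.Agent.F2W Pool.Agent.F2PF Pool.Agent.CZ
open Pool.Agent.F2L (FPl)
open Pool.Agent.F2Ch.Dict (ge_add ge_mul lc_mul lc_alg)

section V

variable {K Γ : Type} [Field K] [AddCommGroup Γ] [LinearOrder Γ] [IsOrderedAddMonoid Γ]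
  {v : K → Γ}

private theorem ib_one (hv : IsV v) : v 1 = 0 := by
  have h := hv.mul 1 1 one_ne_zero one_ne_zero
  rw [mul_one] at h
  exact left_eq_add.1 h

private theorem ib_neg_one (hv : IsV v) : v (-1) = 0 := by
  have h := hv.mul (-1) (-1) (neg_ne_zero.2 one_ne_zero) (neg_ne_zero.2 one_ne_zero)
  rw [neg_mul_neg, mul_one, ib_one hv] at h
  rcases lt_trichotomy (v (-1)) 0 with h1 | h1 | h1
  · exact absurd h.symm (add_neg h1 h1).ne
  · exact h1
  · exact absurd h (add_pos h1 h1).ne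

private theorem ib_neg (hv : IsV v) (x : K) : v (-x) = v x := by
  by_cases hx : x = 0
  · rw [hx, neg_zero]
  · have h := hv.mul (-1) x (neg_ne_zero.2 one_ne_zero) hx
    rw [neg_one_mul, ib_neg_one hv, zero_add] at h
    exact h

private theorem ib_inv (hv : IsV v) {x : K} (hx : x ≠ 0) : v x⁻¹ = -v x := by
  have h := hv.mul x x⁻¹ hx (inv_ne_zero hx)
  rw [mul_inv_cancel₀ hx, ib_one hv] at h
  exact (neg_eq_of_add_eq_zero_right h.symm).symm

private theorem ib_pow (hv : IsV v) {x : K} (hx : x ≠ 0) (n : ℕ) : v (x ^ n) = n • v x := by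
  induction n with
  | zero => rw [pow_zero, zero_smul, ib_one hv]
  | succ n ih => rw [pow_succ, hv.mul _ _ (pow_ne_zero n hx) hx, ih, succ_nsmul]

private theorem ib_zpow (hv : IsV v) {x : K} (hx : x ≠ 0) (n : ℤ) : v (x ^ n) = n • v x := by
  cases n with
  | ofNat n =>
    rw [Int.ofNat_eq_natCast, zpow_natCast, ib_pow hv hx, natCast_zsmul]
  | negSucc n =>
    rw [zpow_negSucc, ib_inv hv (pow_ne_zero _ hx), ib_pow hv hx, negSucc_zsmul]

end V

section J

variable {k K κ : Type} [Field k] [Field K] [Algebra k K] [Field κ] [Algebra k κ] {w : K → ℤ}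
  {x : Fin 1 → K} {ac : K → κ}

/-- every residue is the residue of an integral element -/
private theorem ib_lift (hac : IsAC k w x ac) (y : κ) :
    ∃ f : K, Ge w 0 f ∧ lc w ac 0 f = y := by
  by_cases hy : y = 0
  · refine ⟨0, Or.inl rfl, ?_⟩
    unfold lc
    rw [if_neg (fun h => h.1 rfl), hy]
  · obtain ⟨f, hf0, hfw, hfa⟩ := hac.surj y hy
    refine ⟨f, Or.inr hfw.ge, ?_⟩
    unfold lc
    rw [if_pos ⟨hf0, hfw⟩, hfa]

private theorem ib_eq (hw : IsV w) (hac : IsAC k w x ac) {f g : K} (hf : Ge w 0 f)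
    (hg : Ge w 0 g) : lc w ac 0 f = lc w ac 0 g ↔ Gt w 0 (f - g) := by
  have hng : Ge w 0 (-g) := by
    rcases hg with rfl | hg
    · exact Or.inl neg_zero
    · exact Or.inr (by rw [ib_neg hw]; exact hg)
  have h1 : lc w ac 0 (f - g) = lc w ac 0 f - lc w ac 0 g := by
    have h2 := hac.add 0 (f - g) g (by rw [sub_eq_add_neg]; exact ge_add hw hf hng) hg
    rw [sub_add_cancel] at h2
    rw [h2, add_sub_cancel_right]
  have hfg : Ge w 0 (f - g) := by rw [sub_eq_add_neg]; exact ge_add hw hf hng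
  rw [← sub_eq_zero, ← h1]
  unfold lc
  constructor
  · intro h
    by_cases h0 : f - g = 0
    · exact Or.inl h0
    · right
      rcases (hfg.resolve_left h0).lt_or_eq with h2 | h2
      · exact h2
      · rw [if_pos ⟨h0, h2.symm⟩] at h
        exact absurd h (hac.ne _ h0)
  · intro h
    refine if_neg ?_
    rintro ⟨h0, h2⟩
    exact (h.resolve_left h0).ne' h2

/-- an automorphism preserving the valuation acts on the residue field -/
private theorem ib_map (hw : IsV w) (hac : IsAC k w x ac) (e : K ≃+* K)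
    (he : ∀ f, w (e f) = w f) :
    ∃ j : κ → κ, ∀ f, Ge w 0 f → j (lc w ac 0 f) = lc w ac 0 (e f) := by
  have hge : ∀ f, Ge w 0 f → Ge w 0 (e f) := by
    rintro f (rfl | hf)
    · exact Or.inl (map_zero e)
    · exact Or.inr (by rw [he]; exact hf)
  choose s hs1 hs2 using ib_lift hac
  refine ⟨fun y => lc w ac 0 (e (s y)), fun f hf => ?_⟩
  change lc w ac 0 (e (s (lc w ac 0 f))) = _
  rw [ib_eq hw hac (hge _ (hs1 _)) (hge _ hf), ← map_sub]
  have h1 := (ib_eq hw hac (hs1 (lc w ac 0 f)) hf).1 (hs2 _)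
  rcases h1 with h1 | h1
  · exact Or.inl (by rw [h1, map_zero])
  · exact Or.inr (by rw [he]; exact h1)

private theorem ib_equiv (hw : IsV w) (hac : IsAC k w x ac) (e : K ≃+* K)
    (he : ∀ f, w (e f) = w f) :
    ∃ j : κ ≃+* κ, ∀ f, Ge w 0 f → j (lc w ac 0 f) = lc w ac 0 (e f) := by
  have he' : ∀ f, w (e.symm f) = w f := fun f => by
    rw [← he (e.symm f), e.apply_symm_apply]
  have hge : ∀ f, Ge w 0 f → Ge w 0 (e f) := by
    rintro f (rfl | hf)
    · exact Or.inl (map_zero e)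
    · exact Or.inr (by rw [he]; exact hf)
  have hge' : ∀ f, Ge w 0 f → Ge w 0 (e.symm f) := by
    rintro f (rfl | hf)
    · exact Or.inl (map_zero e.symm)
    · exact Or.inr (by rw [he']; exact hf)
  obtain ⟨j, hj⟩ := ib_map hw hac e he
  obtain ⟨j', hj'⟩ := ib_map hw hac e.symm he'
  refine ⟨{ toFun := j, invFun := j', left_inv := ?_, right_inv := ?_, map_mul' := ?_,
            map_add' := ?_ }, hj⟩
  · intro y
    obtain ⟨f, hf, rfl⟩ := ib_lift hac y
    rw [hj f hf, hj' _ (hge f hf), e.symm_apply_apply]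
  · intro y
    obtain ⟨f, hf, rfl⟩ := ib_lift hac y
    rw [hj' f hf, hj _ (hge' f hf), e.apply_symm_apply]
  · intro y z
    obtain ⟨f, hf, rfl⟩ := ib_lift hac y
    obtain ⟨g, hg, rfl⟩ := ib_lift hac z
    rw [← lc_mul hw hac hf hg, hj _ (ge_mul hw hf hg), map_mul,
      lc_mul hw hac (hge f hf) (hge g hg), hj f hf, hj g hg]
  · intro y z
    obtain ⟨f, hf, rfl⟩ := ib_lift hac y
    obtain ⟨g, hg, rfl⟩ := ib_lift hac z
    rw [← hac.add 0 f g hf hg, hj _ (ge_add hw hf hg), map_add,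
      hac.add 0 _ _ (hge f hf) (hge g hg), hj f hf, hj g hg]

/-- the angular component as a homomorphism -/
private theorem ib_ac_zpow (hac : IsAC k w x ac) (f : K) (n : ℤ) : ac (f ^ n) = ac f ^ n := by
  have h1 : ac 1 = 1 := by
    have := hac.alg 1
    rwa [map_one, map_one] at this
  let F : K →*₀ κ := { toFun := ac, map_zero' := hac.zero, map_one' := h1, map_mul' := hac.mul }
  exact map_zpow₀ F f n

end J

/-- [CZW ib] -/
theorem p_ib {p m : ℕ} [Fact p.Prime] {k K G : Type} [Field k] [CharP k p] [IsAlgClosed k]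
    [Field K] [Algebra k K] [Group G] (C : Core p m k K G) : S_ib C := by
  intro κ _ _ w x ac φb hR hι
  have hw := hR.inz.isv
  obtain ⟨j, hj⟩ := ib_equiv hw hR.isac C.ι hι
  have hj0 : ∀ f, w f = 0 → j (ac f) = ac (C.ι f) := by
    intro f hf
    by_cases h0 : f = 0
    · rw [h0, map_zero, hR.isac.zero, map_zero]
    · have h1 := hj f (Or.inr hf.ge)
      unfold lc at h1
      rwa [if_pos ⟨h0, hf⟩, if_pos ⟨(map_ne_zero_iff C.ι C.ι.injective).2 h0,
        by rw [hι]; exact hf⟩] at h1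
  have hjc : ∀ c : k, j (algebraMap k κ c) = algebraMap k κ (c ^ p) := by
    intro c
    rw [← lc_alg hR.inz.triv hR.isac c, hj _ ?_, C.ι_k, lc_alg hR.inz.triv hR.isac]
    exact Or.inr (hR.inz.triv c).ge
  have hjφ : ∀ y, j (φb y) = φb (j y) := by
    intro y
    obtain ⟨f, hf, rfl⟩ := ib_lift hR.isac y
    have hf' : Ge w 0 (C.ι f) := by
      rcases hf with rfl | hf
      · exact Or.inl (map_zero C.ι)
      · exact Or.inr (by rw [hι]; exact hf)
    obtain ⟨h1, h2⟩ := hR.res f hf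
    rw [← h2, hj _ h1, C.ι_φ, (hR.res _ hf').2, hj f hf]
  refine ⟨j, hj, hj0, hjc, hjφ, ?_⟩
  intro c V D δ b hF
  have hjne : ∀ y, y ≠ 0 → j y ≠ 0 := fun y hy => (map_ne_zero_iff j j.injective).2 hy
  have hD := hF.plc.isv
  have hx0 : C.ι (x 0) ≠ 0 := (map_ne_zero_iff C.ι C.ι.injective).2 hR.ne
  refine ⟨δ * (D (ac (C.ι (x 0))) : ℝ) + b, ⟨⟨⟨?_, ?_, ?_⟩, ?_, ?_⟩, ?_, hF.pos, ?_⟩⟩
  · change D (j 0) = 0
    rw [map_zero, hD.zero]
  · intro y z hy hz
    change D (j (y * z)) = D (j y) + D (j z)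
    rw [map_mul]
    exact hD.mul _ _ (hjne y hy) (hjne z hz)
  · intro y z hy hz hyz
    change min (D (j y)) (D (j z)) ≤ D (j (y + z))
    rw [map_add]
    exact hD.add _ _ (hjne y hy) (hjne z hz) (by rw [← map_add]; exact hjne _ hyz)
  · intro a
    change D (j (algebraMap k κ a)) = 0
    rw [hjc]
    exact hF.plc.triv _
  · obtain ⟨π, hπ0, hπ⟩ := hF.plc.unif
    refine ⟨j.symm π, (map_ne_zero_iff j.symm j.symm.injective).2 hπ0, ?_⟩
    rw [j.apply_symm_apply]
    exact hπ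
  · intro y hy
    change D (j y) ≤ p • D (j (φb y))
    rw [hjφ]
    exact hF.cpt (j y) (by rw [← hjφ]; exact hjne _ hy)
  · intro f hf
    have hιf : C.ι f ≠ 0 := (map_ne_zero_iff C.ι C.ι.injective).2 hf
    change V (C.ι f) = _
    rw [hF.eq _ hιf, hι]
    have hz : x 0 ^ (-(w f)) ≠ 0 := zpow_ne_zero _ hR.ne
    have h1 : w (f * x 0 ^ (-(w f))) = 0 := by
      rw [hw.mul _ _ hf hz, ib_zpow hw hR.ne, hR.val, smul_eq_mul, mul_one, add_neg_cancel]
    have h2 := hj0 _ h1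
    rw [hR.isac.mul, ib_ac_zpow hR.isac, hR.isac.x_one, one_zpow, mul_one, map_mul, map_zpow₀,
      hR.isac.mul, ib_ac_zpow hR.isac] at h2
    have hu : ac (C.ι (x 0)) ≠ 0 := hR.isac.ne _ hx0
    have h3 : D (j (ac f)) = D (ac (C.ι f)) - w f * D (ac (C.ι (x 0))) := by
      rw [h2, hD.mul _ _ (hR.isac.ne _ hιf) (zpow_ne_zero _ hu), ib_zpow hD hu, smul_eq_mul]
      ring
    congr 1
    refine Prod.ext rfl ?_
    change δ * (D (ac (C.ι f)) : ℝ) + b * (w f : ℝ) =
      δ * (D (j (ac f)) : ℝ) + (δ * (D (ac (C.ι (x 0))) : ℝ) + b) * (w f : ℝ)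
    rw [h3, Int.cast_sub, Int.cast_mul]
    ring

end Pool.Agent.CZW
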