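import Pool.Agent.Lib.MP_305fdd_al.CZ.W.Stm
import Pool.Agent.Lib.MP_305fdd_al.F2.RF.Main
import Pool.Agent.Lib.MP_305fdd_al.F2.W.Main
import Pool.Agent.Lib.MP_305fdd_al.F2.L.P_Ev

/-!
# MP_305fdd_al, [CZW l2]: a second flag
-/

set_option autoImplicit false

namespace Pool.Agent.CZW

open Pool.Agent.F2Ch Pool.Agent.F2RF Pool.Agent.F2W Pool.Agent.F2PF Pool.Agent.CZ
open Pool.Agent.F2L (FPl)

/-- [CZW l2] -/
theorem p_l2 {p m : ℕ} [Fact p.Prime] {k K G : Type} [Field k] [CharP k p] [IsAlgClosed k]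
    [Field K] [Algebra k K] [Group G] (C : Core p m k K G) (hFD0 : S_FD0 C) (hFD3 : S_FD3 C)
    (hFD4 : S_FD4 C) : S_l2 C := by
  intro w hw hN c hcpos V hV
  obtain ⟨κ, i1, i2, x, ac, φb, hR⟩ := hFD0 w hw hN
  obtain ⟨D, δ, b, hD⟩ := hFD3 κ w x ac φb hR c hcpos V hV
  obtain ⟨n', t', ht'⟩ := hR.fg
  obtain ⟨y, ρ0, hMB⟩ := hR.mb
  have hch : CharP κ p := charP_of_injective_algebraMap (algebraMap k κ).injective p
  obtain ⟨D', hD'1, hD'2, hD'3, hD'4, f0, hf0, hf0'⟩ :=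
    t_L11 p k κ n' t' ht' hR.trd y ρ0 hMB.pb φb hR.pinv hR.one
      (fun x ρ hρ => w4 p κ φb hR.log 1 (fun _ => x) ρ ⟨fun _ => r6_ne x ρ hρ, hρ⟩)
      D hD.plc.isv hD.plc.triv hD.plc.unif hD.cpt
  obtain ⟨V', hV', hFPl⟩ := hFD4 κ w x ac φb hR c hcpos D' ⟨hD'1, hD'2, hD'3⟩ hD'4
  refine ⟨V', hV', ?_⟩
  obtain ⟨e1, -⟩ := Pool.Agent.F2L.p_Ev p k K κ w x ac φb hR.inz.isv hR.isac c c hcpos hcpos V V'
    D D' δ 1 b 0 hV.inz.isv.zero hV'.inz.isv.zero hD hFPl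
  rw [e1]
  rintro rfl
  exact hf0' hf0

end Pool.Agent.CZW
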