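import Pool.Agent.Lib.MP_305fdd_al.CZ.W.Stm
import Pool.Agent.Lib.MP_305fdd_al.F2.L.P_Ev
import Pool.Agent.Lib.MP_305fdd_al.F2.RF.Main

/-!
# MP_305fdd_al, [CZW l3]: two pole type flags are equivalent
-/

set_option autoImplicit false

namespace Pool.Agent.CZW

open Pool.Agent.F2Ch Pool.Agent.F2RF Pool.Agent.F2W Pool.Agent.F2PF Pool.Agent.CZ
open Pool.Agent.F2L (FPl)

/-- [CZW l3] -/
theorem p_l3 {p m : ℕ} [Fact p.Prime] {k K G : Type} [Field k] [CharP k p] [IsAlgClosed k]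
    [Field K] [Algebra k K] [Group G] (C : Core p m k K G) (hFD0 : S_FD0 C) (hFD3 : S_FD3 C)
    (hneg : S_neg C) : S_l3 C := by
  intro w hw hN hn c hc hSG V V' hV hPT hV' hPT'
  obtain ⟨κ, i1, i2, x, ac, φb, hR⟩ := hFD0 w hw hN
  obtain ⟨D, δ, b, hD⟩ := hFD3 κ w x ac φb hR c hc V hV
  obtain ⟨D', δ', b', hD'⟩ := hFD3 κ w x ac φb hR c hc V' hV'
  obtain ⟨-, -, A, hA, hAf, hQ⟩ := hneg κ w x ac φb hR hn c hc hSG
  obtain ⟨-, -, -, halg⟩ := hQ V hV hPT D δ b hD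
  obtain ⟨-, -, ⟨a, ha, ha0, hlt⟩, -⟩ := hQ V' hV' hPT' D' δ' b' hD'
  obtain ⟨n', t', ht'⟩ := hR.fg
  have hFF : FF1 k κ := u0 k κ n' t' ht' hR.trd
  by_cases h : D' = D
  · exact (F2L.p_Ev p k K κ w x ac φb hR.inz.isv hR.isac c c hc hc V V' D D' δ δ' b b'
      hV.inz.isv.zero hV'.inz.isv.zero hD hD').1.2 h.symm
  · exact absurd (u8 k κ hFF A hAf D D' hD.plc hD'.plc halg h a ha) (not_le.2 hlt)

end Pool.Agent.CZW
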