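import Pool.Agent.Lib.MP_305fdd_al.CZ.W.Stm

/-!
# MP_305fdd_al, `C_m * Z`, section W, piece l4: two easy facts on flags
-/

set_option autoImplicit false

namespace Pool.Agent.CZW

open Pool.Agent.F2Ch Pool.Agent.F2RF Pool.Agent.F2W Pool.Agent.F2PF Pool.Agent.CZ
open Pool.Agent.F2L (FPl)

private theorem l4_mem {p m : ℕ} [Fact p.Prime] {k K G : Type} [Field k] [CharP k p]
    [IsAlgClosed k] [Field K] [Algebra k K] [Group G] (C : Core p m k K G) (f : K) :
    f ∈ Br k C.t ↔ f ∈ C.B := (C.mem_B f).symm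

/-- a vector of the lexicographic plane with first component `0` -/
private theorem l4_lex (v : ℝ ×ₗ ℝ) (h1 : (ofLex v).1 = 0) (h2 : 0 ≤ (ofLex v).2) : 0 ≤ v := by
  have e : v = toLex (0, (ofLex v).2) := by
    rw [← h1]
    rfl
  rw [e]
  have e0 : (0 : ℝ ×ₗ ℝ) = toLex ((0 : ℝ), (0 : ℝ)) := rfl
  rw [e0, Prod.Lex.toLex_le_toLex]
  exact Or.inr ⟨rfl, h2⟩

private theorem l4_lex' (v : ℝ ×ₗ ℝ) (h1 : 0 < (ofLex v).1) : 0 ≤ v := by
  have e : v = toLex ((ofLex v).1, (ofLex v).2) := rfl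
  rw [e]
  have e0 : (0 : ℝ ×ₗ ℝ) = toLex ((0 : ℝ), (0 : ℝ)) := rfl
  rw [e0, Prod.Lex.toLex_le_toLex]
  exact Or.inl h1

theorem p_l4 {p m : ℕ} [Fact p.Prime] {k K G : Type} [Field k] [CharP k p] [IsAlgClosed k]
    [Field K] [Algebra k K] [Group G] (C : Core p m k K G) (hr2 : S_r2 C) (hrr : S_rr C) :
    S_l4 C := by
  obtain ⟨-, -, -, -, htwo, -⟩ := hrr
  refine ⟨?_, ?_⟩
  · intro w V hw hV hPT f hf hwf
    obtain ⟨μ, hμ⟩ := hPT
    obtain ⟨-, h2, -⟩ := hr2 (ℝ ×ₗ ℝ) V hV.inz (htwo w V hw hV)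
    obtain ⟨hf0, hfB, -⟩ := id hf
    have h3 := hμ f ((l4_mem C f).2 hfB) hf0
    simp only [dot, hwf, mul_zero, one_mul, zero_add] at h3
    rcases lt_or_eq_of_le h3 with h | h
    · exact h
    · exfalso
      have hV0 : V f = 0 := by
        have e : V f = toLex ((ofLex (V f)).1, (ofLex (V f)).2) := rfl
        have e2 : (ofLex (V f)).2 = 0 := h
        rw [e, hV.fst, hwf, e2]
        rfl
      have h4 := h2 f hf hV0.ge
      rw [hV0] at h4
      exact lt_irrefl _ h4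
  · intro w V hw hV hBT l hl
    obtain ⟨-, -, h3⟩ := hr2 (ℝ ×ₗ ℝ) V hV.inz (htwo w V hw hV)
    have hc : ∀ f ∈ Br k C.t, f ≠ 0 → w f = 0 → 0 ≤ c2 V f := by
      rcases hBT with ⟨μ, hμ⟩ | h
      · intro f hf hf0 hwf
        have h4 := hμ f hf hf0
        simp only [dot, hwf, mul_zero, zero_add] at h4
        linarith
      · exact h
    have hV0 : 0 ≤ V (C.T l) := by
      by_cases hT : C.T l = 0
      · rw [hT, hV.inz.isv.zero]
      · rcases lt_or_eq_of_le hl with h | h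
        · refine l4_lex' _ ?_
          rw [hV.fst]
          exact h
        · refine l4_lex _ ?_ ?_
          · rw [hV.fst]
            exact h.symm
          · exact hc _ ((l4_mem C _).2 (C.T_mem l)) hT h.symm
    exact ⟨hV0, (h3 l hV0).1⟩

end Pool.Agent.CZW
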