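import Pool.Agent.Lib.MP_305fdd_al.CZ.W.Stm
import Pool.Agent.Lib.MP_305fdd_al.F2.RF.Main

/-!
# MP_305fdd_al, [CZW l6]: the inequality
-/

set_option autoImplicit false

namespace Pool.Agent.CZW

open Pool.Agent.F2Ch Pool.Agent.F2RF Pool.Agent.F2W Pool.Agent.F2PF Pool.Agent.CZ
open Pool.Agent.F2L (FPl)

/-- [CZW l6] -/
theorem p_l6 {p m : ℕ} [Fact p.Prime] {k K G : Type} [Field k] [CharP k p] [IsAlgClosed k]
    [Field K] [Algebra k K] [Group G] (C : Core p m k K G) (hFD0 : S_FD0 C) (hFD3 : S_FD3 C)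
    (hneg : S_neg C) : S_l6 C := by
  intro w hw hN hinf c hcpos hSG V V' hV hPT hV'
  obtain ⟨κ, i1, i2, x, ac, φb, hR⟩ := hFD0 w hw hN
  obtain ⟨D, δ, b, hD⟩ := hFD3 κ w x ac φb hR c hcpos V hV
  obtain ⟨D', δ', b', hD'⟩ := hFD3 κ w x ac φb hR c hcpos V' hV'
  obtain ⟨-, -, A, hA, hAf, hQ⟩ := hneg κ w x ac φb hR hinf c hcpos hSG
  obtain ⟨-, -, -, halg⟩ := hQ V hV hPT D δ b hD
  obtain ⟨n', t', ht'⟩ := hR.fg
  have hFF : FF1 k κ := u0 k κ n' t' ht' hR.trd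
  obtain ⟨r, s, hr, hs, hin⟩ := u9 k κ hFF A hAf D D' hD.plc hD'.plc halg
  have hr' : (0 : ℝ) < r := by exact_mod_cast hr
  have hs' : (0 : ℝ) < s := by exact_mod_cast hs
  refine ⟨s * δ / (r * δ'), div_pos (mul_pos hs' hD.pos) (mul_pos hr' hD'.pos), ?_⟩
  intro h hh hh0 hhw
  have hmem : ac h ∈ A := by
    rw [hA]
    refine ⟨⟨h, (C.mem_B h).2 hh⟩, Or.inr hhw.ge, ?_⟩
    unfold lc
    rw [if_pos ⟨hh0, hhw⟩]
  have h1 := hin (ac h) hmem (hR.isac.ne h hh0)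
  have h2 : (r : ℝ) * (D (ac h) : ℝ) + (s : ℝ) * (D' (ac h) : ℝ) ≤ 0 := by exact_mod_cast h1
  have e1 : c2 V h = δ * (D (ac h) : ℝ) := by
    unfold c2
    rw [hD.eq h hh0, hhw]
    simp
  have e2 : c2 V' h = δ' * (D' (ac h) : ℝ) := by
    unfold c2
    rw [hD'.eq h hh0, hhw]
    simp
  rw [e1, e2]
  have hδ' := hD'.pos.ne'
  have hr0 := hr'.ne'
  have e3 : δ * (D (ac h) : ℝ) + s * δ / (r * δ') * (δ' * (D' (ac h) : ℝ)) =
      δ / r * ((r : ℝ) * (D (ac h) : ℝ) + (s : ℝ) * (D' (ac h) : ℝ)) := by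
    field_simp
  rw [e3]
  exact mul_nonpos_of_nonneg_of_nonpos (div_pos hD.pos hr').le h2

end Pool.Agent.CZW
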