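import Pool.Agent.Lib.MP_305fdd_al.CZ.W.Stm
import Pool.Agent.Lib.MP_305fdd_al.F2.PF.P_gor
import Pool.Agent.Lib.MP_305fdd_al.F2.PF.P_ext

/-!
# MP_305fdd_al, `C_m * Z`, piece [CZW ld]
-/

set_option autoImplicit false

namespace Pool.Agent.CZW

open Pool.Agent.F2Ch Pool.Agent.F2RF Pool.Agent.F2W Pool.Agent.F2PF Pool.Agent.CZ
open Pool.Agent.F2L (FPl)

private theorem ld_wt_add {Γ : Type} [AddCommGroup Γ] {r : ℕ} (u : Fin r → Γ) (m m' : Fin r → ℤ) :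
    wt u (m + m') = wt u m + wt u m' := by
  simp [wt, add_smul, Finset.sum_add_distrib]

private theorem ld_wt_sub {Γ : Type} [AddCommGroup Γ] {r : ℕ} (u : Fin r → Γ) (m m' : Fin r → ℤ) :
    wt u (m - m') = wt u m - wt u m' := by
  simp [wt, sub_smul, Finset.sum_sub_distrib]

/-- [CZW ld] -/
theorem p_ld {p m : ℕ} [Fact p.Prime] {k K G : Type} [Field k] [CharP k p] [IsAlgClosed k]
    [Field K] [Algebra k K] [Group G] (C : Core p m k K G) (hbas : S_bas C) (hr2 : S_r2 C) :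
    S_ld C := by
  intro Γ _ _ _ V x ex hV hvb
  obtain ⟨_, b2, _, _, _, _, _⟩ := hbas
  have hex : ∀ f f' : K, f ≠ 0 → f' ≠ 0 → ex (f * f') = ex f + ex f' := by
    intro f f' hf hf'
    have h1 := hvb.indep (ex (f * f') - (ex f + ex f')) (by
      rw [ld_wt_sub, ld_wt_add, ← hvb.gen _ (mul_ne_zero hf hf'), ← hvb.gen _ hf,
        ← hvb.gen _ hf', hV.isv.mul _ _ hf hf', sub_self])
    exact sub_eq_zero.1 h1
  have hT : Two V := ⟨x 0, x 1, hvb.ne 0, hvb.ne 1, fun m m' hmm => by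
    have h1 := hvb.indep ![m, m'] (by simpa [wt, Fin.sum_univ_two] using hmm)
    exact ⟨by simpa using congrFun h1 0, by simpa using congrFun h1 1⟩⟩
  obtain ⟨_, hQ, _⟩ := hr2 Γ V hV hT
  have hI : ∀ f f' : K, f ∈ C.I → f' ∈ C.I → f * f' ∈ C.I := by
    rintro f f' ⟨h0, hB, hr⟩ ⟨h0', hB', hr'⟩
    refine ⟨mul_ne_zero h0 h0', C.B.mul_mem hB hB', ?_⟩
    have e : (⟨f * f', C.B.mul_mem hB hB'⟩ : C.B) = ⟨f, hB⟩ * ⟨f', hB'⟩ := rfl
    rw [e, map_mul, hr, zero_mul]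
  obtain ⟨u, hu0, hu⟩ := p_gor {s : ℤ × ℤ | ∃ f ∈ C.I, s = (ex f 0, ex f 1)} (by
    rintro _ ⟨f, hf, rfl⟩ _ ⟨f', hf', rfl⟩
    refine ⟨f * f', hI f f' hf hf', ?_⟩
    rw [hex _ _ hf.1 hf'.1]
    rfl) (by
    rintro ⟨f, hf, he⟩
    have he0 : ex f = 0 := by
      have e0 := (Prod.ext_iff.1 he).1
      have e1 := (Prod.ext_iff.1 he).2
      funext i
      fin_cases i
      · exact e0.symm
      · exact e1.symm
    have hV0 : V f = 0 := by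
      rw [hvb.gen _ hf.1, he0]
      simp [wt]
    have h := hQ f hf hV0.ge
    rw [hV0] at h
    exact lt_irrefl _ h)
  refine ⟨u, hu0, ?_⟩
  have hE := (p_ext K (Br k C.t) {h | ∃ hB : h ∈ C.B, C.res ⟨h, hB⟩ = 0} ?_ ?_ ?_).1
    (fun f => (ex f 0 : ℝ)) (fun f => (ex f 1 : ℝ)) ?_ ?_ u ?_
  · intro f hf hf0
    exact hE f hf hf0
  · rintro a ⟨q, rfl⟩ b ⟨q', rfl⟩
    exact ⟨q * q', map_mul _ _ _⟩
  · rintro a ha f ⟨hB, hr⟩
    have haB : a ∈ C.B := (b2 a).1 ha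
    refine ⟨C.B.mul_mem haB hB, ?_⟩
    have e : (⟨a * f, C.B.mul_mem haB hB⟩ : C.B) = ⟨a, haB⟩ * ⟨f, hB⟩ := rfl
    rw [e, map_mul, hr, mul_zero]
  · exact ⟨C.κ0, ⟨C.κ0.2, C.κ0_res⟩, C.κ0_ne⟩
  · intro f f' hf hf'
    simp only [hex f f' hf hf', Pi.add_apply, Int.cast_add]
  · intro f f' hf hf'
    simp only [hex f f' hf hf', Pi.add_apply, Int.cast_add]
  · rintro f ⟨hB, hr⟩ hf0
    exact hu _ ⟨f, ⟨hf0, hB, hr⟩, rfl⟩

end Pool.Agent.CZW
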