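import Pool.Agent.Lib.MP_305fdd_al.CZ.W.Stm
import Pool.Agent.Lib.MP_305fdd_al.F2.W.A1
import Pool.Agent.Lib.MP_305fdd_al.F2.RF.Main

/-!
# MP_305fdd_al, `C_m * Z`, [CZW neg]: the residue ring and the pole type place
-/

set_option autoImplicit false

namespace Pool.Agent.CZW

open Pool.Agent.F2Ch Pool.Agent.F2RF Pool.Agent.F2W Pool.Agent.F2PF Pool.Agent.CZ
open Pool.Agent.F2L (FPl)

private theorem neg_wpow {K : Type} [Field K] {w : K → ℤ} (hw : IsV w) {a : K} (ha : a ≠ 0)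
    (n : ℕ) : w (a ^ n) = n * w a := by
  induction n with
  | zero =>
    have := hw.mul 1 1 one_ne_zero one_ne_zero
    rw [mul_one] at this
    have h1 : w 1 = 0 := by linarith
    simp [h1]
  | succ n ih =>
    rw [pow_succ, hw.mul _ _ (pow_ne_zero n ha) ha, ih]
    push_cast
    ring

private theorem neg_lc {K κ : Type} [Field K] [Field κ] {w : K → ℤ} {ac : K → κ} {f : K}
    (hf : f ≠ 0) (hwf : w f = 0) : lc w ac 0 f = ac f := by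
  unfold lc
  rw [if_pos ⟨hf, hwf⟩]

private theorem neg_lc' {K κ : Type} [Field K] [Field κ] {w : K → ℤ} {ac : K → κ} {f : K}
    (hf : lc w ac 0 f ≠ 0) : f ≠ 0 ∧ w f = 0 := by
  unfold lc at hf
  by_contra h
  rw [if_neg h] at hf
  exact hf rfl

private theorem neg_mul {K κ : Type} [Field K] [Field κ] {w : K → ℤ} {ac : K → κ} (hw : IsV w)
    (hac : ∀ f g, ac (f * g) = ac f * ac g) (f g : K) (hf : Ge w 0 f) (hg : Ge w 0 g) :
    Ge w 0 (f * g) ∧ lc w ac 0 (f * g) = lc w ac 0 f * lc w ac 0 g := by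
  rcases eq_or_ne f 0 with rfl | hf0
  · refine ⟨Or.inl (zero_mul g), ?_⟩
    unfold lc
    simp
  rcases eq_or_ne g 0 with rfl | hg0
  · refine ⟨Or.inl (mul_zero f), ?_⟩
    unfold lc
    simp
  have hf1 : 0 ≤ w f := hf.resolve_left hf0
  have hg1 : 0 ≤ w g := hg.resolve_left hg0
  have hfg := hw.mul f g hf0 hg0
  refine ⟨Or.inr (by rw [hfg]; exact add_nonneg hf1 hg1), ?_⟩
  unfold lc
  by_cases h1 : w f = 0
  · by_cases h2 : w g = 0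
    · rw [if_pos ⟨mul_ne_zero hf0 hg0, by rw [hfg, h1, h2, add_zero]⟩, if_pos ⟨hf0, h1⟩,
        if_pos ⟨hg0, h2⟩, hac]
    · rw [if_neg (fun h => h2 (by have := h.2; rw [hfg] at this; omega)),
        if_neg (fun h : g ≠ 0 ∧ w g = 0 => h2 h.2), mul_zero]
  · rw [if_neg (fun h => h1 (by have := h.2; rw [hfg] at this; omega)),
      if_neg (fun h : f ≠ 0 ∧ w f = 0 => h1 h.2), zero_mul]

section

variable {p m : ℕ} [Fact p.Prime] {k K G : Type} [Field k] [CharP k p] [IsAlgClosed k]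
  [Field K] [Algebra k K] [Group G] (C : Core p m k K G)

/-- [CZW neg] -/
theorem p_neg (hbas : S_bas C) (hl4 : S_l4 C) : S_neg C := by
  intro κ _ _ w x ac φb hR hneg c hcpos hSG
  obtain ⟨hBs, hBr, -, -, -, -, hI⟩ := hbas
  have hw : IsV w := hR.inz.isv
  have hne : ∀ f : K, w f ≠ 0 → f ≠ 0 := by
    rintro f hf rfl
    exact hf hw.zero
  -- a positive element
  obtain ⟨f1, hf1⟩ : ∃ f : C.B, 0 < w f := by
    unfold SG at hSG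
    push Not at hSG
    obtain ⟨f, hf, -, hf1⟩ := hSG
    refine ⟨⟨f, (hBr f).1 hf⟩, ?_⟩
    have h2 : (0 : ℝ) < (w f : ℝ) := (pos_iff_pos_of_mul_pos hf1).1 hcpos
    exact_mod_cast h2
  obtain ⟨f2, hf2⟩ := hneg
  have hf10 : (f1 : K) ≠ 0 := hne _ hf1.ne'
  have hf20 : (f2 : K) ≠ 0 := hne _ hf2.ne
  have hmul : ∀ (b : C.B) (N : ℕ), (b : K) ≠ 0 → ((b ^ N * C.κ0 : C.B) : K) ≠ 0 ∧
      C.res (b ^ N * C.κ0) = 0 ∧ w ((b ^ N * C.κ0 : C.B) : K) = N * w b + w (C.κ0 : K) := by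
    intro b N hb
    have e : ((b ^ N * C.κ0 : C.B) : K) = (b : K) ^ N * (C.κ0 : K) := by push_cast; rfl
    refine ⟨?_, ?_, ?_⟩
    · rw [e]
      exact mul_ne_zero (pow_ne_zero _ hb) C.κ0_ne
    · rw [map_mul, C.κ0_res, mul_zero]
    · rw [e, hw.mul _ _ (pow_ne_zero _ hb) C.κ0_ne, neg_wpow hw hb]
  have hpos : ∃ f : C.B, (f : K) ≠ 0 ∧ C.res f = 0 ∧ 0 < w f := by
    obtain ⟨h1, h2, h3⟩ := hmul f1 ((w (C.κ0 : K)).natAbs + 1) hf10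
    refine ⟨_, h1, h2, ?_⟩
    rw [h3]
    have h4 := neg_abs_le (w (C.κ0 : K))
    have h5 : (((w (C.κ0 : K)).natAbs + 1 : ℕ) : ℤ) ≤
        (((w (C.κ0 : K)).natAbs + 1 : ℕ) : ℤ) * w f1 := by
      nlinarith
    push_cast at h5 ⊢
    linarith
  have hnegI : ∃ f : C.B, (f : K) ≠ 0 ∧ C.res f = 0 ∧ w f < 0 := by
    obtain ⟨h1, h2, h3⟩ := hmul f2 ((w (C.κ0 : K)).natAbs + 1) hf20
    refine ⟨_, h1, h2, ?_⟩
    rw [h3]
    have h4 := le_abs_self (w (C.κ0 : K))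
    have h5 : (((w (C.κ0 : K)).natAbs + 1 : ℕ) : ℤ) * w f2 ≤
        (((w (C.κ0 : K)).natAbs + 1 : ℕ) : ℤ) * (-1) :=
      mul_le_mul_of_nonneg_left (by omega) (by positivity)
    push_cast at h5 ⊢
    linarith
  obtain ⟨fp, hfp0, hfpr, hfpw⟩ := hpos
  obtain ⟨fn, hfn0, hfnr, hfnw⟩ := hnegI
  have hfrac : ∀ f : K, ∃ a b : C.B, (b : K) ≠ 0 ∧ f * b = a := by
    intro f
    obtain ⟨a, ha, b, hb, hb0, hab⟩ := hBs.frac f
    exact ⟨⟨a, (hBr a).1 ha⟩, ⟨b, (hBr b).1 hb⟩, hb0, hab⟩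
  obtain ⟨A, hA, hAf⟩ := F2W.p_A1 k K κ C.B hfrac w hw hR.inz.triv ⟨f1, hf1⟩ ⟨f2, hf2⟩ 1 x ac
    hR.isac
  refine ⟨⟨fp, (hI fp).2 ⟨hfp0, hfpr⟩, hfpw⟩, ⟨fn, (hI fn).2 ⟨hfn0, hfnr⟩, hfnw⟩, A, hA, hAf, ?_⟩
  intro V hV hPT D δ b hD
  have hDI : ∀ f ∈ C.I, w f = 0 → D (ac f) < 0 := by
    intro f hf hwf
    have h1 : c2 V f < 0 := by
      refine hl4.1 _ V ⟨(fp : K), ?_⟩ hV hPT f hf (by rw [hwf]; simp)
      have : (0 : ℝ) < (w (fp : K) : ℝ) := by exact_mod_cast hfpw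
      exact (mul_pos hcpos this).ne'
    have h2 : c2 V f = δ * (D (ac f) : ℝ) := by
      unfold c2
      rw [hD.eq f hf.1, hwf]
      simp
    rw [h2] at h1
    have h3 : (D (ac f) : ℝ) < 0 := by
      by_contra hcon
      push Not at hcon
      have := mul_nonneg hD.pos.le hcon
      linarith
    exact_mod_cast h3
  -- the ideal
  set Q : Set κ := {z | ∃ f : C.B, C.res f = 0 ∧ Ge w 0 (f : K) ∧ lc w ac 0 (f : K) = z} with hQ
  have hQA : ∀ h ∈ Q, h ∈ A := by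
    rintro h ⟨f, -, hf, rfl⟩
    exact (hA _).2 ⟨f, hf, rfl⟩
  have hQmul : ∀ a ∈ A, ∀ h ∈ Q, a * h ∈ Q := by
    rintro a ha h ⟨f, hf, hf', rfl⟩
    obtain ⟨g, hg, rfl⟩ := (hA _).1 ha
    have h1 := neg_mul hw hR.isac.mul g f hg hf'
    exact ⟨g * f, by rw [map_mul, hf, mul_zero], h1.1, h1.2⟩
  have hQneg : ∀ h ∈ Q, h ≠ 0 → D h < 0 := by
    rintro h ⟨f, hf, -, rfl⟩ h0
    obtain ⟨hf0, hwf⟩ := neg_lc' h0
    rw [neg_lc hf0 hwf]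
    exact hDI f ((hI f).2 ⟨hf0, hf⟩) hwf
  have hQne : ∃ h ∈ Q, h ≠ 0 := by
    obtain ⟨a, ha⟩ : ∃ a : ℕ, w (fp : K) = a + 1 := ⟨(w (fp : K) - 1).toNat, by omega⟩
    obtain ⟨e, he⟩ : ∃ e : ℕ, w (fn : K) = -((e : ℤ) + 1) := ⟨(-w (fn : K) - 1).toNat, by omega⟩
    have hfb := pow_ne_zero (e + 1) hfp0
    have hga := pow_ne_zero (a + 1) hfn0
    have hF0 : ((fp ^ (e + 1) * fn ^ (a + 1) : C.B) : K) ≠ 0 := by
      push_cast
      exact mul_ne_zero hfb hga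
    have hFw : w ((fp ^ (e + 1) * fn ^ (a + 1) : C.B) : K) = 0 := by
      push_cast
      rw [hw.mul _ _ hfb hga, neg_wpow hw hfp0, neg_wpow hw hfn0, ha, he]
      push_cast
      ring
    refine ⟨ac ((fp ^ (e + 1) * fn ^ (a + 1) : C.B) : K), ⟨fp ^ (e + 1) * fn ^ (a + 1), ?_,
      Or.inr hFw.ge, neg_lc hF0 hFw⟩, hR.isac.ne _ hF0⟩
    rw [map_mul, map_pow, hfpr, pow_succ, mul_zero, zero_mul]
  obtain ⟨hle, hlt⟩ := F2RF.u10 κ ℤ A.toSubring Q D hD.plc.isv hQA hQne hQmul hQneg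
  obtain ⟨n', t', hfg⟩ := hR.fg
  have hFF : FF1 k κ := F2RF.u0 k κ n' t' hfg hR.trd
  exact ⟨hDI, hle, hlt, fun a ha h0 h1 => F2RF.u7 k κ hFF A D hD.plc hle a ha h0 h1⟩

end

end Pool.Agent.CZW
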