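import Pool.Agent.Lib.MP_305fdd_al.CZ.W.Stm

/-!
# MP_305fdd_al, `C_m * Z`, section W: a compatible valuation which is nonnegative on `B` is `ord_R`
-/

set_option autoImplicit false

namespace Pool.Agent.CZW

open Pool.Agent.F2Ch Pool.Agent.F2RF Pool.Agent.F2W Pool.Agent.F2PF Pool.Agent.CZ
open Pool.Agent.F2L (FPl)

section
variable {K Γ : Type} [Field K] [AddCommGroup Γ] [LinearOrder Γ]
  [IsOrderedAddMonoid Γ] {v : K → Γ}

private theorem r9_one (hv : IsV v) : v 1 = 0 := by
  have h1 := hv.mul 1 1 one_ne_zero one_ne_zero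
  rw [mul_one] at h1
  exact (add_eq_left.1 h1.symm)

private theorem r9_zpow (hv : IsV v) {x : K} (hx : x ≠ 0) (n : ℤ) : v (x ^ n) = n • v x := by
  have hpow : ∀ m : ℕ, v (x ^ m) = m • v x := by
    intro m
    induction m with
    | zero => rw [pow_zero, zero_nsmul, r9_one hv]
    | succ m ih => rw [pow_succ, hv.mul _ _ (pow_ne_zero m hx) hx, ih, succ_nsmul]
  obtain ⟨k, rfl | rfl⟩ := n.eq_nat_or_neg
  · rw [zpow_natCast, natCast_zsmul, hpow]
  · have h1 : x ^ (-(k : ℤ)) * x ^ k = 1 := by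
      rw [zpow_neg, zpow_natCast, inv_mul_cancel₀ (pow_ne_zero _ hx)]
    have h2 := hv.mul (x ^ (-(k : ℤ))) (x ^ k) (zpow_ne_zero _ hx) (pow_ne_zero _ hx)
    rw [h1, r9_one hv, hpow] at h2
    rw [neg_zsmul, natCast_zsmul]
    exact eq_neg_of_add_eq_zero_left h2.symm

end

theorem p_r9 {p m : ℕ} [Fact p.Prime] {k K G : Type} [Field k] [CharP k p] [IsAlgClosed k]
    [Field K] [Algebra k K] [Group G] (C : Core p m k K G) (hbas : S_bas C) : S_r9 C := by
  obtain ⟨hBs, hmem, h01, -, -, -, -⟩ := hbas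
  have key : ∀ (Γ : Type) [AddCommGroup Γ] [LinearOrder Γ] [IsOrderedAddMonoid Γ] (v : K → Γ),
      InZ k p C.φ v → (∃ f, v f ≠ 0) → (∀ f ∈ Br k C.t, f ≠ 0 → 0 ≤ v f) →
      0 < v (C.κ0 : K) ∧ ∀ f, v f = C.R f • v (C.κ0 : K) := by
    intro Γ _ _ _ v hin hne hge0
    have hv : IsV v := hin.1
    have hge : ∀ f : C.B, (f : K) = 0 ∨ 0 ≤ v (f : K) := by
      intro f
      by_cases hf : (f : K) = 0
      · exact Or.inl hf
      · exact Or.inr (hge0 f ((hmem _).2 f.2) hf)
    -- elements of positive value restrict to zero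
    have hA : ∀ f : C.B, 0 < v (f : K) → C.res f = 0 := by
      intro f hf
      have hf0 : (f : K) ≠ 0 := by
        intro h
        rw [h, hv.zero] at hf
        exact lt_irrefl _ hf
      have hc : ∀ n : ℤ, (C.res f).coeff n = 0 := by
        intro n
        obtain ⟨h, hh⟩ := C.res_surj (AddMonoidAlgebra.single (-n) 1)
        have h1 : Gt v 0 ((f * h : C.B) : K) := by
          show Gt v 0 ((f : K) * (h : K))
          rcases hge h with h2 | h2
          · left; rw [h2, mul_zero]
          · by_cases h3 : (h : K) = 0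
            · left; rw [h3, mul_zero]
            · right
              rw [hv.mul _ _ hf0 h3]
              exact add_pos_of_pos_of_nonneg hf h2
        have h2 := h01 Γ v hin (f * h) h1
        rw [map_mul, hh] at h2
        unfold cs at h2
        rw [AddMonoidAlgebra.coeff_mul_single_eq_coeff_mul n
          (fun m' _ => by constructor <;> intro h <;> omega), mul_one] at h2
        exact h2
      ext n
      rw [hc n]
      rfl
    have hB : ∀ a : C.B, C.res a ≠ 0 → (a : K) ≠ 0 ∧ v (a : K) = 0 := by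
      intro a ha
      have ha0 : (a : K) ≠ 0 := by
        intro h
        apply ha
        have : a = 0 := Subtype.ext h
        rw [this, map_zero]
      refine ⟨ha0, ?_⟩
      have h3 : 0 ≤ v (a : K) := (hge a).resolve_left ha0
      refine le_antisymm ?_ h3
      exact le_of_not_gt fun h4 => ha (hA a h4)
    have hval : ∀ (f : K) (n : ℤ) (a b : C.B), f ≠ 0 → C.res a ≠ 0 → C.res b ≠ 0 →
        f * b = (C.κ0 : K) ^ n * a → v f = n • v (C.κ0 : K) := by
      intro f n a b hf ha hb h
      obtain ⟨ha0, hva⟩ := hB a ha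
      obtain ⟨hb0, hvb⟩ := hB b hb
      have h3 := congrArg v h
      rw [hv.mul _ _ hf hb0, hv.mul _ _ (zpow_ne_zero n C.κ0_ne) ha0, hva, hvb,
        r9_zpow hv C.κ0_ne, add_zero, add_zero] at h3
      exact h3
    -- there is an element of `B` of positive value
    obtain ⟨g, hg⟩ : ∃ g : C.B, 0 < v (g : K) := by
      obtain ⟨f, hf⟩ := hne
      have hf0 : f ≠ 0 := by
        rintro rfl
        exact hf hv.zero
      obtain ⟨a, haB, b, hbB, hb0, hab⟩ := hBs.frac f
      have ha0 : a ≠ 0 := by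
        rw [← hab]
        exact mul_ne_zero hf0 hb0
      have h3 := congrArg v hab
      rw [hv.mul _ _ hf0 hb0] at h3
      have h4 : 0 ≤ v a := hge0 a haB ha0
      have h5 : 0 ≤ v b := hge0 b hbB hb0
      rcases h4.lt_or_eq with h6 | h6
      · exact ⟨⟨a, (hmem a).1 haB⟩, h6⟩
      · rcases h5.lt_or_eq with h7 | h7
        · exact ⟨⟨b, (hmem b).1 hbB⟩, h7⟩
        · rw [← h6, ← h7, add_zero] at h3
          exact absurd h3 hf
    have hg0 : (g : K) ≠ 0 := by
      intro h
      rw [h, hv.zero] at hg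
      exact lt_irrefl _ hg
    have hκ0 : 0 < v (C.κ0 : K) := by
      obtain ⟨n, a, b, ha, hb, hab⟩ := C.hord g hg0
      have h5 := hval g n a b hg0 ha hb hab
      have h3 : 0 ≤ v (C.κ0 : K) := (hge C.κ0).resolve_left C.κ0_ne
      refine lt_of_le_of_ne h3 fun h4 => ?_
      rw [← h4, smul_zero] at h5
      rw [h5] at hg
      exact lt_irrefl _ hg
    refine ⟨hκ0, fun f => ?_⟩
    by_cases hf : f = 0
    · rw [hf, hv.zero, C.R_inz.1.zero, zero_smul]
    · obtain ⟨n, a, b, ha, hb, hab⟩ := C.hord f hf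
      rw [hval f n a b hf ha hb hab, C.R_eq f n a b ha hb hab]
  refine ⟨key, fun v hin hne hge => ?_⟩
  obtain ⟨h1, h2⟩ := key ℝ v hin hne hge
  refine ⟨v (C.κ0 : K), h1, fun f => ?_⟩
  rw [h2 f, zsmul_eq_mul, mul_comm]
  rfl

end Pool.Agent.CZW
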