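import Pool.Agent.Lib.MP_305fdd_al.CZ.W.Stm

set_option autoImplicit false

namespace Pool.Agent.CZW

open Pool.Agent.F2Ch Pool.Agent.F2RF Pool.Agent.F2W Pool.Agent.F2PF Pool.Agent.CZ
open Pool.Agent.F2L (FPl)

private theorem res_iter {k K κ : Type} {p : ℕ} [NeZero p] [Field k] [Field K] [Algebra k K]
    [Field κ] [Algebra k κ] {φ : K → K} {w : K → ℤ} {x : Fin 1 → K} {ac : K → κ} {φb : κ → κ}
    (hR : RFd k p φ w x ac φb) (f : K) (hf : Ge w 0 f) (N : ℕ) :
    Ge w 0 (φ^[N] f) ∧ lc w ac 0 (φ^[N] f) = φb^[N] (lc w ac 0 f) := by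
  induction N with
  | zero => exact ⟨hf, rfl⟩
  | succ N ih =>
    rw [Function.iterate_succ_apply', Function.iterate_succ_apply']
    obtain ⟨h1, h2⟩ := hR.res _ ih.1
    exact ⟨h1, by rw [h2, ih.2]⟩

private theorem res_const {k K κ : Type} {p : ℕ} [NeZero p] [Field k] [Field K] [Algebra k K]
    [Field κ] [Algebra k κ] {φ : K → K} {w : K → ℤ} {x : Fin 1 → K} {ac : K → κ} {φb : κ → κ}
    (hR : RFd k p φ w x ac φb) (c : k) :
    lc w ac 0 (algebraMap k K c) = algebraMap k κ c := by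
  unfold lc
  by_cases hc : c = 0
  · subst hc
    rw [map_zero, map_zero, if_neg (fun h => h.1 rfl)]
  · have h1 : algebraMap k K c ≠ 0 := by
      intro h
      exact hc ((map_eq_zero_iff _ (algebraMap k K).injective).1 h)
    rw [if_pos ⟨h1, hR.inz.triv c⟩]
    exact hR.isac.alg c

theorem p_res {p m : ℕ} [Fact p.Prime] {k K G : Type} [Field k] [CharP k p] [IsAlgClosed k]
    [Field K] [Algebra k K] [Group G] (C : Core p m k K G) (hbas : S_bas C) : S_res C := by
  intro κ _ _ w x ac φb hR f hf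
  have _ := hbas.1
  obtain ⟨N0, hN0⟩ := C.tau f
  refine ⟨N0, fun N hN => ?_⟩
  rw [← (res_iter hR (f : K) hf N).2, hN0 N hN, res_const hR]

end Pool.Agent.CZW
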