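import Pool.Agent.Lib.MP_305fdd_al.CZ.W.Stm

/-!
# MP_305fdd_al, `C_m * Z`, section W: proof of `S_rfw`
-/

set_option autoImplicit false

namespace Pool.Agent.CZW

open Pool.Agent.F2Ch Pool.Agent.F2RF Pool.Agent.F2W Pool.Agent.F2PF Pool.Agent.CZ
open Pool.Agent.F2L (FPl)

/-- values of a multiple -/
private theorem rfw_eq {K : Type} (w : K → ℤ) {c : ℝ} (hc : 0 < c) (n : ℤ) (f : K) :
    c * (w f : ℝ) = c * (n : ℝ) ↔ w f = n := by
  constructor
  · intro h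
    exact_mod_cast mul_left_cancel₀ hc.ne' h
  · intro h
    rw [h]

private theorem rfw_le {K : Type} (w : K → ℤ) {c : ℝ} (hc : 0 < c) (n : ℤ) (f : K) :
    c * (n : ℝ) ≤ c * (w f : ℝ) ↔ n ≤ w f := by
  rw [mul_le_mul_iff_right₀ hc]
  exact Int.cast_le

private theorem rfw_ge {K : Type} [Field K] (w : K → ℤ) {c : ℝ} (hc : 0 < c) (n : ℤ) (f : K) :
    Ge (fun f => c * (w f : ℝ)) (c * (n : ℝ)) f ↔ Ge w n f := by
  unfold Ge
  rw [rfw_le w hc]

private theorem rfw_lc {K κ : Type} [Field K] [Field κ] (w : K → ℤ) (ac : K → κ) {c : ℝ}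
    (hc : 0 < c) (n : ℤ) (f : K) :
    lc (fun f => c * (w f : ℝ)) ac (c * (n : ℝ)) f = lc w ac n f := by
  classical
  unfold lc
  by_cases h : f ≠ 0 ∧ w f = n
  · rw [if_pos h, if_pos ⟨h.1, (rfw_eq w hc n f).2 h.2⟩]
  · rw [if_neg h, if_neg fun h' => h ⟨h'.1, (rfw_eq w hc n f).1 h'.2⟩]

/-- reindexing of a `p`-basis -/
private theorem rfw_pb {p : ℕ} {K ι ι' : Type} [Field K] [Fintype ι] [Fintype ι'] (e : ι' ≃ ι)
    {b : ι → K} {ρ : ι → K → K} (h : IsPB p b ρ) : IsPB p (fun i => b (e i)) (fun i => ρ (e i)) where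
  repr f := by
    rw [Equiv.sum_comp e (fun i => (ρ i f) ^ p * b i)]
    exact h.repr f
  uniq a i := by
    have h1 : ∑ j, a j ^ p * b (e j) = ∑ j, (a (e.symm j)) ^ p * b j := by
      rw [← Equiv.sum_comp e (fun j => (a (e.symm j)) ^ p * b j)]
      exact Finset.sum_congr rfl fun j _ => by rw [Equiv.symm_apply_apply]
    show ρ (e i) (∑ j, a j ^ p * b (e j)) = a i
    rw [h1]
    have h2 := h.uniq (fun j => a (e.symm j)) (e i)
    rw [Equiv.symm_apply_apply] at h2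
    exact h2

theorem p_rfw {p m : ℕ} [Fact p.Prime] {k K G : Type} [Field k] [CharP k p] [IsAlgClosed k]
    [Field K] [Algebra k K] [Group G] (C : Core p m k K G) (hFD0 : S_FD0 C) (hFD3 : S_FD3 C)
    (hFD4 : S_FD4 C) : S_rfw C := by
  intro w hw hd hne
  obtain ⟨γ, hγ, hn⟩ := hd
  obtain ⟨w', c, hc, hi, hN, he⟩ := F2N.exists_norm p C.φ w hw γ (fun f => by
    by_cases hf : f = 0
    · exact ⟨0, by rw [hf, hw.isv.zero]; simp⟩
    · obtain ⟨m, hm⟩ := hn f hf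
      exact ⟨m, by rw [hm, zsmul_eq_mul]⟩) hne
  have he' : w = fun f => c * (w' f : ℝ) := funext he
  subst he'
  obtain ⟨κ, iκ, iA, x, ac, φb, hR⟩ := hFD0 w' hi hN
  have hz : c * ((0 : ℤ) : ℝ) = 0 := by simp
  have hge0 : ∀ f, Ge (fun f => c * (w' f : ℝ)) 0 f ↔ Ge w' 0 f := by
    intro f
    have := rfw_ge w' hc 0 f
    rwa [hz] at this
  have hlc0 : ∀ f, lc (fun f => c * (w' f : ℝ)) ac 0 f = lc w' ac 0 f := by
    intro f
    have := rfw_lc w' ac hc 0 f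
    rwa [hz] at this
  have hw0 : ∀ f, c * (w' f : ℝ) = 0 → w' f = 0 := by
    intro f h
    exact_mod_cast (mul_eq_zero.1 h).resolve_left hc.ne'
  refine ⟨κ, iκ, iA, x, ac, φb, ?_, hR.pinv, hR.one, hR.log, hR.trd, hR.fg, ?_, ?_, ?_, ?_⟩
  · refine ⟨hR.isac.zero, hR.isac.ne, hR.isac.mul, hR.isac.alg, hR.isac.x_one, ?_, ?_⟩
    · intro d hd
      obtain ⟨f, hf, hf0, hfd⟩ := hR.isac.surj d hd
      exact ⟨f, hf, by show c * (w' f : ℝ) = 0; rw [hf0]; simp, hfd⟩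
    · intro δ f g hf hg
      by_cases h : ∃ n : ℤ, δ = c * (n : ℝ)
      · obtain ⟨n, rfl⟩ := h
        rw [rfw_ge w' hc] at hf hg
        rw [rfw_lc w' ac hc, rfw_lc w' ac hc, rfw_lc w' ac hc]
        exact hR.isac.add n f g hf hg
      · have h0 : ∀ f, lc (fun f => c * (w' f : ℝ)) ac δ f = 0 := by
          intro f
          unfold lc
          rw [if_neg]
          rintro ⟨_, h1⟩
          exact h ⟨w' f, h1.symm⟩
        rw [h0, h0, h0, add_zero]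
  · obtain ⟨y, ρ, hMB⟩ := hR.mb
    have hcard : Fintype.card (Fin (p ^ 1)) = Fintype.card (Fin 1 → Fin p) := by
      rw [Fintype.card_fin, Fintype.card_fun, Fintype.card_fin, Fintype.card_fin]
    exact ⟨_, _, rfw_pb (Fintype.equivOfCardEq hcard) hMB.pb⟩
  · intro f hf
    rw [hge0] at hf
    rw [hge0, hlc0, hlc0]
    exact hR.res f hf
  · intro V hV
    obtain ⟨D, δ, b, hD⟩ := hFD3 κ w' x ac φb hR c hc V hV
    refine ⟨D, δ, hD.pos, hD.plc, hD.cpt, ?_⟩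
    intro f hf hf0
    have h1 := hD.eq f hf
    unfold c2
    rw [h1, hw0 f hf0]
    show δ * (D (ac f) : ℝ) + b * ((0 : ℤ) : ℝ) = (D (ac f) : ℝ) * δ
    rw [Int.cast_zero, mul_zero, add_zero, mul_comm]
  · intro D hD hcD
    obtain ⟨V, hV, hF⟩ := hFD4 κ w' x ac φb hR c hc D hD hcD
    refine ⟨V, hV, ?_⟩
    intro f hf hf0
    have h1 := hF.eq f hf
    unfold c2
    rw [h1, hw0 f hf0]
    show 1 * (D (ac f) : ℝ) + 0 * ((0 : ℤ) : ℝ) = (D (ac f) : ℝ)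
    simp

end Pool.Agent.CZW
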