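import Pool.Agent.Lib.MP_305fdd_al.CZ.W.Stm
import Pool.Agent.Lib.MP_305fdd_al.F2.ChMain

/-!
# MP_305fdd_al, `C_m * Z`, section W: piece rk

The residue field of a compatible valuation of rational rank two is `k`.
-/

set_option autoImplicit false

namespace Pool.Agent.CZW

open Pool.Agent.F2Ch Pool.Agent.F2RF Pool.Agent.F2W Pool.Agent.F2PF Pool.Agent.CZ
open Pool.Agent.F2L (FPl)

/-- two independent values: the rank is at least two -/
private theorem rk_rank {K Γ : Type} [Field K] [AddCommGroup Γ] [LinearOrder Γ]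
    [IsOrderedAddMonoid Γ] {V : K → Γ} {r : ℕ} {x : Fin r → K} {ex : K → Fin r → ℤ}
    (h : IsVB V x ex) (hr : Two V) : 2 ≤ r := by
  obtain ⟨x1, x2, h1, h2, hi⟩ := hr
  have e1 := h.gen x1 h1
  have e2 := h.gen x2 h2
  unfold wt at e1 e2
  by_contra hlt
  rcases r with _ | _ | r
  · rw [Finset.univ_eq_empty, Finset.sum_empty] at e1
    have h3 := (hi 1 0 (by rw [e1, smul_zero, zero_smul, add_zero])).1
    exact one_ne_zero h3
  · rw [Fin.sum_univ_one] at e1 e2
    obtain ⟨h3, h4⟩ := hi (ex x2 0) (-(ex x1 0)) (by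
      rw [e1, e2, smul_smul, smul_smul, ← add_smul, neg_mul, mul_comm, add_neg_cancel, zero_smul])
    rw [neg_eq_zero] at h4
    rw [h4, zero_smul] at e1
    have h5 := (hi 1 0 (by rw [e1, smul_zero, zero_smul, add_zero])).1
    exact one_ne_zero h5
  · omega

/-- the residue field is `k` -/
private theorem rk_const {k κ : Type} [Field k] [IsAlgClosed k] [Field κ] [Algebra k κ]
    (h : Algebra.trdeg k κ = 0) (c : κ) : ∃ a : k, algebraMap k κ a = c := by
  have h1 : Algebra.IsAlgebraic k κ := trdeg_eq_zero_iff.1 h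
  have h2 : Algebra.IsIntegral k κ := Algebra.isAlgebraic_iff_isIntegral.1 h1
  exact (IsAlgClosed.algebraMap_bijective_of_isIntegral (k := k) (K := κ)).2 c

theorem p_rk {p m : ℕ} [Fact p.Prime] {k K G : Type} [Field k] [CharP k p] [IsAlgClosed k]
    [Field K] [Algebra k K] [Group G] (C : Core p m k K G) : S_rk C := by
  intro Γ _ _ _ V hV h2
  obtain ⟨r, s, κ, i1, i2, x, ex, ac, φb, N, L, hch, hrs, htr, -, -⟩ :=
    t_X2 p k K Γ C.n C.t C.fracgen 2 C.b0 C.ρ0 C.pb C.φ C.pinv C.one V hV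
  have hr2 := rk_rank hch.vb h2
  obtain rfl : r = 2 := by omega
  obtain rfl : s = 0 := by omega
  refine ⟨?_, x, ex, hch.vb⟩
  intro f hf hf0
  obtain ⟨a, ha⟩ := rk_const (k := k) (κ := κ) (by simpa using htr) (ac f)
  have ha0 : a ≠ 0 := by
    rintro rfl
    rw [map_zero] at ha
    exact hch.isac.ne f hf ha.symm
  refine ⟨a, ha0, ?_⟩
  have hna : algebraMap k K (-a) ≠ 0 := by
    rw [Ne, map_eq_zero]
    exact neg_ne_zero.2 ha0
  have hv : V (algebraMap k K (-a)) = 0 := hV.triv (-a)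
  have h3 := hch.isac.add 0 f (algebraMap k K (-a)) (Or.inr hf0.ge) (Or.inr hv.ge)
  have h4 : lc V ac 0 f = ac f := by
    unfold lc
    rw [if_pos ⟨hf, hf0⟩]
  have h5 : lc V ac 0 (algebraMap k K (-a)) = algebraMap k κ (-a) := by
    unfold lc
    rw [if_pos ⟨hna, hv⟩, hch.isac.alg]
  rw [h4, h5, map_neg, map_neg, ← sub_eq_add_neg, ha, add_neg_cancel] at h3
  by_cases hz : f - algebraMap k K a = 0
  · exact Or.inl hz
  · right
    have hge : 0 ≤ V (f - algebraMap k K a) := by
      have h6 := hV.isv.add f (algebraMap k K (-a)) hf hna (by rwa [map_neg, ← sub_eq_add_neg])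
      rw [hf0, hv, min_self, map_neg, ← sub_eq_add_neg] at h6
      exact h6
    rcases hge.lt_or_eq with h7 | h7
    · exact h7
    · exfalso
      unfold lc at h3
      rw [if_pos ⟨hz, h7.symm⟩] at h3
      exact hch.isac.ne _ hz h3

end Pool.Agent.CZW
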