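import Pool.Agent.Lib.MP_305fdd_al.CZ.W.Stm

/-!
# MP_305fdd_al, `C_m * Z`, section W: piece rr (easy facts)
-/

set_option autoImplicit false

namespace Pool.Agent.CZW

open Pool.Agent.F2Ch Pool.Agent.F2RF Pool.Agent.F2W Pool.Agent.F2PF Pool.Agent.CZ
open Pool.Agent.F2L (FPl)

theorem rr_pow {K Γ : Type} [Field K] [AddCommGroup Γ] [LinearOrder Γ] [IsOrderedAddMonoid Γ]
    {v : K → Γ} (hv : IsV v) (v1 : v 1 = 0) (f : K) (hf : f ≠ 0) (n : ℕ) : v (f ^ n) = n • v f := by
  induction n with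
  | zero => rw [pow_zero, v1, zero_nsmul]
  | succ n ih => rw [pow_succ, hv.mul _ _ (pow_ne_zero _ hf) hf, ih, succ_nsmul]

theorem p_rr {p m : ℕ} [Fact p.Prime] {k K G : Type} [Field k] [CharP k p] [IsAlgClosed k]
    [Field K] [Algebra k K] [Group G] (C : Core p m k K G) (hbas : S_bas C) : S_rr C := by
  obtain ⟨hbs, hmem, -, -, -, -, hI⟩ := hbas
  refine ⟨?_, ?_, ?_, ?_, ?_, ?_⟩
  · -- (1)
    have h := C.R_inz
    refine ⟨⟨?_, ?_, ?_⟩, ?_, ?_⟩
    · show ((C.R 0 : ℤ) : ℝ) = 0
      rw [h.isv.zero]; simp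
    · intro x y hx hy
      show ((C.R (x * y) : ℤ) : ℝ) = (C.R x : ℝ) + (C.R y : ℝ)
      rw [h.isv.mul x y hx hy]; push_cast; rfl
    · intro x y hx hy hxy
      show min ((C.R x : ℤ) : ℝ) ((C.R y : ℤ) : ℝ) ≤ ((C.R (x + y) : ℤ) : ℝ)
      have := h.isv.add x y hx hy hxy
      exact_mod_cast this
    · intro c
      show ((C.R (algebraMap k K c) : ℤ) : ℝ) = 0
      rw [h.triv c]; simp
    · intro f hf
      have := h.compat f hf
      show ((C.R f : ℤ) : ℝ) ≤ p • ((C.R (C.φ f) : ℤ) : ℝ)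
      rw [nsmul_eq_mul] at this ⊢
      exact_mod_cast this
  · -- (2)
    refine ⟨1, one_pos, fun f _ => ⟨C.R f, ?_⟩⟩
    show ((C.R f : ℤ) : ℝ) = _
    rw [zsmul_eq_mul, mul_one]
  · -- (3)
    intro f hf hf0
    have hB := (hmem f).1 hf
    have := C.R_nn ⟨f, hB⟩
    show (0 : ℝ) ≤ ((C.R f : ℤ) : ℝ)
    exact_mod_cast this
  · -- (4)
    intro f hf hf0
    have hB := (hmem f).1 hf
    have h4 := C.R_pos ⟨f, hB⟩ hf0
    have h5 := hI ⟨f, hB⟩
    show (0 : ℝ) < ((C.R f : ℤ) : ℝ) ↔ _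
    rw [show f = ((⟨f, hB⟩ : C.B) : K) from rfl, h5]
    constructor
    · intro h
      exact ⟨hf0, h4.1 (by exact_mod_cast h)⟩
    · intro h
      have := h4.2 h.2
      exact_mod_cast this
  · -- (5)
    intro w V hw hV
    obtain ⟨x1, hx1⟩ := hw
    obtain ⟨x2, hx20, hx2, hc2⟩ := hV.nt
    have h0 : w 0 = 0 := by
      rw [← hV.fst 0, hV.inz.isv.zero]; rfl
    have hx10 : x1 ≠ 0 := by
      rintro rfl
      exact hx1 h0
    refine ⟨x1, x2, hx10, hx20, ?_⟩
    intro a b hab
    have e1 : (ofLex (a • V x1 + b • V x2)).1 = a • (ofLex (V x1)).1 + b • (ofLex (V x2)).1 := rfl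
    have e2 : (ofLex (a • V x1 + b • V x2)).2 = a • (ofLex (V x1)).2 + b • (ofLex (V x2)).2 := rfl
    rw [hab] at e1 e2
    have z1 : (ofLex (0 : ℝ ×ₗ ℝ)).1 = 0 := rfl
    have z2 : (ofLex (0 : ℝ ×ₗ ℝ)).2 = 0 := rfl
    rw [z1, hV.fst, hV.fst, hx2, smul_zero, add_zero] at e1
    have ha : a = 0 := by
      rw [zsmul_eq_mul] at e1
      rcases mul_eq_zero.1 e1.symm with h | h
      · exact_mod_cast h
      · exact absurd h hx1
    subst ha
    rw [z2, zero_smul, zero_add, zsmul_eq_mul] at e2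
    refine ⟨rfl, ?_⟩
    rcases mul_eq_zero.1 e2.symm with h | h
    · exact_mod_cast h
    · exact absurd h hc2
  · -- (6), (7)
    intro w hw hinf
    have w1 : w 1 = 0 := by
      have := hw.triv 1
      rwa [map_one] at this
    obtain ⟨b, hb, hb0, hwb⟩ := hinf
    constructor
    · by_contra hno
      push Not at hno
      have key : ∀ f ∈ Algebra.adjoin k (Set.range C.T), f = 0 ∨ 0 ≤ w f := by
        intro f hf
        induction hf using Algebra.adjoin_induction with
        | mem x hx =>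
          obtain ⟨l, rfl⟩ := hx
          exact Or.inr (hno l)
        | algebraMap c => exact Or.inr (hw.triv c).ge
        | add x y _ _ hx hy =>
          by_cases hx0 : x = 0
          · rw [hx0, zero_add]; exact hy
          by_cases hy0 : y = 0
          · rw [hy0, add_zero]; exact hx
          by_cases hxy : x + y = 0
          · exact Or.inl hxy
          right
          refine le_trans (le_min ?_ ?_) (hw.isv.add x y hx0 hy0 hxy)
          · exact hx.resolve_left hx0
          · exact hy.resolve_left hy0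
        | mul x y _ _ hx hy =>
          by_cases hx0 : x = 0
          · left; rw [hx0, zero_mul]
          by_cases hy0 : y = 0
          · left; rw [hy0, mul_zero]
          right
          rw [hw.isv.mul x y hx0 hy0]
          exact add_nonneg (hx.resolve_left hx0) (hy.resolve_left hy0)
      have hbB : b ∈ Algebra.adjoin k (Set.range C.T) := by
        rw [C.adj]; exact (hmem b).1 hb
      rcases key b hbB with h | h
      · exact hb0 h
      · exact absurd hwb (not_lt.2 h)
    · obtain ⟨n, hn⟩ := exists_nat_gt (w (C.κ0 : K) / (- w b))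
      have hpos : 0 < - w b := by linarith
      have hn' : w (C.κ0 : K) < n * (- w b) := by
        rwa [div_lt_iff₀ hpos] at hn
      have hbn : b ^ n ≠ 0 := pow_ne_zero _ hb0
      have hBn : b ^ n ∈ C.B := C.B.pow_mem ((hmem b).1 hb) n
      have hval : w ((C.κ0 : K) * b ^ n) < 0 := by
        rw [hw.isv.mul _ _ C.κ0_ne hbn, rr_pow hw.isv w1 b hb0, nsmul_eq_mul]
        linarith
      refine ⟨(C.κ0 : K) * b ^ n, ?_, hval⟩
      have := (hI (C.κ0 * ⟨b ^ n, hBn⟩)).2 ⟨?_, ?_⟩
      · exact this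
      · exact mul_ne_zero C.κ0_ne hbn
      · rw [map_mul, C.κ0_res, zero_mul]

end Pool.Agent.CZW
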