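import Pool.Agent.Lib.MP_305fdd_al.CZ.W.P_FC
import Pool.Agent.Lib.MP_305fdd_al.CZ.W.P_FD0
import Pool.Agent.Lib.MP_305fdd_al.CZ.W.P_FD2
import Pool.Agent.Lib.MP_305fdd_al.CZ.W.P_FD3
import Pool.Agent.Lib.MP_305fdd_al.CZ.W.P_FD4
import Pool.Agent.Lib.MP_305fdd_al.CZ.W.P_bas
import Pool.Agent.Lib.MP_305fdd_al.CZ.W.P_dv
import Pool.Agent.Lib.MP_305fdd_al.CZ.W.P_fR0
import Pool.Agent.Lib.MP_305fdd_al.CZ.W.P_fR1
import Pool.Agent.Lib.MP_305fdd_al.CZ.W.P_i1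
import Pool.Agent.Lib.MP_305fdd_al.CZ.W.P_i2
import Pool.Agent.Lib.MP_305fdd_al.CZ.W.P_ib
import Pool.Agent.Lib.MP_305fdd_al.CZ.W.P_iCL
import Pool.Agent.Lib.MP_305fdd_al.CZ.W.P_l2
import Pool.Agent.Lib.MP_305fdd_al.CZ.W.P_l3
import Pool.Agent.Lib.MP_305fdd_al.CZ.W.P_l4
import Pool.Agent.Lib.MP_305fdd_al.CZ.W.P_l6
import Pool.Agent.Lib.MP_305fdd_al.CZ.W.P_ld
import Pool.Agent.Lib.MP_305fdd_al.CZ.W.P_neg
import Pool.Agent.Lib.MP_305fdd_al.CZ.W.P_r2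
import Pool.Agent.Lib.MP_305fdd_al.CZ.W.P_r9
import Pool.Agent.Lib.MP_305fdd_al.CZ.W.P_res
import Pool.Agent.Lib.MP_305fdd_al.CZ.W.P_rfw
import Pool.Agent.Lib.MP_305fdd_al.CZ.W.P_rk
import Pool.Agent.Lib.MP_305fdd_al.CZ.W.P_rr
import Pool.Agent.Lib.MP_305fdd_al.CZ.E.Ifc

/-!
# MP_305fdd_al, `C_m * Z`, section W: all local facts, proved
-/

set_option autoImplicit false

namespace Pool.Agent.CZW

open Pool.Agent.F2Ch Pool.Agent.F2RF Pool.Agent.F2W Pool.Agent.F2PF Pool.Agent.CZ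
open Pool.Agent.F2L (FPl)

section

variable {p m : ℕ} [Fact p.Prime] {k K G : Type} [Field k] [CharP k p] [IsAlgClosed k]
  [Field K] [Algebra k K] [Group G] (C : Core p m k K G)

theorem t_bas : S_bas C := p_bas C
theorem t_rr : S_rr C := p_rr C (t_bas C)
theorem t_rk : S_rk C := p_rk C
theorem t_r2 : S_r2 C := p_r2 C (t_bas C) (t_rk C)
theorem t_r9 : S_r9 C := p_r9 C (t_bas C)
theorem t_fR0 : S_fR0 C := p_fR0 C (t_bas C)
theorem t_fR1 : S_fR1 C := p_fR1 C (t_bas C) (t_rr C) (t_r9 C)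
theorem t_ld : S_ld C := p_ld C (t_bas C) (t_r2 C)
theorem t_dv : S_dv C := p_dv C (t_ld C) (t_rr C) (t_rk C)
theorem t_l4 : S_l4 C := p_l4 C (t_r2 C) (t_rr C)
theorem t_FD0 : S_FD0 C := p_FD0 C
theorem t_FD3 : S_FD3 C := p_FD3 C p_FD2
theorem t_FD4 : S_FD4 C := p_FD4 C p_FC
theorem t_l2 : S_l2 C := p_l2 C (t_FD0 C) (t_FD3 C) (t_FD4 C)
theorem t_neg : S_neg C := p_neg C (t_bas C) (t_l4 C)
theorem t_l3 : S_l3 C := p_l3 C (t_FD0 C) (t_FD3 C) (t_neg C)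
theorem t_l6 : S_l6 C := p_l6 C (t_FD0 C) (t_FD3 C) (t_neg C)
theorem t_i1 : S_i1 C := p_i1 C
theorem t_i2 : S_i2 C := p_i2 C (t_i1 C) (t_bas C) (t_rr C) (t_r9 C)
theorem t_iCL : S_iCL C := p_iCL C (t_i1 C)
theorem t_res : S_res C := p_res C (t_bas C)
theorem t_ib : S_ib C := p_ib C
theorem t_rfw : S_rfw C := p_rfw C (t_FD0 C) (t_FD3 C) (t_FD4 C)

/-- real divisorial points as multiples of normalised ones -/
theorem to_int {w : K → ℝ} (hw : InZ k p C.φ w) (hd : Dv w) (h0 : ∃ f, w f ≠ 0) :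
    ∃ (w' : K → ℤ) (c : ℝ), 0 < c ∧ InZ k p C.φ w' ∧ F2N.Nrm w' ∧
      w = fun f => c * (w' f : ℝ) := by
  obtain ⟨γ, hγ, hn⟩ := hd
  obtain ⟨w', c, hc, hi, hN, he⟩ := F2N.exists_norm p C.φ w hw γ (fun f => by
    by_cases hf : f = 0
    · exact ⟨0, by rw [hf, hw.isv.zero]; simp⟩
    · obtain ⟨m, hm⟩ := hn f hf
      exact ⟨m, by rw [hm, zsmul_eq_mul]⟩) h0
  exact ⟨w', c, hc, hi, hN, funext he⟩

theorem mul_neg_int {c : ℝ} (hc : 0 < c) {n : ℤ} (h : c * (n : ℝ) < 0) : n < 0 := by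
  by_contra hn
  push Not at hn
  have : (0 : ℝ) ≤ c * (n : ℝ) := mul_nonneg hc.le (by exact_mod_cast hn)
  linarith

theorem loc : Loc C := by
  obtain ⟨hbs, hmem, htau, htle, htI, htT, hI⟩ := t_bas C
  obtain ⟨hrinz, hrdv, hrnn, hrI, htwo, hinf⟩ := t_rr C
  obtain ⟨hiB, hiI, hires, hiN⟩ := t_i1 C
  obtain ⟨hiinz, hiR, hiflag, hidv, hisg, hiinf, hile, hipr, hipt, hibt, hieqv, hidr, hione⟩ :=
    t_i2 C
  have hneg : ∀ (w' : K → ℤ) (c : ℝ), 0 < c → AtInf (Br k C.t) (fun f => c * (w' f : ℝ)) →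
      ∃ f : C.B, w' f < 0 := by
    rintro w' c hc ⟨f, hf, hf0, h⟩
    exact ⟨⟨f, (hmem f).1 hf⟩, mul_neg_int hc h⟩
  have hw0 : ∀ w : K → ℝ, AtInf (Br k C.t) w → ∃ f, w f ≠ 0 := fun w ⟨f, _, _, h⟩ => ⟨f, h.ne⟩
  refine
    { bs := hbs, mem := hmem, rinz := hrinz, rdv := hrdv, rnn := hrnn, rI := hrI
      tau0 := htau, tle := htle, tI := htI
      r2 := t_r2 C, two := htwo
      r9g := (t_r9 C).1, r9 := (t_r9 C).2
      inf := hinf
      fR0 := ?_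
      fR1 := (t_fR1 C).1, fR2 := (t_fR1 C).2
      ld := t_ld C, dv := t_dv C
      l2 := ?_, l3 := ?_, l6 := ?_
      pI := (t_l4 C).1, l4 := (t_l4 C).2
      i_B := hiB, i_I := hiI, i_res := hires, i_N := hiN, i_inz := hiinz, i_R := hiR
      i_flag := hiflag, i_dv := hidv, i_sg := hisg, i_inf := hiinf, i_le := hile
      i_pr := hipr, i_pt := hipt, i_bt := hibt, i_eqv := hieqv, i_one := hione
      i_cl := t_iCL C, i_dr := hidr }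
  · obtain ⟨V, hV, h1, h2⟩ := t_fR0 C
    refine ⟨V, hV, by have := hiflag _ _ hV; rwa [hiR] at this, fun f hf => ⟨h1 f hf, ?_⟩⟩
    obtain ⟨f', hf', hn⟩ := hires f
    have h3 : C.res f' = AddMonoidAlgebra.single (-1) 1 := by
      ext n
      rw [hn, hf]
      simp only [AddMonoidAlgebra.coeff_single, Finsupp.single_apply]
      by_cases h : n = -1
      · subst h
        simp
      · rw [if_neg (by omega), if_neg (by omega), zero_pow (Fact.out : p.Prime).ne_zero]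
    have h4 := h2 f' h3
    rw [hf'] at h4
    exact h4
  · intro w hw hd h0 V hV
    obtain ⟨w', c, hc, hi, hN, rfl⟩ := to_int C hw hd h0
    exact t_l2 C w' hi hN c hc V hV
  · intro w hw hd ha hsg V V' hV hP hV' hP'
    obtain ⟨w', c, hc, hi, hN, rfl⟩ := to_int C hw hd (hw0 w ha)
    exact t_l3 C w' hi hN (hneg w' c hc ha) c hc hsg V V' hV hP hV' hP'
  · intro w hw hd ha hsg V V' hV hP hV'
    obtain ⟨w', c, hc, hi, hN, rfl⟩ := to_int C hw hd (hw0 w ha)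
    obtain ⟨ρ, hρ, h⟩ := t_l6 C w' hi hN (hneg w' c hc ha) c hc hsg V V' hV hP hV'
    refine ⟨ρ, hρ, fun f hf hf0 hw0 => h f hf hf0 ?_⟩
    have h2 := (mul_eq_zero.1 hw0).resolve_left hc.ne'
    exact_mod_cast h2

end

theorem i_pos : I_pos := by
  intro p m _ k K G _ _ _ _ _ _ C Γ _ _ _ V hV f _ h
  exact (t_bas C).2.2.1 Γ V hV f (Or.inr h)

theorem i_rk : I_rk := by
  intro p m _ k K G _ _ _ _ _ _ C Γ _ _ _ V hV h2
  exact (t_rk C Γ V hV h2).1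

theorem i_rfw : I_rfw := by
  intro p m _ k K G _ _ _ _ _ _ C
  exact t_rfw C

end Pool.Agent.CZW
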