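import Pool.Agent.Lib.MP_305fdd_al.CZ.Defs
import Pool.Agent.Lib.MP_305fdd_al.F2.L.Stm
import Pool.Agent.Lib.MP_305fdd_al.F2.N.Main
import Pool.Agent.Lib.MP_305fdd_al.F2.PF.DefsB

/-!
# MP_305fdd_al, `C_m * Z`, section W (local facts at the compatible valuations): definitions

`C : Core p m k K G`, `B = C.B = Br k C.t`, `T = C.T`.  The flags, `SG`, `PT`, `BT`, `Dv`, .. are those of `F2/PF/DefsB.lean` (for `φ = C.φ` and the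
generators `C.t`).  `Loc C` is the list of all the local facts.
-/

set_option autoImplicit false

namespace Pool.Agent.CZW

open Pool.Agent.F2Ch Pool.Agent.F2RF Pool.Agent.F2W Pool.Agent.F2PF Pool.Agent.CZ

/-- `w` is a normalised compatible discrete valuation of a field of transcendence degree two, `κ` its residue field, `ac` an angular component, `φb` the
residual map.  (As `F2L.RFd`, one dimension lower, with a `p`-basis of `κ`.) -/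
structure RFd (k : Type) (p : ℕ) [NeZero p] {K κ : Type} [Field k] [Field K] [Algebra k K]
    [Field κ] [Algebra k κ] (φ : K → K) (w : K → ℤ) (x : Fin 1 → K) (ac : K → κ) (φb : κ → κ) :
    Prop where
  inz : InZ k p φ w
  ne : x 0 ≠ 0
  val : w (x 0) = 1
  isac : IsAC k w x ac
  pinv : IsPinv p φb
  one : φb 1 = 1
  res : ∀ f, Ge w 0 f → Ge w 0 (φ f) ∧ lc w ac 0 (φ f) = φb (lc w ac 0 f)
  trd : Algebra.trdeg k κ = 1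
  fg : ∃ (n' : ℕ) (t' : Fin n' → κ), FracGen k t'
  log : LogTy p φb
  mb : ∃ (y : Fin 1 → κ) (ρ : (Fin 1 → Fin p) → κ → κ), MB p y ρ

/-- two values are independent over `ℤ` -/
def Two {K Γ : Type} [Field K] [AddCommGroup Γ] (V : K → Γ) : Prop :=
  ∃ x1 x2 : K, x1 ≠ 0 ∧ x2 ≠ 0 ∧ ∀ m m' : ℤ, m • V x1 + m' • V x2 = 0 → m = 0 ∧ m' = 0

section

variable {p m : ℕ} [Fact p.Prime] {k K G : Type} [Field k] [CharP k p] [IsAlgClosed k]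
  [Field K] [Algebra k K] [Group G] (C : Core p m k K G)

/-- `z + 1/z`, `z = χ l`, the value of `T l` on the reducible locus if `ν l = 0` -/
noncomputable def ez (l : G) : K :=
  algebraMap k K (C.χ l : k) + algebraMap k K (((C.χ l)⁻¹ : kˣ) : k)

/-- THE LOCAL FACTS. -/
structure Loc : Prop where
  /-- basic facts -/
  bs : Bs (Br k C.t)
  mem : ∀ f, f ∈ Br k C.t ↔ f ∈ C.B
  rinz : InZ k p C.φ C.RR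
  rdv : Dv C.RR
  rnn : ∀ f ∈ Br k C.t, f ≠ 0 → 0 ≤ C.RR f
  rI : ∀ f ∈ Br k C.t, f ≠ 0 → (0 < C.RR f ↔ f ∈ C.I)
  /-- (0.1) -/
  tau0 : ∀ (Γ : Type) [AddCommGroup Γ] [LinearOrder Γ] [IsOrderedAddMonoid Γ] (V : K → Γ),
    InZ k p C.φ V → ∀ f : C.B, Gt V 0 (f : K) → cs (C.res f) = 0
  tle : ∀ (Γ : Type) [AddCommGroup Γ] [LinearOrder Γ] [IsOrderedAddMonoid Γ] (V : K → Γ),
    InZ k p C.φ V → ∀ l, C.ν l ≠ 1 → C.T l ≠ 0 ∧ V (C.T l) ≤ 0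
  tI : ∀ l, C.ν l = 1 → C.T l = ez C l ∨ C.T l - ez C l ∈ C.I
  /-- (0.2) -/
  r2 : ∀ (Γ : Type) [AddCommGroup Γ] [LinearOrder Γ] [IsOrderedAddMonoid Γ] (V : K → Γ),
    InZ k p C.φ V → Two V →
    (∀ f : C.B, (f : K) ≠ 0 → cs (C.res f) = 0 → V f ≠ 0) ∧ (∀ f ∈ C.I, 0 ≤ V f → 0 < V f) ∧
    ∀ l, 0 ≤ V (C.T l) → C.ν l = 1 ∧ Gt V 0 (C.T l - ez C l)
  two : ∀ (w : K → ℝ) (V : K → ℝ ×ₗ ℝ), (∃ f, w f ≠ 0) → Flag k p C.φ w V → Two V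
  /-- (0.3) -/
  r9g : ∀ (Γ : Type) [AddCommGroup Γ] [LinearOrder Γ] [IsOrderedAddMonoid Γ] (v : K → Γ),
    InZ k p C.φ v → (∃ f, v f ≠ 0) → (∀ f ∈ Br k C.t, f ≠ 0 → 0 ≤ v f) →
    0 < v (C.κ0 : K) ∧ ∀ f, v f = C.R f • v (C.κ0 : K)
  r9 : ∀ v : K → ℝ, InZ k p C.φ v → (∃ f, v f ≠ 0) → (∀ f ∈ Br k C.t, f ≠ 0 → 0 ≤ v f) →
    Pr C.RR v
  /-- (0.4) -/
  inf : ∀ w : K → ℝ, InZ k p C.φ w → AtInf (Br k C.t) w →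
    (∃ l, w (C.T l) < 0) ∧ ∃ f ∈ C.I, w f < 0
  /-- flags at `ord_R` -/
  fR0 : ∃ V, Flag k p C.φ C.RR V ∧ Flag k p C.φ C.RR (C.tw V) ∧
    ∀ f : C.B, C.res f = AddMonoidAlgebra.single 1 1 → 0 < V f ∧ C.tw V f < 0
  fR1 : ∀ V, Flag k p C.φ C.RR V → ∀ f : C.B, C.res f = AddMonoidAlgebra.single 1 1 → V f ≠ 0
  fR2 : ∀ V V', Flag k p C.φ C.RR V → Flag k p C.φ C.RR V' →
    ∀ f : C.B, C.res f = AddMonoidAlgebra.single 1 1 → (0 < V f ↔ 0 < V' f) → Eqv V V'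
  /-- rank two -/
  ld : ∀ (Γ : Type) [AddCommGroup Γ] [LinearOrder Γ] [IsOrderedAddMonoid Γ] (V : K → Γ)
    (x : Fin 2 → K) (ex : K → Fin 2 → ℤ), InZ k p C.φ V → IsVB V x ex →
    ∃ u : ℝ × ℝ, u ≠ 0 ∧ ∀ f ∈ Br k C.t, f ≠ 0 → u.1 * (ex f 0 : ℝ) + u.2 * (ex f 1 : ℝ) ≤ 0
  dv : ∀ w : K → ℝ, InZ k p C.φ w → AtInf (Br k C.t) w → ∀ V, Flag k p C.φ w V →
    SG (Br k C.t) w ∨ PT (Br k C.t) w V ∨ BT (Br k C.t) w V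
  /-- a second flag -/
  l2 : ∀ w : K → ℝ, InZ k p C.φ w → Dv w → (∃ f, w f ≠ 0) → ∀ V, Flag k p C.φ w V →
    ∃ V', Flag k p C.φ w V' ∧ ¬ Eqv V V'
  /-- pole type flags -/
  l3 : ∀ w : K → ℝ, InZ k p C.φ w → Dv w → AtInf (Br k C.t) w → ¬ SG (Br k C.t) w → ∀ V V',
    Flag k p C.φ w V → PT (Br k C.t) w V → Flag k p C.φ w V' → PT (Br k C.t) w V' → Eqv V V'
  l6 : ∀ w : K → ℝ, InZ k p C.φ w → Dv w → AtInf (Br k C.t) w → ¬ SG (Br k C.t) w → ∀ V V',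
    Flag k p C.φ w V → PT (Br k C.t) w V → Flag k p C.φ w V' →
    ∃ ρ : ℝ, 0 < ρ ∧ ∀ h ∈ Br k C.t, h ≠ 0 → w h = 0 → c2 V h + ρ * c2 V' h ≤ 0
  pI : ∀ (w : K → ℝ) (V : K → ℝ ×ₗ ℝ), (∃ f, w f ≠ 0) → Flag k p C.φ w V →
    PT (Br k C.t) w V → ∀ f ∈ C.I, w f = 0 → c2 V f < 0
  l4 : ∀ (w : K → ℝ) (V : K → ℝ ×ₗ ℝ), (∃ f, w f ≠ 0) → Flag k p C.φ w V →
    (BT (Br k C.t) w V ∨ ∀ f ∈ Br k C.t, f ≠ 0 → w f = 0 → 0 ≤ c2 V f) →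
    ∀ l, 0 ≤ w (C.T l) → 0 ≤ V (C.T l) ∧ C.ν l = 1
  /-- the symmetry -/
  i_B : ∀ f, C.ι f ∈ Br k C.t ↔ f ∈ Br k C.t
  i_I : ∀ f, C.ι f ∈ C.I ↔ f ∈ C.I
  i_res : ∀ f : C.B, ∃ f' : C.B, (f' : K) = C.ι f ∧
    ∀ n, (C.res f').coeff n = (C.res f).coeff (-n) ^ p
  i_N : ∀ f : K, ∃ N : ℕ, 0 < N ∧ C.ι^[N] f = f
  i_inz : ∀ (Γ : Type) [AddCommGroup Γ] [LinearOrder Γ] [IsOrderedAddMonoid Γ] (V : K → Γ),
    InZ k p C.φ V → InZ k p C.φ (C.tw V)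
  i_R : C.tw C.RR = C.RR
  i_flag : ∀ w V, Flag k p C.φ w V → Flag k p C.φ (C.tw w) (C.tw V)
  i_dv : ∀ w : K → ℝ, Dv (C.tw w) ↔ Dv w
  i_sg : ∀ w : K → ℝ, SG (Br k C.t) (C.tw w) ↔ SG (Br k C.t) w
  i_inf : ∀ w : K → ℝ, AtInf (Br k C.t) (C.tw w) ↔ AtInf (Br k C.t) w
  i_le : ∀ w w' : K → ℝ, Le (Br k C.t) (C.tw w) (C.tw w') ↔ Le (Br k C.t) w w'
  i_pr : ∀ w w' : K → ℝ, Pr (C.tw w) (C.tw w') ↔ Pr w w'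
  i_pt : ∀ w V, PT (Br k C.t) (C.tw w) (C.tw V) ↔ PT (Br k C.t) w V
  i_bt : ∀ w V, BT (Br k C.t) (C.tw w) (C.tw V) ↔ BT (Br k C.t) w V
  i_eqv : ∀ V V' : K → ℝ ×ₗ ℝ, Eqv (C.tw V) (C.tw V') ↔ Eqv V V'
  i_one : ∀ v : K → ℝ, (∃ f, v f ≠ 0) → ∀ c : ℝ, 0 < c → (∀ f, v (C.ι f) = c * v f) → c = 1
  i_cl : ∀ s1 s2 y M, CL k p C.φ C.t s1 s2 y M →
    CL k p C.φ C.t s1 s2 (fun t => C.tw (y t)) (fun f => M (C.ι f))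
  i_dr : ∀ (M : K → Finset (ℝ × ℝ)) (t : ℝ),
    DR (Br k C.t) (fun f => M (C.ι f)) t = DR (Br k C.t) M t ∧
    DL (Br k C.t) (fun f => M (C.ι f)) t = DL (Br k C.t) M t

end

end Pool.Agent.CZW
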