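import Pool.Agent.Lib.MP_305fdd_al.CZ.W.Stm

/-!
# MP_305fdd_al, F_2 project, section L: piece FC (composites)
-/

set_option autoImplicit false

namespace Pool.Agent.CZW

open Polynomial Pool.Agent.F2Ch Pool.Agent.F2 Pool.Agent.F2RF Pool.Agent.F2W Pool.Agent.F2D
open Pool.Agent.F2PF

private theorem fc_one {K : Type} [Field K] {v : K → ℤ} (h : IsV v) : v 1 = 0 := by
  have := h.mul 1 1 one_ne_zero one_ne_zero
  rw [mul_one] at this
  simpa using this

private theorem fc_inv {K : Type} [Field K] {v : K → ℤ} (h : IsV v) {x : K} (hx : x ≠ 0) :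
    v x⁻¹ = - v x := by
  have := h.mul x x⁻¹ hx (inv_ne_zero hx)
  rw [mul_inv_cancel₀ hx, fc_one h] at this
  exact eq_neg_of_add_eq_zero_right this.symm

private theorem fc_pow {K : Type} [Field K] {v : K → ℤ} (h : IsV v) {x : K} (hx : x ≠ 0) (n : ℕ) :
    v (x ^ n) = n • v x := by
  induction n with
  | zero => simp [fc_one h]
  | succ n ih => rw [pow_succ, h.mul _ _ (pow_ne_zero n hx) hx, ih, succ_nsmul]

private theorem fc_zpow {K : Type} [Field K] {v : K → ℤ} (h : IsV v) {x : K} (hx : x ≠ 0) (n : ℤ) :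
    v (x ^ n) = n • v x := by
  cases n with
  | ofNat n =>
    simp only [Int.ofNat_eq_natCast, zpow_natCast, natCast_zsmul]
    exact fc_pow h hx n
  | negSucc n =>
    rw [zpow_negSucc, fc_inv h (pow_ne_zero _ hx), fc_pow h hx, negSucc_zsmul]

theorem p_FC : S_FC := by
  intro p hp k K κ _ _ _ _ _ _ φ w x ac φb hφ hR Q hQ hQT hQC c hc0
  have hp0 : (p : ℕ) ≠ 0 := hp.out.ne_zero
  have hv := hR.inz.isv
  have ha := hR.isac
  have hx0 : x 0 ≠ 0 := hR.ne
  have hcl : ∀ a b : ℤ, a < b → c * (a : ℝ) < c * (b : ℝ) := by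
    intro a b h
    exact mul_lt_mul_of_pos_left (by exact_mod_cast h) hc0
  have hacz : ∀ f g, f ≠ 0 → g ≠ 0 → f + g ≠ 0 → w f ≤ w g →
      (toLex (c * (w f : ℝ), Q (ac f)) : ℝ ×ₗ ℝ) ≤ toLex (c * (w (f + g) : ℝ), Q (ac (f + g))) ∨
      (toLex (c * (w g : ℝ), Q (ac g)) : ℝ ×ₗ ℝ) ≤
        toLex (c * (w (f + g) : ℝ), Q (ac (f + g))) := by
    intro f g hf hg hfg hle
    have h1 : w f ≤ w (f + g) := by
      have := hv.add f g hf hg hfg
      rwa [min_eq_left hle] at this
    rcases h1.lt_or_eq with h2 | h2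
    · exact Or.inl ((Prod.Lex.toLex_le_toLex).2 (Or.inl (hcl _ _ h2)))
    · have h3 := ha.add (w f) f g (Or.inr le_rfl) (Or.inr hle)
      unfold lc at h3
      rw [if_pos ⟨hfg, h2.symm⟩, if_pos ⟨hf, rfl⟩] at h3
      by_cases h4 : w g = w f
      · rw [if_pos ⟨hg, h4⟩] at h3
        have h5 := hQ.add (ac f) (ac g) (ha.ne f hf) (ha.ne g hg) (by
          rw [← h3]; exact ha.ne _ hfg)
        rw [← h3] at h5
        rcases min_le_iff.1 h5 with h6 | h6
        · exact Or.inl ((Prod.Lex.toLex_le_toLex).2 (Or.inr ⟨by simp only [← h2], h6⟩))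
        · exact Or.inr ((Prod.Lex.toLex_le_toLex).2 (Or.inr ⟨by simp only [h4, ← h2], h6⟩))
      · rw [if_neg (fun h => h4 h.2), add_zero] at h3
        refine Or.inl ((Prod.Lex.toLex_le_toLex).2 (Or.inr ⟨by simp only [← h2], ?_⟩))
        simp only [h3]
        exact le_rfl
  refine ⟨⟨?_, ?_, ?_⟩, ?_, ?_⟩
  · simp only [hv.zero, ha.zero, hQ.zero, Int.cast_zero, mul_zero]
    rfl
  · intro f g hf hg
    simp only [hv.mul f g hf hg, ha.mul, hQ.mul _ _ (ha.ne f hf) (ha.ne g hg), Int.cast_add,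
      mul_add]
    rfl
  · intro f g hf hg hfg
    rw [min_le_iff]
    rcases le_total (w f) (w g) with h | h
    · exact hacz f g hf hg hfg h
    · have := hacz g f hg hf (by rwa [add_comm]) h
      rw [add_comm g f] at this
      exact this.symm
  · intro a
    simp only [hR.inz.triv a, ha.alg, hQT a, Int.cast_zero, mul_zero]
    rfl
  · intro f hf
    have h1 := hR.inz.compat f hf
    show (toLex (c * (w f : ℝ), Q (ac f)) : ℝ ×ₗ ℝ) ≤
      toLex (p • (c * (w (φ f) : ℝ)), p • Q (ac (φ f)))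
    have e1 : p • (c * (w (φ f) : ℝ)) = c * ((p • w (φ f) : ℤ) : ℝ) := by
      simp only [nsmul_eq_mul, Int.cast_mul, Int.cast_natCast]
      ring
    rw [e1]
    rcases h1.lt_or_eq with h2 | h2
    · exact (Prod.Lex.toLex_le_toLex).2 (Or.inl (hcl _ _ h2))
    · refine (Prod.Lex.toLex_le_toLex).2 (Or.inr ⟨by simp only [h2], ?_⟩)
      have hf0 : f ≠ 0 := by
        rintro rfl
        apply hf
        have h := hφ.add 0 0
        rw [add_zero] at h
        simpa using h
      set z : K := x 0 ^ w (φ f) with hz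
      have hz0 : z ≠ 0 := zpow_ne_zero _ hx0
      have hvz : w z = w (φ f) := by
        rw [hz, fc_zpow hv hx0, hR.val, smul_eq_mul, mul_one]
      have hac1 : ac 1 = 1 := by simpa using ha.alg 1
      have hacpow : ∀ (a : K) (n : ℕ), ac (a ^ n) = ac a ^ n := by
        intro a n
        induction n with
        | zero => simp [hac1]
        | succ n ih => rw [pow_succ, pow_succ, ha.mul, ih]
      have hacinv : ∀ a : K, a ≠ 0 → ac a⁻¹ = (ac a)⁻¹ := by
        intro a h0
        have := ha.mul a a⁻¹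
        rw [mul_inv_cancel₀ h0, hac1] at this
        exact eq_inv_of_mul_eq_one_right this.symm
      have haczpow : ∀ (n : ℤ), ac (x 0 ^ n) = 1 := by
        intro n
        cases n with
        | ofNat n =>
          simp only [Int.ofNat_eq_natCast, zpow_natCast]
          rw [hacpow, ha.x_one, one_pow]
        | negSucc n =>
          rw [zpow_negSucc, hacinv _ (pow_ne_zero _ hx0), hacpow, ha.x_one, one_pow, inv_one]
      have hacz1 : ac z = 1 := haczpow _
      have hzp : z ^ p ≠ 0 := pow_ne_zero _ hz0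
      set g : K := f * (z ^ p)⁻¹ with hg
      have hg0 : g ≠ 0 := mul_ne_zero hf0 (inv_ne_zero hzp)
      have hvg : w g = 0 := by
        rw [hg, hv.mul _ _ hf0 (inv_ne_zero hzp), fc_inv hv hzp, fc_pow hv hz0, hvz, h2]
        simp
      have hacg : ac g = ac f := by
        rw [hg, ha.mul, hacinv _ hzp, hacpow, hacz1, one_pow, inv_one, mul_one]
      have hφg : φ f = z * φ g := by
        rw [← hφ.pow_mul]
        congr 1
        rw [hg]
        field_simp
      have hφg0 : φ g ≠ 0 := by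
        intro h
        rw [h, mul_zero] at hφg
        exact hf hφg
      have hvφg : w (φ g) = 0 := by
        have h3 : w (φ f) = w z + w (φ g) := by
          rw [hφg]
          exact hv.mul _ _ hz0 hφg0
        rw [hvz] at h3
        simpa using h3
      have hacφg : ac (φ g) = ac (φ f) := by
        rw [hφg, ha.mul, hacz1, one_mul]
      have h4 := (hR.res g (Or.inr hvg.ge)).2
      unfold lc at h4
      rw [if_pos ⟨hφg0, hvφg⟩, if_pos ⟨hg0, hvg⟩, hacφg, hacg] at h4
      have h5 := hQC (ac f) (by rw [← h4]; exact ha.ne _ hf)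
      rwa [← h4] at h5

end Pool.Agent.CZW
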