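import Pool.Agent.Lib.MP_305fdd_al.CZ.W.Stm

set_option autoImplicit false

namespace Pool.Agent.CZW

open Pool.Agent.F2Ch Pool.Agent.F2RF Pool.Agent.F2W Pool.Agent.F2PF Pool.Agent.CZ

noncomputable section

variable {p m : ℕ} [Fact p.Prime] {k K G : Type} [Field k] [CharP k p] [IsAlgClosed k]
  [Field K] [Algebra k K] [Group G] (C : Core p m k K G)

theorem i1_Br (f : K) : f ∈ Br k C.t ↔ f ∈ C.B := (C.mem_B f).symm

theorem i1_ind (P : K → Prop) (hT : ∀ g, P (C.T g)) (hc : ∀ c : k, P (algebraMap k K c))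
    (ha : ∀ a b, a ∈ C.B → b ∈ C.B → P a → P b → P (a + b))
    (hm : ∀ a b, a ∈ C.B → b ∈ C.B → P a → P b → P (a * b)) : ∀ f ∈ C.B, P f := by
  intro f hf
  rw [← C.adj] at hf
  induction hf using Algebra.adjoin_induction with
  | mem x hx =>
    obtain ⟨g, rfl⟩ := hx
    exact hT g
  | algebraMap r => exact hc r
  | add x y hx hy h1 h2 =>
    rw [C.adj] at hx hy
    exact ha x y hx hy h1 h2
  | mul x y hx hy h1 h2 =>
    rw [C.adj] at hx hy
    exact hm x y hx hy h1 h2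

theorem i1_mem : ∀ f ∈ C.B, C.ι f ∈ C.B := by
  apply i1_ind C
  · intro g
    rw [C.ι_T]
    exact C.T_mem g
  · intro c
    rw [C.ι_k]
    exact C.B.algebraMap_mem _
  · intro a b _ _ h1 h2
    rw [map_add]
    exact C.B.add_mem h1 h2
  · intro a b _ _ h1 h2
    rw [map_mul]
    exact C.B.mul_mem h1 h2

/-- `ι` on `B` -/
def i1_iB : C.B →+* C.B :=
  (C.ι.toRingHom.comp C.B.toSubring.subtype).codRestrict C.B (fun x => i1_mem C x x.2)

theorem i1_iB_coe (f : C.B) : (i1_iB C f : K) = C.ι f := rfl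

/-- `c s ^ n ↦ c ^ p s ^ (-n)` -/
def i1_th (p : ℕ) [Fact p.Prime] (k : Type) [Field k] [CharP k p] : Ls k →+* Ls k :=
  (AddMonoidAlgebra.mapDomainRingEquiv k (AddEquiv.neg ℤ)).toRingHom.comp
    (AddMonoidAlgebra.mapRingHom ℤ (frobenius k p))

theorem i1_th_coeff (a : Ls k) (n : ℤ) : (i1_th p k a).coeff n = a.coeff (-n) ^ p := by
  show ((AddMonoidAlgebra.mapDomainRingEquiv k (AddEquiv.neg ℤ))
    (AddMonoidAlgebra.mapRingHom ℤ (frobenius k p) a)).coeff n = _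
  rw [AddMonoidAlgebra.coeff_mapDomainRingEquiv]
  rw [Finsupp.equivMapDomain_apply]
  rw [AddMonoidAlgebra.coeff_mapRingHom]
  rfl

theorem i1_th_single (c : k) (n : ℤ) :
    i1_th p k (AddMonoidAlgebra.single n c) = AddMonoidAlgebra.single (-n) (c ^ p) := by
  show (AddMonoidAlgebra.mapDomainRingEquiv k (AddEquiv.neg ℤ))
    (AddMonoidAlgebra.mapRingHom ℤ (frobenius k p) (AddMonoidAlgebra.single n c)) = _
  rw [AddMonoidAlgebra.mapRingHom_single, AddMonoidAlgebra.mapDomainRingEquiv_single]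
  rfl

theorem i1_zp (g : G) : (C.χ g) ^ p = (C.χ g)⁻¹ := by
  obtain ⟨d, hd⟩ := C.hpm
  have h1 : (C.χ g) ^ (p + 1) = 1 := by
    rw [hd, pow_mul, C.χ_pow, one_pow]
  rw [pow_succ] at h1
  exact eq_inv_of_mul_eq_one_left h1

theorem i1_res (f : C.B) : C.res (i1_iB C f) = i1_th p k (C.res f) := by
  have key : ∀ f ∈ C.B, ∀ h : f ∈ C.B, C.res (i1_iB C ⟨f, h⟩) = i1_th p k (C.res ⟨f, h⟩) := by
    apply i1_ind C
    · intro g h
      have e1 : i1_iB C ⟨C.T g, h⟩ = ⟨C.T g, C.T_mem g⟩ := by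
        apply Subtype.ext
        rw [i1_iB_coe]
        exact C.ι_T g
      rw [e1, C.res_T g, rr, map_add, i1_th_single, i1_th_single, neg_neg, add_comm]
      have e2 : ((C.χ g : kˣ) : k) ^ p = (((C.χ g)⁻¹ : kˣ) : k) := by
        rw [← Units.val_pow_eq_pow_val, i1_zp]
      have e3 : (((C.χ g)⁻¹ : kˣ) : k) ^ p = ((C.χ g : kˣ) : k) := by
        rw [← Units.val_pow_eq_pow_val, inv_pow, i1_zp, inv_inv]
      rw [e2, e3]
    · intro c h
      have e1 : i1_iB C ⟨algebraMap k K c, h⟩ = algebraMap k C.B (c ^ p) := by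
        apply Subtype.ext
        rw [i1_iB_coe]
        exact C.ι_k c
      have e2 : (⟨algebraMap k K c, h⟩ : C.B) = algebraMap k C.B c := rfl
      rw [e1, e2, AlgHom.commutes, AlgHom.commutes]
      have e3 : ∀ a : k, algebraMap k (Ls k) a = AddMonoidAlgebra.single 0 a := fun a => rfl
      rw [e3, e3, i1_th_single, neg_zero]
    · intro a b ha hb h1 h2 h
      have e1 : (⟨a + b, h⟩ : C.B) = ⟨a, ha⟩ + ⟨b, hb⟩ := rfl
      rw [e1, map_add, map_add, map_add, map_add, h1, h2]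
    · intro a b ha hb h1 h2 h
      have e1 : (⟨a * b, h⟩ : C.B) = ⟨a, ha⟩ * ⟨b, hb⟩ := rfl
      rw [e1, map_mul, map_mul, map_mul, map_mul, h1, h2]
  exact key f f.2 f.2

theorem i1_it_k (c : k) (N : ℕ) :
    C.ι^[N] (algebraMap k K c) = algebraMap k K (c ^ p ^ N) := by
  induction N with
  | zero => simp
  | succ n ih =>
    rw [Function.iterate_succ_apply', ih, C.ι_k, ← pow_mul, pow_succ]

theorem i1_it_mul (f : K) (N M : ℕ) (h : C.ι^[N] f = f) : C.ι^[N * M] f = f := by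
  rw [Function.iterate_mul]
  exact Function.iterate_fixed h M

theorem i1_fixB : ∀ f ∈ C.B, ∃ N : ℕ, 0 < N ∧ C.ι^[N] f = f := by
  apply i1_ind C
  · intro g
    exact ⟨1, one_pos, C.ι_T g⟩
  · intro c
    obtain ⟨N, h1, h2⟩ := C.alg c
    exact ⟨N, h1, by rw [i1_it_k, h2]⟩
  · rintro a b _ _ ⟨N, h1, h2⟩ ⟨M, h3, h4⟩
    refine ⟨N * M, Nat.mul_pos h1 h3, ?_⟩
    rw [iterate_map_add, i1_it_mul C a N M h2, mul_comm N M, i1_it_mul C b M N h4]
  · rintro a b _ _ ⟨N, h1, h2⟩ ⟨M, h3, h4⟩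
    refine ⟨N * M, Nat.mul_pos h1 h3, ?_⟩
    rw [iterate_map_mul, i1_it_mul C a N M h2, mul_comm N M, i1_it_mul C b M N h4]

theorem i1_fix (f : K) : ∃ N : ℕ, 0 < N ∧ C.ι^[N] f = f := by
  obtain ⟨a, b, hb, hab⟩ := C.fracgen f
  obtain ⟨N, h1, h2⟩ := i1_fixB C _ ((C.mem_B _).2 ⟨a, rfl⟩)
  obtain ⟨M, h3, h4⟩ := i1_fixB C _ ((C.mem_B _).2 ⟨b, rfl⟩)
  refine ⟨N * M, Nat.mul_pos h1 h3, ?_⟩
  have e := congrArg (C.ι^[N * M]) hab
  rw [iterate_map_mul, i1_it_mul C _ N M h2, mul_comm N M, i1_it_mul C _ M N h4, ← hab] at e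
  rw [mul_comm N M]
  exact mul_right_cancel₀ hb e

theorem i1_it_mem (f : K) (hf : f ∈ C.B) (N : ℕ) : C.ι^[N] f ∈ C.B := by
  induction N with
  | zero => exact hf
  | succ n ih =>
    rw [Function.iterate_succ_apply']
    exact i1_mem C _ ih

theorem i1_iff (f : K) : C.ι f ∈ C.B ↔ f ∈ C.B := by
  refine ⟨fun h => ?_, i1_mem C f⟩
  obtain ⟨N, h1, h2⟩ := i1_fix C f
  obtain ⟨n, rfl⟩ : ∃ n, N = n + 1 := ⟨N - 1, by omega⟩
  rw [Function.iterate_succ_apply] at h2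
  rw [← h2]
  exact i1_it_mem C _ h n

theorem p_i1 : S_i1 C := by
  refine ⟨fun f => ?_, fun f => ?_, fun f => ?_, i1_fix C⟩
  · rw [i1_Br, i1_Br]
    exact i1_iff C f
  · have hz : C.ι f ≠ 0 ↔ f ≠ 0 := by
      rw [Ne, map_eq_zero_iff C.ι C.ι.injective]
    show (C.ι f ≠ 0 ∧ _) ↔ (f ≠ 0 ∧ _)
    rw [hz]
    refine and_congr_right fun _ => ?_
    have hres : ∀ h : f ∈ C.B, C.res ⟨C.ι f, i1_mem C f h⟩ = 0 ↔ C.res ⟨f, h⟩ = 0 := by
      intro h
      have e1 : (⟨C.ι f, i1_mem C f h⟩ : C.B) = i1_iB C ⟨f, h⟩ := rfl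
      rw [e1, i1_res]
      constructor
      · intro h0
        apply AddMonoidAlgebra.coeff_injective
        ext n
        have h1 := i1_th_coeff (p := p) (C.res ⟨f, h⟩) (-n)
        rw [h0, neg_neg] at h1
        exact pow_eq_zero_iff (Fact.out (p := p.Prime)).ne_zero |>.1 h1.symm
      · intro h0
        rw [h0, map_zero]
    constructor
    · rintro ⟨h, h0⟩
      have hf := (i1_iff C f).1 h
      exact ⟨hf, (hres hf).1 h0⟩
    · rintro ⟨h, h0⟩
      exact ⟨i1_mem C f h, (hres h).2 h0⟩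
  · refine ⟨i1_iB C f, rfl, fun n => ?_⟩
    rw [i1_res]
    exact i1_th_coeff _ n

end

end Pool.Agent.CZW
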