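import Pool.Agent.Lib.MP_305fdd_al.CZ.W.Stm

/-!
# MP_305fdd_al, `C_m * Z`, piece [CZW r2]
-/

set_option autoImplicit false

namespace Pool.Agent.CZW

open Pool.Agent.F2Ch Pool.Agent.F2RF Pool.Agent.F2W Pool.Agent.F2PF Pool.Agent.CZ
open Pool.Agent.F2L (FPl)

private theorem r2_cs_alg {k : Type} [Field k] (a : k) : cs (algebraMap k (Ls k) a) = a := by
  unfold cs
  rw [AddMonoidAlgebra.coe_algebraMap]
  simp

private theorem r2_cs_sub {k : Type} [Field k] (a b : Ls k) : cs (a - b) = cs a - cs b := by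
  unfold cs
  simp

theorem p_r2 {p m : ℕ} [Fact p.Prime] {k K G : Type} [Field k] [CharP k p] [IsAlgClosed k]
    [Field K] [Algebra k K] [Group G] (C : Core p m k K G) (hbas : S_bas C) (hrk : S_rk C) :
    S_r2 C := by
  intro Γ _ _ _ V hV hT
  obtain ⟨_, _, b3, b4, b5, b6, _⟩ := hbas
  obtain ⟨hk, _⟩ := hrk Γ V hV hT
  have h1 : ∀ f : C.B, (f : K) ≠ 0 → cs (C.res f) = 0 → V f ≠ 0 := by
    intro f hf0 hc h0
    obtain ⟨a, ha, hg⟩ := hk f hf0 h0
    have h := b3 Γ V hV (f - algebraMap k C.B a) hg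
    rw [map_sub, AlgHom.commutes, r2_cs_sub, hc, r2_cs_alg, zero_sub, neg_eq_zero] at h
    exact ha h
  have h2 : ∀ f ∈ C.I, 0 ≤ V f → 0 < V f := by
    rintro f ⟨hf0, hB, hr⟩ h0
    refine lt_of_le_of_ne h0 (Ne.symm (h1 ⟨f, hB⟩ hf0 ?_))
    rw [hr]
    simp [cs]
  refine ⟨h1, h2, ?_⟩
  intro l hl
  have hν : C.ν l = 1 := by
    by_contra hn
    obtain ⟨h0, hle⟩ := b4 Γ V hV l hn
    exact h1 (C.TB l) h0 (b6 l hn).1 (le_antisymm hle hl)
  refine ⟨hν, ?_⟩
  rcases b5 l hν with h | h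
  · left
    rw [h, sub_self]
  · right
    refine h2 _ h ?_
    have hne : C.T l - ez C l ≠ 0 := h.1
    have hez : -ez C l = algebraMap k K (-((C.χ l : k) + (((C.χ l)⁻¹ : kˣ) : k))) := by
      unfold ez
      rw [map_neg, map_add]
    have hvz : V (-ez C l) = 0 := by rw [hez]; exact hV.triv _
    rw [sub_eq_add_neg] at hne ⊢
    by_cases hT0 : C.T l = 0
    · rw [hT0, zero_add, hvz]
    by_cases hE0 : -ez C l = 0
    · rw [hE0, add_zero]
      exact hl
    have h3 := hV.isv.add (C.T l) (-ez C l) hT0 hE0 hne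
    rw [hvz, min_eq_right hl] at h3
    exact h3

end Pool.Agent.CZW
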