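import Pool.Agent.Lib.MP_305fdd_al.CZ.W.Defs

/-!
# MP_305fdd_al, `C_m * Z`, section W: the pieces [CZW ..]

Every `def S_xx : Prop` is one independent piece; its docstring contains the complete proof.  The other
statements may be taken as hypotheses (`h : S_yy` or `h : S_yy C`).  The statements of the F_2 project are proved and may be used as theorems:
`F2Ch.t_X2` (`F2/ChMain.lean`), `F2RF.u0`, .. (`F2/RF/Main.lean`), `F2W.t_L11`, `F2W.t_R11`, `F2W.t_A1`, .. (`F2/W/Main.lean`), `F2L.p_Ev`, .. (`F2/L/P_*.lean`).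
MANY PIECES ARE ADAPTATIONS of the files `F2/L/P_xx.lean`, which may be copied.

`w : K → ℤ` is a normalised compatible discrete valuation, `κ` its residue field with `RFd`.  For `f : K` with `w f = 0` the element `ac f` is
the residue of `f`; `lc w ac 0 f` is the residue of any `f` with `Ge w 0 f`.  `B = C.B` is the trace ring.
-/

set_option autoImplicit false

namespace Pool.Agent.CZW

open Pool.Agent.F2Ch Pool.Agent.F2RF Pool.Agent.F2W Pool.Agent.F2PF Pool.Agent.CZ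
open Pool.Agent.F2L (FPl)

/-! ## 1. Pure statements on residue fields and flags -/

/-- [CZW FC] Composites.  Copy of `F2/L/P_FC.lean` for the new `RFd`. -/
def S_FC : Prop :=
  ∀ (p : ℕ) [Fact p.Prime] (k K κ : Type) [Field k] [CharP k p] [Field K] [Algebra k K] [Field κ]
    [Algebra k κ] (φ : K → K) (w : K → ℤ) (x : Fin 1 → K) (ac : K → κ) (φb : κ → κ),
    IsPinv p φ → RFd k p φ w x ac φb → ∀ Q : κ → ℝ, IsV Q → Triv k Q → Compat p φb Q →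
    ∀ c : ℝ, 0 < c → InZ k p φ (fun f => (toLex (c * (w f : ℝ), Q (ac f)) : ℝ ×ₗ ℝ))

/-- [CZW FD2] Decomposition of a flag.  Copy of `F2/L/P_FD2.lean` for the new `RFd`. -/
def S_FD2 : Prop :=
  ∀ (p : ℕ) [Fact p.Prime] (k K κ : Type) [Field k] [CharP k p] [Field K] [Algebra k K] [Field κ]
    [Algebra k κ] (φ : K → K) (w : K → ℤ) (x : Fin 1 → K) (ac : K → κ) (φb : κ → κ),
    IsPinv p φ → RFd k p φ w x ac φb → ∀ c : ℝ, 0 < c → ∀ V : K → ℝ ×ₗ ℝ, InZ k p φ V →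
    (∀ f, (ofLex (V f)).1 = c * (w f : ℝ)) → ∃ (Q : κ → ℝ) (b : ℝ), InZ k p φb Q ∧
      ∀ f, f ≠ 0 → V f = toLex (c * (w f : ℝ), Q (ac f) + b * (w f : ℝ))

/-! ## 2. Statements for `C : Core p m k K G` -/

section

variable {p m : ℕ} [Fact p.Prime] {k K G : Type} [Field k] [CharP k p] [IsAlgClosed k]
  [Field K] [Algebra k K] [Group G] (C : Core p m k K G)

/-- [CZW bas] (about 100 lines) Basic facts.
Proof. (1) `Bs`: `C.mem_B`, `C.fracgen`.  (2) `C.mem_B`.  (3) (0.1): `f ∈ B`, `Gt V 0 f`.  If `f = 0` clear.  Let `V f > 0`.  By induction `φ^[N] f` is `0` or `0 < V (φ^[N] f)` (`Compat`: `V f ≤ p • V (φ f)`).  By `C.tau`, `φ^[N] f = algebraMap k K c`, `c = rt^[N] (cs (res f))`, for large `N`.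
If `c ≠ 0` its value is `0` (`Triv`), contradiction; so `c = 0`, and `cs (res f) = 0` (`F2.rt` is injective: a `p`-th root).
(4) `res (T l) = rr z n`; `n ≠ 0`: not zero.  If `V (T l) > 0` then `V (T l * T l) > 0` and `cs (res (T l * T l)) = 2 ≠ 0` (`rr z n * rr z n = z⁻² s^(2n) + z² s^(-2n) + 2`; `p ≠ 2`: `C.odd`), against (3).  (5) `rr z 0`.  (6) as (4). -/
def S_bas : Prop :=
  Bs (Br k C.t) ∧ (∀ f, f ∈ Br k C.t ↔ f ∈ C.B) ∧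
  (∀ (Γ : Type) [AddCommGroup Γ] [LinearOrder Γ] [IsOrderedAddMonoid Γ] (V : K → Γ),
    InZ k p C.φ V → ∀ f : C.B, Gt V 0 (f : K) → cs (C.res f) = 0) ∧
  (∀ (Γ : Type) [AddCommGroup Γ] [LinearOrder Γ] [IsOrderedAddMonoid Γ] (V : K → Γ),
    InZ k p C.φ V → ∀ l, C.ν l ≠ 1 → C.T l ≠ 0 ∧ V (C.T l) ≤ 0) ∧
  (∀ l, C.ν l = 1 → C.T l = ez C l ∨ C.T l - ez C l ∈ C.I) ∧
  (∀ l, C.ν l ≠ 1 → cs (C.res (C.TB l)) = 0 ∧ cs (C.res (C.TB l * C.TB l)) = 2) ∧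
  ∀ f : C.B, (f : K) ∈ C.I ↔ (f : K) ≠ 0 ∧ C.res f = 0

/-- [CZW rr] (about 80 lines) Uses `S_bas`. Easy facts.
Proof. (1) `C.R_inz`, cast to `ℝ`.  (2) `γ = 1`.  (3) `C.R_nn`.  (4) `C.R_pos`.  (5) `x1 = f` with `w f ≠ 0` and `x2` with `w x2 = 0`, `c2 V x2 ≠ 0` (`Flag.nt`): first components: `m w x1 = 0`, so `m = 0`; then `m' c2 V x2 = 0`.
(6) If `0 ≤ w (T l)` for all `l` then `0 ≤ w f` (or `f = 0`) for all `f` in `B = Algebra.adjoin k (range T)` (`C.adj`, `Algebra.adjoin_induction`), against `AtInf`.  (7) `b ∈ B` with `w b < 0`; `κ0 * b ^ n ∈ I` has value `w κ0 + n w b < 0` for large `n`. -/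
def S_rr : Prop :=
  InZ k p C.φ C.RR ∧ Dv C.RR ∧ (∀ f ∈ Br k C.t, f ≠ 0 → 0 ≤ C.RR f) ∧
  (∀ f ∈ Br k C.t, f ≠ 0 → (0 < C.RR f ↔ f ∈ C.I)) ∧
  (∀ (w : K → ℝ) (V : K → ℝ ×ₗ ℝ), (∃ f, w f ≠ 0) → Flag k p C.φ w V → Two V) ∧
  (∀ w : K → ℝ, InZ k p C.φ w → AtInf (Br k C.t) w →
    (∃ l, w (C.T l) < 0) ∧ ∃ f ∈ C.I, w f < 0)

/-- [CZW rk] (about 100 lines) Uses `F2Ch.t_X2`. The residue field of a compatible valuation of rational rank two is `k`.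
Proof. `t_X2` for `V` (`t = C.t`, `C.fracgen`, `d = 2`, `C.pb`, `C.pinv`, `C.one`; `PerfectRing k p` by `inferInstance`): a chart with `r + s = 2`, `trdeg κ = s`, `IsVB V x ex`, `IsAC`.  `2 ≤ r`: as in `F2/L/P_Q0.lean` (if `r = 0` then `V = 0`, if `r = 1` then all values are multiples of one, both against `Two V`).
So `r = 2` and `s = 0`, `trdeg k κ = 0`: `κ` is algebraic over the algebraically closed `k`, so `algebraMap k κ` is surjective.  Let `f ≠ 0`, `V f = 0`.  `ac f = algebraMap k κ a`, `a ≠ 0`.  `lc V ac 0 (f - a) = ac f - a = 0` (`IsAC.add`, `alg`), and `Ge V 0 (f - a)`, so `Gt V 0 (f - a)` (`IsAC.ne`). -/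
def S_rk : Prop :=
  ∀ (Γ : Type) [AddCommGroup Γ] [LinearOrder Γ] [IsOrderedAddMonoid Γ] (V : K → Γ),
    InZ k p C.φ V → Two V →
    (∀ f : K, f ≠ 0 → V f = 0 → ∃ a : k, a ≠ 0 ∧ Gt V 0 (f - algebraMap k K a)) ∧
    ∃ (x : Fin 2 → K) (ex : K → Fin 2 → ℤ), IsVB V x ex

/-- [CZW r2] (about 80 lines) Uses `S_bas`, `S_rk`. (0.2).
Proof. (1) `f ∈ B`, `f ≠ 0`, `cs (res f) = 0`; suppose `V f = 0`.  `S_rk`: `a ≠ 0`, `Gt V 0 (f - a)`.  (0.1) for `f - a ∈ B`: `0 = cs (res (f - a)) = cs (res f) - a = - a`: contradiction.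
(2) `f ∈ I`: `cs (res f) = cs 0 = 0`, (1).  (3) `0 ≤ V (T l)`.  If `ν l ≠ 1`: `T l ≠ 0`, `V (T l) ≤ 0`, `cs (res (T l)) = 0` (`S_bas`), so `V (T l) = 0`, against (1).  So `ν l = 1`; `T l = ez l` or `f = T l - ez l ∈ I`, and `0 ≤ V f` (`ez l` is a constant; if `T l = 0` then `f = - ez l`, `V f = 0`), so `0 < V f` by (2). -/
def S_r2 : Prop :=
  ∀ (Γ : Type) [AddCommGroup Γ] [LinearOrder Γ] [IsOrderedAddMonoid Γ] (V : K → Γ),
    InZ k p C.φ V → Two V →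
    (∀ f : C.B, (f : K) ≠ 0 → cs (C.res f) = 0 → V f ≠ 0) ∧ (∀ f ∈ C.I, 0 ≤ V f → 0 < V f) ∧
    ∀ l, 0 ≤ V (C.T l) → C.ν l = 1 ∧ Gt V 0 (C.T l - ez C l)

/-- [CZW r9] (about 120 lines) Uses `S_bas`. (0.3): a nontrivial compatible valuation which is nonnegative on `B` is `ord_R`.  Compare `F2/W/O1.lean`.
Proof. `P = {f ∈ B | Gt v 0 f}` is a prime ideal of `B`.  `f ∈ P` implies `res f = 0`: for every `n ∈ ℤ` let `h ∈ B`, `res h = single (-n) 1` (`C.res_surj`); `f h ∈ P`, so by (0.1) `0 = cs (res f * single (-n) 1)`, the coefficient of `res f` at `n`.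
`P ≠ 0`: otherwise `v = 0` on `B - 0`, so on `K` (`Bs.frac`).  (1) `v κ0 > 0`: let `0 ≠ f ∈ P`.  By `C.hord`, `f b = κ0^n a` with `a, b ∈ B`, `res a ≠ 0`, `res b ≠ 0`, `n ∈ ℤ`; `a, b ∉ P`, so `v a = v b = 0` (`v ≥ 0` on `B`), `v f = n v κ0`, `0 < v f`, `0 ≤ v κ0` (`κ0 ∈ B`): so `v κ0 > 0`.
(2) for every `f ≠ 0`: `f b = κ0^n a` as before, `v f = n v κ0`, and `C.R f = n` by `C.R_eq`.  (3) the second statement: `c = v κ0`. -/
def S_r9 : Prop :=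
  (∀ (Γ : Type) [AddCommGroup Γ] [LinearOrder Γ] [IsOrderedAddMonoid Γ] (v : K → Γ),
    InZ k p C.φ v → (∃ f, v f ≠ 0) → (∀ f ∈ Br k C.t, f ≠ 0 → 0 ≤ v f) →
    0 < v (C.κ0 : K) ∧ ∀ f, v f = C.R f • v (C.κ0 : K)) ∧
  ∀ v : K → ℝ, InZ k p C.φ v → (∃ f, v f ≠ 0) → (∀ f ∈ Br k C.t, f ≠ 0 → 0 ≤ v f) →
    Pr C.RR v

/-- [CZW fR0] (about 200 lines) Uses `S_bas`. The flag `V_0` at `ord_R`.
Proof. `o : Ls k → ℤ`, `o a` = the least exponent of `a ≠ 0` (`o 0 = 0`): `o (a b) = o a + o b`, `o (a + b) ≥ min (o a) (o b)` for nonzero `a, b, a + b`; `o` of a nonzero constant is `0`.  For `f ≠ 0` choose (`C.hord`) `f b = κ0^n a`, `res a ≠ 0`, `res b ≠ 0` and put `V f = toLex (n, o (res a) - o (res b))`,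
`V 0 = 0`.  (1) Independent of the choice: `n = R f` (`C.R_eq`), and `f b' = κ0^n a'` gives `a b' = a' b` (in `K`, so in `B`), `res a res b' = res a' res b`.  (2) `IsV`: products clear; sum (`f1`, `f2`, `f1 + f2 ≠ 0`, `n1 ≤ n2`): `(f1 + f2) b1 b2 = κ0^n1 (a1 b2 + κ0^(n2 - n1) a2 b1)`.  If `res` of the bracket is `≠ 0` the second component is `o` of it minus
`o (res (b1 b2))`, and `res κ0 = 0`: so for `n1 < n2` it is `V f1`, for `n1 = n2` it is `≥ min`.  If it is `0` then `R (f1 + f2) > n1` (`C.R_pos`), and the value is larger.  (3) trivial on `k`: `c * 1 = κ0^0 c`.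
(4) Compatibility: let `φ f ≠ 0`.  `R f ≤ p R (φ f)` (`C.R_inz`); if `<` done.  If `=`: `n = R (φ f)`, `f0 = f / κ0^(p n)`, `φ f0 = φ f / κ0^n` (`C.pinv`), `R f0 = 0 = R (φ f0)`, so we may assume `n = 0`: `f b = a`, `res a ≠ 0`, `res b ≠ 0`, `h = a b^(p-1) ∈ B`, `f = h / b^p`, `φ f = φ h / b`.  `C.tor` for `h`: `f' ∈ B`, `res f' = ths (res h)`,
`Gt R 0 (φ h - f')`.  `R (φ h) = 0`, so `f' ≠ 0`, `R f' = 0`, `res f' ≠ 0`, and `V (φ h) = V f' = toLex (0, o (ths (res h)))` (`φ h = f' + e`, `V e` is larger).  By `coeff_ths` every exponent `c` of `ths a` gives the exponent `p c` of `a`: `o (res h) ≤ p o (ths (res h))`.  So `V h ≤ p V (φ h)`, and `V f = V h - p V b ≤ p (V (φ h) - V b) = p V (φ f)`.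
(5) Flag: `fst`: `R f`; `nt`: `f ∈ B` with `res f = single 1 1`: `V f = toLex (0, 1)`. -/
def S_fR0 : Prop :=
  ∃ V, Flag k p C.φ C.RR V ∧
    (∀ f : C.B, C.res f = AddMonoidAlgebra.single 1 1 → 0 < V f) ∧
    ∀ f : C.B, C.res f = AddMonoidAlgebra.single (-1) 1 → V f < 0

/-- [CZW fR1] (about 150 lines) Uses `S_bas`, `S_rr`, `S_r9`. Flags at `ord_R`.
Proof. Let `V` be a flag at `R` and `σ ∈ B`, `res σ = single 1 1` (`s`); `(ofLex (V f)).1 = R f`.  (*) For `h ∈ B`, `res h ≠ 0` there are `N` and a polynomial `P ∈ k[X]`, `P ≠ 0`, with `res h * s^N = P(s)`; `e = h σ^N - P(σ)` has `e ∈ B`, `res e = 0`, so `e = 0` or `R e > 0`.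
(1) `V σ ≠ 0`: suppose `V σ = 0`.  Then `V (P(σ)) ≥ 0` (`V` trivial on `k`), `V e > 0` (or `e = 0`), so `V h = V (h σ^N) ≥ 0`.  If `h ∈ B`, `h ≠ 0`, `res h = 0` then `R h > 0`, `V h > 0`.  So `V ≥ 0` on `B - 0`, `S_r9` (first part, `Γ = ℝ ×ₗ ℝ`): `V f = R f • V κ0` for all `f`.  By `Flag.nt` there is `f` with `R f = 0`, `c2 V f ≠ 0`; but `V f = 0`.
(2) Let `V σ > 0`.  For `h ∈ B`, `res h ≠ 0`, `j` the least exponent of `res h`: `V h = j • V σ`: `P = c X^(j+N) + ..` higher terms, `V (P(σ)) = (j + N) • V σ` (the other terms have larger value), and `V e` is larger because the first component of `V (P(σ))` is `0` (`R σ = 0`).  Similarly, if `V σ < 0`: `V h = j' • V σ`, `j'` the largest exponent of `res h`.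
(3) For `f ≠ 0`, `f b = κ0^n a` (`C.hord`): `V f > 0` iff `n > 0`, or `n = 0` and `V a > V b`.  Let `V`, `V'` be flags at `R` with `0 < V σ ↔ 0 < V' σ`.  By (1) both signs agree, and by (2) `V a > V b ↔ V' a > V' b`.  (`V 0 = 0`.) -/
def S_fR1 : Prop :=
  (∀ V, Flag k p C.φ C.RR V → ∀ f : C.B, C.res f = AddMonoidAlgebra.single 1 1 → V f ≠ 0) ∧
  ∀ V V', Flag k p C.φ C.RR V → Flag k p C.φ C.RR V' →
    ∀ f : C.B, C.res f = AddMonoidAlgebra.single 1 1 → (0 < V f ↔ 0 < V' f) → Eqv V V'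

/-- [CZW ld] (about 80 lines) Uses `S_r2`, `S_bas`, `S_gor` of PF (`F2/PF`; see `F2/L/P_ld.lean`). Rank two: a nonpositive functional.
Proof. `Two V`: `x1 = x 0`, `x2 = x 1` (`IsVB.indep`).  `S = {(ex f 0, ex f 1) | f ∈ I}` is closed under addition (`ex (f f') = ex f + ex f'` for nonzero elements, from `IsVB.gen`, `IsVB.indep`), and `0 ∉ S`: `ex f = 0` gives `V f = 0`, against `S_r2` (2).  `S_gor`: `u ≠ 0` with
`u · ex f ≤ 0` for `f ∈ I`.  For `f ∈ B`, `f ≠ 0` and `h = κ0 ∈ I`: `f^N h ∈ I`, `N (u · ex f) + u · ex h ≤ 0` for all `N`, so `u · ex f ≤ 0`. -/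
def S_ld : Prop :=
  ∀ (Γ : Type) [AddCommGroup Γ] [LinearOrder Γ] [IsOrderedAddMonoid Γ] (V : K → Γ)
    (x : Fin 2 → K) (ex : K → Fin 2 → ℤ), InZ k p C.φ V → IsVB V x ex →
    ∃ u : ℝ × ℝ, u ≠ 0 ∧ ∀ f ∈ Br k C.t, f ≠ 0 → u.1 * (ex f 0 : ℝ) + u.2 * (ex f 1 : ℝ) ≤ 0

/-- [CZW dv] (about 100 lines) Uses `S_ld`, `S_rr`, `S_rk`. Pole type or `b_0` type.
Proof. `Two V` (`S_rr`).  `S_rk`: `IsVB V x ex` with `x : Fin 2 → K`.  `S_ld`: `u ≠ 0`.  Let `a_i = w (x i)`, `c_i = c2 V (x i)`, so for `f ≠ 0`: `w f = ∑ ex f i * a_i`, `c2 V f = ∑ ex f i * c_i` (`IsVB.gen`, components).  `D = a_0 c_1 - a_1 c_0 ≠ 0`: by `Flag.nt` there is `f` with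
`∑ e_i a_i = 0`, `∑ e_i c_i ≠ 0` (`e = ex f`), and `a ≠ 0` (`w` is not `0`): if `D = 0` then `c = λ a` and `∑ e_i c_i = 0`.  Solve `α a_i + β c_i = u_i` (`i = 0, 1`): `α w f + β c2 V f = u · ex f ≤ 0` for `f ∈ B - 0`, `(α, β) ≠ 0`.  `β > 0`: divide by `β`: `PT`.  `β < 0`: divide by `- β`: `BT`.  `β = 0`: `α w f ≤ 0`; `α > 0` gives `SG`, and
`α < 0` gives `w f ≥ 0` on `B - 0`, against `AtInf`. -/
def S_dv : Prop :=
  ∀ w : K → ℝ, InZ k p C.φ w → AtInf (Br k C.t) w → ∀ V, Flag k p C.φ w V →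
    SG (Br k C.t) w ∨ PT (Br k C.t) w V ∨ BT (Br k C.t) w V

/-- [CZW l4] (about 60 lines) Uses `S_r2`, `S_rr`. Two easy facts on flags.
Proof. (1) `PT`: `μ w f + c2 V f ≤ 0` on `B - 0`, so `c2 V f ≤ 0` for `w f = 0`, `f ∈ I`; if `c2 V f = 0` then `V f = 0`, against `S_r2` (2) (`Two V`: `S_rr`).
(2) `BT`: `μ w f - c2 V f ≤ 0`, so `0 ≤ c2 V f` for `f ∈ B - 0`, `w f = 0`.  Let `0 ≤ w (T l)`.  If `T l = 0`: `V 0 = 0`.  If `w (T l) > 0` then `V (T l) > 0` (first component); if `w (T l) = 0` then `c2 V (T l) ≥ 0`: `V (T l) ≥ 0`.  `S_r2` (3): `ν l = 1`. -/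
def S_l4 : Prop :=
  (∀ (w : K → ℝ) (V : K → ℝ ×ₗ ℝ), (∃ f, w f ≠ 0) → Flag k p C.φ w V →
    PT (Br k C.t) w V → ∀ f ∈ C.I, w f = 0 → c2 V f < 0) ∧
  ∀ (w : K → ℝ) (V : K → ℝ ×ₗ ℝ), (∃ f, w f ≠ 0) → Flag k p C.φ w V →
    (BT (Br k C.t) w V ∨ ∀ f ∈ Br k C.t, f ≠ 0 → w f = 0 → 0 ≤ c2 V f) →
    ∀ l, 0 ≤ w (C.T l) → 0 ≤ V (C.T l) ∧ C.ν l = 1

/-- [CZW FD0] (about 80 lines) Uses `F2W.t_R11`, `F2Ch.t_X2`. The residue field of a normalised `w`.  Adapt `F2/L/P_FD0.lean`.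
Proof. `t_X2` for `V = w` (`d = 2`, `C.pb`): a chart with `r + s = 2`, `trdeg κ = s`, `κ` finitely generated, `IsVB w x ex`, `IsAC`, `φb`.  `r = 1`: if `r = 0` then `w = 0` (`IsVB.gen`), against `Nrm`; if `r = 2` then `m = (w (x 1), - w (x 0))` contradicts `IsVB.indep`.  `w (x 0) > 0` divides all values, so
`w (x 0) = 1`.  So `s = 1`.  `LogTy p φb` and `MB`: `F2W.t_R11` (`C.trdeg`, `C.log`). -/
def S_FD0 : Prop :=
  ∀ w : K → ℤ, InZ k p C.φ w → F2N.Nrm w →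
    ∃ (κ : Type) (_ : Field κ) (_ : Algebra k κ) (x : Fin 1 → K) (ac : K → κ) (φb : κ → κ),
      RFd k p C.φ w x ac φb

/-- [CZW FD3] (about 80 lines) Uses `S_FD2`, `F2RF.u0`, `F2RF.u11`. The place of a flag.
Proof. `S_FD2`: `V f = toLex (c w f, Q (ac f) + b w f)`, `InZ k p φb Q`; `Q ≠ 0` by `Flag.nt` (`w f = 0`: `c2 V f = Q (ac f)`).  `FF1 k κ` by `u0` (`RFd.fg`, `RFd.trd`); `u11` (`F = k`, `L = κ`, `Γ = ℝ`): `Q y = D y • δ`, `δ > 0`, `Plc k D`.  `Compat p φb D`: from `Q`, divide by `δ`. -/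
def S_FD3 : Prop :=
  ∀ (κ : Type) [Field κ] [Algebra k κ] (w : K → ℤ) (x : Fin 1 → K) (ac : K → κ) (φb : κ → κ),
    RFd k p C.φ w x ac φb → ∀ (c : ℝ), 0 < c → ∀ V : K → ℝ ×ₗ ℝ,
    Flag k p C.φ (fun f => c * (w f : ℝ)) V →
    ∃ (D : κ → ℤ) (δ b : ℝ), FPl k p w ac φb c V D δ b

/-- [CZW FD4] (about 80 lines) Uses `S_FC`. The flag of a place.
Proof. `V f = toLex (c * w f, D (ac f))`: `InZ` by `S_FC` for `Q f = (D f : ℝ)`; `fst` clear; `nt`: `y ∈ κ` with `D y = 1`, `y = ac f`, `w f = 0` (`IsAC.surj`).  `FPl` with `δ = 1`, `b = 0`. -/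
def S_FD4 : Prop :=
  ∀ (κ : Type) [Field κ] [Algebra k κ] (w : K → ℤ) (x : Fin 1 → K) (ac : K → κ) (φb : κ → κ),
    RFd k p C.φ w x ac φb → ∀ (c : ℝ), 0 < c → ∀ D : κ → ℤ, Plc k D → Compat p φb D →
    ∃ V : K → ℝ ×ₗ ℝ, Flag k p C.φ (fun f => c * (w f : ℝ)) V ∧ FPl k p w ac φb c V D 1 0

/-- [CZW l2] (about 100 lines) Uses `S_FD0`, `S_FD3`, `S_FD4`, `F2L.p_Ev`, `F2W.t_L11`, `F2RF.w4`. A SECOND FLAG.
Proof. `RFd` from `S_FD0`, the place `D` of `V` from `S_FD3`.  `F2W.t_L11` for `M = κ`, `φ = φb`, `v = D` (`RFd.fg`, `trd`, `mb`, `pinv`, `one`; `hform`: `F2RF.w4` with `RFd.log`: for `x`, `ρ` with `IsPB p (monY fun _ => x) ρ` one has `MB p (fun _ : Fin 1 => x) ρ`, `x ≠ 0` because otherwise `monY` has a zero member (see `r6_ne` in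
`F2/W/R6.lean`); `CharP κ p` from `k`).  It gives `D'` with `Plc k D'`, `Compat p φb D'`, `f` with `Ge D 0 f`, not `Ge D' 0 f`, so `D ≠ D'`.  `V'` from `S_FD4`.  `F2L.p_Ev`: `Eqv V V' ↔ D = D'`. -/
def S_l2 : Prop :=
  ∀ w : K → ℤ, InZ k p C.φ w → F2N.Nrm w → ∀ (c : ℝ), 0 < c → ∀ V : K → ℝ ×ₗ ℝ,
    Flag k p C.φ (fun f => c * (w f : ℝ)) V →
    ∃ V', Flag k p C.φ (fun f => c * (w f : ℝ)) V' ∧ ¬ Eqv V V'

/-- [CZW neg] (about 120 lines) Uses `F2W.t_A1`, `F2RF.u10`, `F2RF.u0`, `F2RF.u7`, `S_bas`, `S_l4`. THE RESIDUE RING and the pole type place.  Compare `F2/L/P_neg.lean`, `F2/W/A4.lean`, `F2/W/A5.lean`.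
Proof. `w` takes both signs on `I`: `b ∈ B` with `w b < 0`: `κ0 b^n ∈ I` is negative for large `n`; `¬ SG` gives `b' ∈ B` with `w b' > 0`: `κ0 b'^n`.  `A` from `F2W.t_A1`.  `PT`: for `f ∈ I`, `w f = 0`: `c2 V f < 0` (`S_l4` (1)), `c2 V f = δ D (ac f)` (`FPl.eq`): `D (ac f) < 0`.
`Q = {z | ∃ f ∈ B, res f = 0, Ge w 0 f, lc w ac 0 f = z}` is an ideal of `A`, and `≠ 0`: `f_+^b f_-^a`, `f_± ∈ I`, `w f_+ = a > 0`, `w f_- = - b < 0`, has value `0` and is in `I`.  `F2RF.u10` (`Γ = ℤ`, `c = D`): `D ≤ 0` on `A - 0`.  `F2RF.u7` (`F = k`, `L = κ`; `FF1` from `u0`). -/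
def S_neg : Prop :=
  ∀ (κ : Type) [Field κ] [Algebra k κ] (w : K → ℤ) (x : Fin 1 → K) (ac : K → κ) (φb : κ → κ),
    RFd k p C.φ w x ac φb → (∃ f : C.B, w f < 0) → ∀ (c : ℝ), 0 < c →
    ¬ SG (Br k C.t) (fun f => c * (w f : ℝ)) →
    (∃ f ∈ C.I, 0 < w f) ∧ (∃ f ∈ C.I, w f < 0) ∧ ∃ A : Subalgebra k κ,
      (∀ z, z ∈ A ↔ ∃ f : C.B, Ge w 0 (f : K) ∧ lc w ac 0 (f : K) = z) ∧ FracOf A ∧
    ∀ V : K → ℝ ×ₗ ℝ, Flag k p C.φ (fun f => c * (w f : ℝ)) V →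
    PT (Br k C.t) (fun f => c * (w f : ℝ)) V → ∀ (D : κ → ℤ) (δ b : ℝ), FPl k p w ac φb c V D δ b →
    (∀ f ∈ C.I, w f = 0 → D (ac f) < 0) ∧ (∀ a ∈ A, a ≠ 0 → D a ≤ 0) ∧
      (∃ a ∈ A, a ≠ 0 ∧ D a < 0) ∧ ∀ a ∈ A, a ≠ 0 → 0 ≤ D a → IsAlgebraic k a

/-- [CZW l3] (about 80 lines) Uses `S_neg`, `S_FD0`, `S_FD3`, `F2L.p_Ev`, `F2RF.u8`. TWO POLE TYPE FLAGS ARE EQUIVALENT.
Proof. `RFd` from `S_FD0`, places `D`, `D'` from `S_FD3`, `A` from `S_neg` (for both flags).  Suppose `D' ≠ D`.  `F2RF.u8` (`c₁ = D`, `c₂ = D'`): `0 ≤ D' a` for all `a ∈ A`, against `D' a < 0` for some `a ∈ A`.  `F2L.p_Ev`. -/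
def S_l3 : Prop :=
  ∀ w : K → ℤ, InZ k p C.φ w → F2N.Nrm w → (∃ f : C.B, w f < 0) → ∀ (c : ℝ), 0 < c →
    ¬ SG (Br k C.t) (fun f => c * (w f : ℝ)) → ∀ V V' : K → ℝ ×ₗ ℝ,
    Flag k p C.φ (fun f => c * (w f : ℝ)) V → PT (Br k C.t) (fun f => c * (w f : ℝ)) V →
    Flag k p C.φ (fun f => c * (w f : ℝ)) V' → PT (Br k C.t) (fun f => c * (w f : ℝ)) V' →
    Eqv V V'

/-- [CZW l6] (about 80 lines) Uses `S_neg`, `S_FD0`, `S_FD3`, `F2RF.u9`. THE INEQUALITY.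
Proof. `RFd`, `D`, `D'`, `A` as in `S_l3`.  `F2RF.u9` (`c₁ = D`, `c₂ = D'`): `m, n > 0` with `m D a + n D' a ≤ 0` for `0 ≠ a ∈ A`.  For `h ∈ B`, `h ≠ 0`, `w h = 0`: `ac h ∈ A` (`lc w ac 0 h = ac h`), `c2 V h = δ D (ac h)`, `c2 V' h = δ' D' (ac h)`: `ρ = n δ / (m δ')`. -/
def S_l6 : Prop :=
  ∀ w : K → ℤ, InZ k p C.φ w → F2N.Nrm w → (∃ f : C.B, w f < 0) → ∀ (c : ℝ), 0 < c →
    ¬ SG (Br k C.t) (fun f => c * (w f : ℝ)) → ∀ V V' : K → ℝ ×ₗ ℝ,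
    Flag k p C.φ (fun f => c * (w f : ℝ)) V → PT (Br k C.t) (fun f => c * (w f : ℝ)) V →
    Flag k p C.φ (fun f => c * (w f : ℝ)) V' →
    ∃ ρ : ℝ, 0 < ρ ∧ ∀ h ∈ Br k C.t, h ≠ 0 → w h = 0 → c2 V h + ρ * c2 V' h ≤ 0

/-- [CZW i1] (about 150 lines) The symmetry `ι` on `B`.
Proof. (a) `ι T g = T g` and `ι c = c^p`: by `C.adj` (`Algebra.adjoin_induction`) `ι` maps `B` into `B`.  (b) The formula: the set of the `f ∈ B` for which it holds contains the constants (`res c` is the constant `c`, coefficient `0` at `n ≠ 0`), the `T g` (`res = z⁻¹ s^n + z s^(-n)`, `z^p = z⁻¹` since `z^(2m) = 1`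
(`C.χ_pow`) and `2m ∣ p + 1` (`C.hpm`); `C.ι_T`), and is closed under sums (`(a + b)^p = a^p + b^p`) and products: in other words both `f ↦ res (ι f)` and `f ↦ θ (res f)`, `θ (c s^n) = c^p s^(-n)`, are ring homomorphisms `B → Ls k`.
(c) Every `f ∈ K` is fixed by some `ι^[N]`, `N > 0`: constants by `C.alg` (`ι^[N] c = c^(p^N)`), `T g` with `N = 1`; if `ι^[N] a = a` and `ι^[N'] b = b` then `ι^[N N']` fixes both, so sums, products, quotients; `C.adj` and `Bs.frac` (`C.fracgen`, `C.mem_B`).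
(d) `f ∈ B ↔ ι f ∈ B`: `→` (a); `←`: `f = ι^[N-1] (ι f)`.  (e) `C.I`: `res (ι f) = 0 ↔ res f = 0` by (b). -/
def S_i1 : Prop :=
  (∀ f, C.ι f ∈ Br k C.t ↔ f ∈ Br k C.t) ∧ (∀ f, C.ι f ∈ C.I ↔ f ∈ C.I) ∧
  (∀ f : C.B, ∃ f' : C.B, (f' : K) = C.ι f ∧
    ∀ n, (C.res f').coeff n = (C.res f).coeff (-n) ^ p) ∧
  ∀ f : K, ∃ N : ℕ, 0 < N ∧ C.ι^[N] f = f

/-- [CZW i2] (about 150 lines) Uses `S_i1`, `S_bas`, `S_rr`, `S_r9`. Transport by `ι`.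
Proof. `ι` is an automorphism of the field `K`, permutes `B` and `B - 0` (`S_i1`), maps `k` to `k`, commutes with `φ` (`C.ι_φ`).  `InZ`: `Triv`: `ι c = c^p`.  `Compat`: `V (ι f) ≤ p V (φ (ι f)) = p V (ι (φ f))`.  All the equivalences: the quantifier over `f ∈ B - 0` (or `f ∈ K`) is invariant under `ι` (surjective).
(R) `v = tw RR` is compatible, not trivial, `≥ 0` on `B - 0`; `S_r9`: `R (ι f) = c R f` (`c > 0`) for all `f`; the last part: `c = 1`.  (last) `v f = v (ι^[N] f) = c^N v f` (`S_i1`), so `c^N = 1`, `c = 1`. -/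
def S_i2 : Prop :=
  (∀ (Γ : Type) [AddCommGroup Γ] [LinearOrder Γ] [IsOrderedAddMonoid Γ] (V : K → Γ),
    InZ k p C.φ V → InZ k p C.φ (C.tw V)) ∧ C.tw C.RR = C.RR ∧
  (∀ w V, Flag k p C.φ w V → Flag k p C.φ (C.tw w) (C.tw V)) ∧
  (∀ w : K → ℝ, Dv (C.tw w) ↔ Dv w) ∧ (∀ w : K → ℝ, SG (Br k C.t) (C.tw w) ↔ SG (Br k C.t) w) ∧
  (∀ w : K → ℝ, AtInf (Br k C.t) (C.tw w) ↔ AtInf (Br k C.t) w) ∧
  (∀ w w' : K → ℝ, Le (Br k C.t) (C.tw w) (C.tw w') ↔ Le (Br k C.t) w w') ∧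
  (∀ w w' : K → ℝ, Pr (C.tw w) (C.tw w') ↔ Pr w w') ∧
  (∀ w V, PT (Br k C.t) (C.tw w) (C.tw V) ↔ PT (Br k C.t) w V) ∧
  (∀ w V, BT (Br k C.t) (C.tw w) (C.tw V) ↔ BT (Br k C.t) w V) ∧
  (∀ V V' : K → ℝ ×ₗ ℝ, Eqv (C.tw V) (C.tw V') ↔ Eqv V V') ∧
  (∀ (M : K → Finset (ℝ × ℝ)) (t : ℝ),
    DR (Br k C.t) (fun f => M (C.ι f)) t = DR (Br k C.t) M t ∧
    DL (Br k C.t) (fun f => M (C.ι f)) t = DL (Br k C.t) M t) ∧
  ∀ v : K → ℝ, (∃ f, v f ≠ 0) → ∀ c : ℝ, 0 < c → (∀ f, v (C.ι f) = c * v f) → c = 1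

/-- [CZW iCL] (about 200 lines) Uses `S_i1`. Lines are transported by `ι`.
Proof. Let `κ, Γ, V, x, ex, ac, φb, N, L, d, e` be the data of the line.  New data: the same field `κ` with the algebra structure `c ↦ algebraMap k κ (c ^ p)` (`RingHom.toAlgebra ((algebraMap k κ).comp (frobenius k p))`), `V' = V ∘ ι`, `x' i = ι⁻¹ (x i)`, `ex' = ex ∘ ι`, `ac' = ac ∘ ι`, the same `φb`, `N`, `d`, `e`, `L' = L ∘ ι`.
Every field of `Chart`, `OnCh`, `LForm` for the new data is the old one at `ι f`: `ι` permutes the elements `aeval t q` (`= B`, `S_i1`) and commutes with `φ`; the valuations `w'` on the new chart are the `w ∘ ι`, `w = w' ∘ ι⁻¹` (`ι⁻¹` maps constants to constants: `k` is perfect); `LForm`: `AC' = AC ∘ ι`; `unif`: the sets `ι⁻¹ G0`, `ι⁻¹ G1`. -/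
def S_iCL : Prop :=
  ∀ s1 s2 y M, CL k p C.φ C.t s1 s2 y M →
    CL k p C.φ C.t s1 s2 (fun t => C.tw (y t)) (fun f => M (C.ι f))

/-- [CZW ib] (about 150 lines) Uses nothing. The symmetry on the residue field.
Proof. `ρ f = lc w ac 0 f` is a surjective ring homomorphism from `O = {Ge w 0}` to `κ` with kernel `{Gt w 0}` (`IsAC`).  `ι` maps `O` to `O` and the kernel to the kernel (`w (ι f) = w f`), so there is `j : κ ≃+* κ` with `j (ρ f) = ρ (ι f)` (the inverse from `ι⁻¹`).  Concretely: for `y ≠ 0` choose `f` with `w f = 0`, `ac f = y`, `j y = ac (ι f)`.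
Constants: `ρ c = c`, `ι c = c^p`.  `φb`: `RFd.res` and `C.ι_φ`: `j (φb (ρ f)) = j (ρ (φ f)) = ρ (ι (φ f)) = ρ (φ (ι f)) = φb (ρ (ι f))`.
PLACES: let `FPl k p w ac φb c V D δ b`.  `D ∘ j` is a compatible place.  For `f ≠ 0`, `n = w f`, `f = f0 x^n` (`x = x 0`), `w f0 = 0`, `ac f0 = ac f`; `ac (ι f) = ac (ι f0) ac (ι x)^n = j (ac f) u^n`, `u = ac (ι x) ≠ 0`.  So `V (ι f) = toLex (c n, δ D (j (ac f)) + (δ D u + b) n)`. -/
def S_ib : Prop :=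
  ∀ (κ : Type) [Field κ] [Algebra k κ] (w : K → ℤ) (x : Fin 1 → K) (ac : K → κ) (φb : κ → κ),
    RFd k p C.φ w x ac φb → (∀ f, w (C.ι f) = w f) →
    ∃ j : κ ≃+* κ, (∀ f, Ge w 0 f → j (lc w ac 0 f) = lc w ac 0 (C.ι f)) ∧
      (∀ f, w f = 0 → j (ac f) = ac (C.ι f)) ∧
      (∀ c : k, j (algebraMap k κ c) = algebraMap k κ (c ^ p)) ∧ (∀ y, j (φb y) = φb (j y)) ∧
      ∀ (c : ℝ) (V : K → ℝ ×ₗ ℝ) (D : κ → ℤ) (δ b : ℝ), FPl k p w ac φb c V D δ b →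
        ∃ b' : ℝ, FPl k p w ac φb c (C.tw V) (fun y => D (j y)) δ b'

/-- [CZW res] (about 100 lines) Uses `S_bas`. Constant terms in the residue field.
Proof. `RFd.res` iterated: `lc w ac 0 (φ^[N] f) = φb^[N] (lc w ac 0 f)` for `Ge w 0 f`.  `C.tau`: for `f ∈ B` and large `N`, `φ^[N] f` is the constant `rt^[N] (cs (res f))`; `lc w ac 0` of a constant `c` is `algebraMap k κ c` (`IsAC.alg`, `Triv`; for `c = 0` both are `0`). -/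
def S_res : Prop :=
  ∀ (κ : Type) [Field κ] [Algebra k κ] (w : K → ℤ) (x : Fin 1 → K) (ac : K → κ) (φb : κ → κ),
    RFd k p C.φ w x ac φb → ∀ f : C.B, Ge w 0 (f : K) → ∃ N0 : ℕ, ∀ N, N0 ≤ N →
      φb^[N] (lc w ac 0 (f : K)) = algebraMap k κ ((F2.rt p k)^[N] (cs (C.res f)))

/-- [CZW rfw] (about 120 lines) Uses `S_FD0`, `S_FD3`, `S_FD4`, `F2N.exists_norm`. The form of the residue field used in section E (`I_rfw` of `CZ/E/Ifc.lean`).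
Proof. `F2N.exists_norm` (as in `to_int` of `F2/L/Glue.lean`): `w = c * w'`, `c > 0`, `w' : K → ℤ` normalised, `InZ`.  `RFd` for `w'` (`S_FD0`).  `IsAC k w x ac` from `IsAC k w' x ac`: all fields without `w` are the same; `surj`: `w f = 0 ↔ w' f = 0`; `add γ f g`: if `γ = c * n` with `n : ℤ` then `lc w ac γ = lc w' ac n` and
`Ge w γ ↔ Ge w' n`; otherwise all `lc w ac γ` are `0`.  The `p`-basis `Fin (p ^ 1)`: reindex `MB` by a bijection `Fin (p ^ 1) ≃ (Fin 1 → Fin p)`.  `Ge w 0 ↔ Ge w' 0`, `lc w ac 0 = lc w' ac 0`.  Flags: `S_FD3`: `c2 V f = δ D (ac f) + b w' f`; `S_FD4`. -/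
def S_rfw : Prop :=
  ∀ w : K → ℝ, InZ k p C.φ w → Dv w → (∃ f, w f ≠ 0) →
    ∃ (κ : Type) (_ : Field κ) (_ : Algebra k κ) (x : Fin 1 → K) (ac : K → κ) (φb : κ → κ),
      IsAC k w x ac ∧ IsPinv p φb ∧ φb 1 = 1 ∧ LogTy p φb ∧ Algebra.trdeg k κ = 1 ∧
      (∃ (n : ℕ) (t : Fin n → κ), FracGen k t) ∧
      (∃ (b : Fin (p ^ 1) → κ) (ρ : Fin (p ^ 1) → κ → κ), IsPB p b ρ) ∧
      (∀ f, Ge w 0 f → Ge w 0 (C.φ f) ∧ lc w ac 0 (C.φ f) = φb (lc w ac 0 f)) ∧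
      (∀ V : K → ℝ ×ₗ ℝ, Flag k p C.φ w V → ∃ (c : κ → ℤ) (γ : ℝ), 0 < γ ∧ Plc k c ∧
        Compat p φb c ∧ ∀ f, f ≠ 0 → w f = 0 → c2 V f = (c (ac f) : ℝ) * γ) ∧
      (∀ c : κ → ℤ, Plc k c → Compat p φb c → ∃ V : K → ℝ ×ₗ ℝ, Flag k p C.φ w V ∧
        ∀ f, f ≠ 0 → w f = 0 → c2 V f = (c (ac f) : ℝ))

end

end Pool.Agent.CZW
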